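import Mathlib

/-!
# Project QS (helper543): an abstract inequality for the `3`-torsion
-/

set_option autoImplicit false

namespace Pool.Agent.QS543

/-- the order of a group is the product of the orders of the kernel and the range -/
theorem card_ker_range {X H : Type} [AddCommGroup X] [AddCommGroup H] (ψ : X →+ H) :
    Nat.card X = Nat.card ψ.range * Nat.card ψ.ker := by
  rw [AddSubgroup.card_eq_card_quotient_mul_card_addSubgroup ψ.ker]
  congr 1
  exact Nat.card_congr (QuotientAddGroup.quotientKerEquivRange ψ).toEquiv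

theorem fin_ker_range {X H : Type} [AddCommGroup X] [AddCommGroup H] (ψ : X →+ H)
    (h1 : Finite ψ.range) (h2 : Finite ψ.ker) : Finite X := by
  have h3 : Finite (X ⧸ ψ.ker) :=
    Finite.of_equiv _ (QuotientAddGroup.quotientKerEquivRange ψ).symm.toEquiv
  exact Finite.of_addSubgroup_quotient ψ.ker

/-- a group of exponent three inside `H`, disjoint from its image under a square root `θ` of `-3` -/
theorem card_le_ker {X H : Type} [AddCommGroup X] [AddCommGroup H] (θ : H →+ H) (ρ : X →+ H)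
    (hθ : ∀ x, θ (θ x) = -(3 • x)) (h3 : ∀ x : X, 3 • x = 0)
    (hdis : ∀ x y : X, ρ x = θ (ρ y) → x = 0) (hfin : Finite θ.ker) :
    Finite X ∧ Nat.card X ≤ Nat.card θ.ker := by
  obtain ⟨ψ, hψ⟩ : ∃ ψ : X →+ H, ψ = θ.comp ρ := ⟨_, rfl⟩
  have hr : ∀ y : ψ.range, θ y.1 = 0 := by
    rintro ⟨_, x, rfl⟩
    rw [hψ]
    show θ (θ (ρ x)) = 0
    rw [hθ, ← map_nsmul, h3, map_zero, neg_zero]
  have hk : ∀ x : ψ.ker, θ (ρ x.1) = 0 := by
    rintro ⟨x, hx⟩
    have h1 : ψ x = 0 := hx
    rw [hψ] at h1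
    exact h1
  let F : ψ.range × ψ.ker → θ.ker := fun z =>
    ⟨z.1.1 + ρ z.2.1, by
      show θ (z.1.1 + ρ z.2.1) = 0
      rw [map_add, hr, hk, add_zero]⟩
  have hF : Function.Injective F := by
    rintro ⟨⟨_, y, rfl⟩, x, hx⟩ ⟨⟨_, y', rfl⟩, x', hx'⟩ h
    have h1 : ψ y + ρ x = ψ y' + ρ x' := congrArg Subtype.val h
    have h2 : ρ (x - x') = θ (ρ (y' - y)) := by
      have h4 : ψ (y' - y) = θ (ρ (y' - y)) := by rw [hψ]; rfl
      rw [← h4, map_sub, map_sub]
      rw [sub_eq_sub_iff_add_eq_add, add_comm, h1]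
    have h3' := hdis _ _ h2
    have h4 : x = x' := sub_eq_zero.1 h3'
    subst h4
    have h5 : ψ y = ψ y' := add_right_cancel h1
    rw [Prod.mk.injEq]
    exact ⟨Subtype.ext h5, rfl⟩
  have f1 : Finite ψ.range := Finite.of_injective (fun y => F (y, 0)) fun y y' h =>
    (Prod.mk.inj (hF h)).1
  have f2 : Finite ψ.ker := Finite.of_injective (fun x => F (0, x)) fun y y' h =>
    (Prod.mk.inj (hF h)).2
  refine ⟨fin_ker_range ψ f1 f2, ?_⟩
  rw [card_ker_range ψ, ← Nat.card_prod]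
  exact Nat.card_le_card_of_injective F hF

end Pool.Agent.QS543
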