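import Pool.Agent.QS543.Alg
import Pool.Agent.Y696.XL.Rk

/-!
# Project QS (helper543): the torsion of the locally trivial classes over `ℚ(ω)` killed by `√-3` and the
Selmer characters
-/

set_option autoImplicit false
set_option linter.unusedVariables false
set_option linter.unusedSectionVars false

open scoped Classical

namespace Pool.Agent.QS543

open WeierstrassCurve
open Pool.Agent.Y692.QS (Ei w nr toC)
open Pool.Agent.Y715.T.Gi Pool.Agent.Y715.T.Nr Pool.Agent.Y715.T.Df Pool.Agent.Y715.T.Ell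
open Pool.Agent.Y703.CT
open Pool.Agent.Y155.CT
open Pool.Agent.XL6 (SelH quot_map)

variable {i₀ : QB} (hi : i₀ ^ 2 + i₀ + 1 = 0) (a : GK i₀ → ZMod 3)
  (ha : ∀ σ τ, a (σ * τ) = a σ + a τ) (hc : IsLocallyConstant a)

/-- the coboundary map -/
noncomputable def dl : Pt QB →+ (GK i₀ → Pt QB) where
  toFun P := fun σ => ah hi a σ P - P
  map_zero' := by
    funext σ
    show ah hi a σ 0 - 0 = 0
    rw [map_zero, sub_zero]
  map_add' := fun P Q => by
    funext σ
    show ah hi a σ (P + Q) - (P + Q) = ah hi a σ P - P + (ah hi a σ Q - Q)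
    rw [map_add]
    abel

include ha hc in
lemma co_dl (P : Pt QB) : Co hi a (dl hi a P) := co_cob ha hc P

/-- the group of the locally trivial cocycles -/
noncomputable def ZG : AddSubgroup (GK i₀ → Pt QB) where
  carrier := {f | Co hi a f}
  zero_mem' := by
    have h := co_cob (hi := hi) ha hc 0
    have e : (fun σ => ah hi a σ 0 - 0 : GK i₀ → Pt QB) = 0 := by
      funext σ
      rw [map_zero, sub_zero]
      rfl
    rw [e] at h
    exact h
  neg_mem' := by
    intro f hf
    have h := co_cob (hi := hi) ha hc 0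
    have h1 : Co hi a (fun σ => (ah hi a σ 0 - 0) - f σ) := h.sub hf
    have e : (fun σ => (ah hi a σ 0 - 0) - f σ : GK i₀ → Pt QB) = -f := by
      funext σ
      rw [map_zero, sub_zero, zero_sub]
      rfl
    rw [e] at h1
    exact h1
  add_mem' := by
    intro f g hf hg
    have h := co_cob (hi := hi) ha hc 0
    have h1 : Co hi a (fun σ => (ah hi a σ 0 - 0) - g σ) := h.sub hg
    have h2 := hf.sub h1
    have e : (fun σ => f σ - ((ah hi a σ 0 - 0) - g σ) : GK i₀ → Pt QB) = f + g := by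
      funext σ
      rw [map_zero, sub_zero, zero_sub, sub_neg_eq_add]
      rfl
    rw [e] at h2
    exact h2

lemma mem_ZG {f : GK i₀ → Pt QB} : f ∈ ZG hi a ha hc ↔ Co hi a f := Iff.rfl

/-- the coboundaries -/
noncomputable def BG : AddSubgroup (ZG hi a ha hc) :=
  (dl hi a).range.addSubgroupOf (ZG hi a ha hc)

/-- the group of the locally trivial classes -/
abbrev HG : Type := ZG hi a ha hc ⧸ BG hi a ha hc

/-- `√-3 = ω - ω²` on the points -/
noncomputable def th : Pt QB →+ Pt QB := dd hi - (dd hi).comp (dd hi)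

lemma th_apply (P : Pt QB) : th hi P = dd hi P - dd hi (dd hi P) := rfl

lemma th_im (P : Pt QB) : th hi P = im (isE QB) hi (dd hi P) := by
  rw [th_apply, dd_apply hi (dd hi P)]
  abel

lemma dd_im (P : Pt QB) : dd hi (im (isE QB) hi P) = im (isE QB) hi (dd hi P) := by
  rw [dd_apply, dd_apply, map_sub]

lemma th_th (P : Pt QB) : th hi (th hi P) = -(3 • P) := by
  rw [th_im, th_im, dd_im, dd_dd, map_neg, map_neg, im3]

lemma ah_th (σ : GK i₀) (P : Pt QB) : ah hi a σ (th hi P) = th hi (ah hi a σ P) := by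
  rw [th_apply, map_sub, ah_dd, ah_dd, ah_dd, th_apply]

variable {hi a} in
lemma co_th {f : GK i₀ → Pt QB} (hf : Co hi a f) : Co hi a (fun σ => th hi (f σ)) :=
  hf.dd.sub hf.dd.dd

/-- `√-3` on the cocycles -/
noncomputable def thZ : ZG hi a ha hc →+ ZG hi a ha hc where
  toFun f := ⟨fun σ => th hi (f.1 σ), co_th f.2⟩
  map_zero' := by
    apply Subtype.ext
    funext σ
    exact map_zero (th hi)
  map_add' := fun f g => by
    apply Subtype.ext
    funext σ
    exact map_add (th hi) _ _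

/-- `√-3` on the classes -/
noncomputable def thH : HG hi a ha hc →+ HG hi a ha hc :=
  QuotientAddGroup.map _ _ (thZ hi a ha hc) (by
    intro f hf
    obtain ⟨P, hP⟩ := hf
    refine ⟨th hi P, ?_⟩
    have h1 : ∀ σ, ah hi a σ P - P = f.1 σ := fun σ => congrFun hP σ
    funext σ
    show ah hi a σ (th hi P) - th hi P = th hi (f.1 σ)
    rw [← h1, map_sub, ah_th])

lemma thH_mk (f : ZG hi a ha hc) :
    thH hi a ha hc (QuotientAddGroup.mk f) = QuotientAddGroup.mk (thZ hi a ha hc f) := rfl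

lemma mk_eq_zero {f : ZG hi a ha hc} :
    (QuotientAddGroup.mk f : HG hi a ha hc) = 0 ↔ ∃ P, ∀ σ, f.1 σ = ah hi a σ P - P := by
  rw [QuotientAddGroup.eq_zero_iff]
  constructor
  · rintro ⟨P, hP⟩
    exact ⟨P, fun σ => (congrFun hP σ).symm⟩
  · rintro ⟨P, hP⟩
    exact ⟨P, funext fun σ => (hP σ).symm⟩

lemma thH_thH (x : HG hi a ha hc) : thH hi a ha hc (thH hi a ha hc x) = -(3 • x) := by
  obtain ⟨f, rfl⟩ := QuotientAddGroup.mk_surjective x
  rw [thH_mk, thH_mk, ← QuotientAddGroup.mk_nsmul, ← QuotientAddGroup.mk_neg]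
  congr 1
  apply Subtype.ext
  funext σ
  show th hi (th hi (f.1 σ)) = _
  rw [th_th]
  rfl

/-- the values in the group generated by `T` -/
noncomputable def tm (i₀ : QB) : (GK i₀ → ZMod 3) →+ (GK i₀ → Pt QB) where
  toFun h := fun σ => tt QB (h σ)
  map_zero' := by
    funext σ
    exact tt_zero
  map_add' := fun f g => by
    funext σ
    exact tt_add _ _

variable {hi a} in
/-- a function is a Selmer character iff the corresponding function with values in `⟨T⟩` is a locally
trivial cocycle -/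
lemma selH_iff {h : GK i₀ → ZMod 3} : h ∈ SelH hi a ↔ Co hi a (tm i₀ h) := by
  constructor
  · rintro ⟨h1, h2, h3⟩
    refine ⟨h1.comp (tt QB), fun σ τ => ?_, fun p _ ι => ?_⟩
    · show tt QB (h (σ * τ)) = tt QB (h σ) + ah hi a σ (tt QB (h τ))
      rw [ah_tt, h2, tt_add]
    · obtain ⟨R, hR⟩ := h3 p ι
      refine ⟨R, fun τ σ hcmp => ?_⟩
      show pm ι (tt QB (h σ)) = _
      rw [pm_tt]
      exact (hR τ σ hcmp).symm
  · intro hf
    have hcont : IsLocallyConstant h := by
      have e : h = (fun P : Pt QB =>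
          if hx : ∃ c : ZMod 3, P = tt QB c then hx.choose else 0) ∘ (tm i₀ h) := by
        ext1 σ
        show h σ = if hx : ∃ c : ZMod 3, tt QB (h σ) = tt QB c then hx.choose else 0
        have hx : ∃ c : ZMod 3, tt QB (h σ) = tt QB c := ⟨h σ, rfl⟩
        rw [dif_pos hx]
        exact tt_inj hx.choose_spec
      rw [e]
      exact hf.lc.comp _
    refine ⟨hcont, fun σ τ => ?_, fun p _ ι => ?_⟩
    · apply tt_inj (L := QB)
      have h1 := hf.co σ τ
      have h2 : tt QB (h (σ * τ)) = tt QB (h σ) + ah hi a σ (tt QB (h τ)) := h1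
      rw [h2, ah_tt, tt_add]
    · obtain ⟨R', hR'⟩ := hf.lo p ι
      refine ⟨R', fun τ σ hcmp => ?_⟩
      have h1 := hR' τ σ hcmp
      have h2 : pm ι (tt QB (h σ)) = jh (iota_sq' hi ι) (a σ) (pm (lh τ) R') - R' := h1
      rw [pm_tt] at h2
      exact h2.symm

/-- the group of the Selmer characters -/
noncomputable def SG : AddSubgroup (GK i₀ → ZMod 3) := (ZG hi a ha hc).comap (tm i₀)

lemma card_SG : Nat.card (SG hi a ha hc) = (SelH hi a).ncard := by
  rw [← Nat.card_coe_set_eq]
  have e : (SelH hi a) = (SG hi a ha hc : Set (GK i₀ → ZMod 3)) := by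
    ext h
    rw [selH_iff]
    rfl
  rw [e]
  rfl

/-- the class of a Selmer character -/
noncomputable def Ph0 : SG hi a ha hc →+ HG hi a ha hc where
  toFun h := QuotientAddGroup.mk ⟨tm i₀ h.1, h.2⟩
  map_zero' := by
    rw [QuotientAddGroup.eq_zero_iff]
    have e : (⟨tm i₀ (0 : SG hi a ha hc).1, (0 : SG hi a ha hc).2⟩ : ZG hi a ha hc) = 0 :=
      Subtype.ext (map_zero (tm i₀))
    rw [e]
    exact zero_mem _
  map_add' := fun f g => by
    rw [← QuotientAddGroup.mk_add]
    congr 1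
    exact Subtype.ext (map_add (tm i₀) _ _)

/-- the classes killed by `√-3` come from the Selmer characters -/
lemma ker_le_range : (thH hi a ha hc).ker ≤ (Ph0 hi a ha hc).range := by
  intro x hx
  obtain ⟨f, rfl⟩ := QuotientAddGroup.mk_surjective x
  have h1 : thH hi a ha hc (QuotientAddGroup.mk f) = 0 := hx
  rw [thH_mk, mk_eq_zero] at h1
  obtain ⟨P, hP⟩ := h1
  have h2 : ∀ σ, th hi (f.1 σ) = ah hi a σ P - P := hP
  -- `dd f` is a coboundary
  have h3 : ∀ σ, dd hi (f.1 σ) = ah hi a σ (im (isE QB) hi (im (isE QB) hi P)) -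
      im (isE QB) hi (im (isE QB) hi P) := by
    intro σ
    have h4 := h2 σ
    rw [th_im] at h4
    rw [ah_im, ah_im, ← map_sub, ← map_sub, ← h4, im3]
  obtain ⟨R, hR⟩ := dd_surj hi (im (isE QB) hi (im (isE QB) hi P))
  have hf2 : Co hi a (fun σ => f.1 σ - (ah hi a σ R - R)) := Co.sub f.2 (co_cob ha hc R)
  have h5 : ∀ σ, dd hi (f.1 σ - (ah hi a σ R - R)) = 0 := by
    intro σ
    rw [map_sub, h3, map_sub, ← ah_dd, hR, sub_self]
  have hex : ∀ σ, ∃ c : ZMod 3, f.1 σ - (ah hi a σ R - R) = tt QB c := fun σ => dd_ker hi (h5 σ)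
  choose h hh using hex
  have e : tm i₀ h = fun σ => f.1 σ - (ah hi a σ R - R) := funext fun σ => (hh σ).symm
  have hmem : Co hi a (tm i₀ h) := by rw [e]; exact hf2
  refine ⟨⟨h, hmem⟩, ?_⟩
  show QuotientAddGroup.mk _ = QuotientAddGroup.mk f
  rw [← sub_eq_zero, ← QuotientAddGroup.mk_sub, mk_eq_zero]
  refine ⟨-R, fun σ => ?_⟩
  show tt QB (h σ) - f.1 σ = _
  rw [← hh σ, map_neg]
  abel

/-- the characters of the points over `ℚ(ω)` -/
def KG : Set (GK i₀ → ZMod 3) := {h | ∃ R : Pt QB, ∀ σ, tt QB (h σ) = ah hi a σ R - R}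

lemma card_ker : Nat.card (Ph0 hi a ha hc).ker = (KG hi a).ncard := by
  rw [← Nat.card_coe_set_eq]
  have h1 : ∀ h : SG hi a ha hc, Ph0 hi a ha hc h = 0 ↔ h.1 ∈ KG hi a := fun h =>
    mk_eq_zero hi a ha hc (f := ⟨tm i₀ h.1, h.2⟩)
  have h2 : ∀ h : GK i₀ → ZMod 3, h ∈ KG hi a → h ∈ SG hi a ha hc := by
    rintro h ⟨R, hR⟩
    have h3 := co_cob (hi := hi) ha hc R
    have e : tm i₀ h = fun σ => ah hi a σ R - R := funext hR
    show Co hi a (tm i₀ h)
    rw [e]
    exact h3
  exact Nat.card_congr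
    { toFun := fun x => ⟨x.1.1, (h1 x.1).1 x.2⟩
      invFun := fun y => ⟨⟨y.1, h2 y.1 y.2⟩, (h1 _).2 y.2⟩
      left_inv := fun x => rfl
      right_inv := fun y => rfl }

/-- **the classes killed by `√-3`** -/
theorem card_thH (hfin : (SelH hi a).Finite) : Finite (thH hi a ha hc).ker ∧
    Nat.card (thH hi a ha hc).ker * (KG hi a).ncard ≤ (SelH hi a).ncard := by
  have hne : (SelH hi a).ncard ≠ 0 := by
    apply (Set.ncard_pos hfin).2 ?_ |>.ne'
    refine ⟨0, ?_⟩
    rw [selH_iff, map_zero]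
    exact (ZG hi a ha hc).zero_mem
  have hS : Finite (SG hi a ha hc) := by
    apply Nat.finite_of_card_ne_zero
    rw [card_SG]
    exact hne
  have hR : Finite (Ph0 hi a ha hc).range :=
    Finite.of_surjective (Ph0 hi a ha hc).rangeRestrict (AddMonoidHom.rangeRestrict_surjective _)
  have hinj := AddSubgroup.inclusion_injective (ker_le_range hi a ha hc)
  refine ⟨Finite.of_injective _ hinj, ?_⟩
  rw [← card_SG hi a ha hc, card_ker_range (Ph0 hi a ha hc), card_ker]
  exact Nat.mul_le_mul_right _ (Nat.card_le_card_of_injective _ hinj)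

end Pool.Agent.QS543
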