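import Pool.Agent.QS543.RatG
import Pool.Agent.QL543.Ar5

/-!
# Project QS (helper543): the curves `y² + D y = x³` and `y² = x³ - 432 D²`
-/

set_option autoImplicit false
set_option linter.unusedVariables false
set_option linter.unusedSectionVars false

open scoped Classical

namespace Pool.Agent.QS543

open WeierstrassCurve
open Pool.Agent.Y692.QS (Ei w nr toC)
open Pool.Agent.Y715.T.Gi Pool.Agent.Y715.T.Nr Pool.Agent.Y715.T.Df Pool.Agent.Y715.T.Ell
open Pool.Agent.Y703.CT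
open Pool.Agent.Y155.CT (ah ah_apply dd Co ah_im ah_dd im3 dd_apply)
open Pool.Agent.Y692.CT
open Pool.Agent.Y700 (VR)
open Pool.Agent.QL543 (WF)

section E

variable {D : ℤ} (hD : D ≠ 0) {i₀ : QB} (hi : i₀ ^ 2 + i₀ + 1 = 0) {u : QB} (hu : u ^ 3 = D)
  {a : GK i₀ → ZMod 3} (hau : ∀ σ : GK i₀, σ u = i₀ ^ (-a σ).val * u)

/-! ### the rotation on the curve `y² + D y = x³` -/

/-- `(X, Y) ↦ (ω X, Y)` -/
noncomputable def om : PD D QB →+ PD D QB :=
  ((Ph hD hu).toAddMonoidHom.comp (im (isE QB) hi)).comp (Ph hD hu).symm.toAddMonoidHom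

lemma om_apply (Q : PD D QB) : om hD hi hu Q = Ph hD hu (im (isE QB) hi ((Ph hD hu).symm Q)) := rfl

lemma om_some {X Y : QB} (h : ((EQ (WD D)).baseChange QB).toAffine.Nonsingular X Y) :
    ∃ h', om hD hi hu (.some X Y h) = .some (i₀ * X) Y h' := by
  obtain ⟨P, hP⟩ : ∃ P, P = (Ph hD hu).symm (.some X Y h) := ⟨_, rfl⟩
  have hP' : Ph hD hu P = .some X Y h := by rw [hP, AddEquiv.apply_symm_apply]
  rw [om_apply, ← hP]
  rcases P with _ | ⟨x, y, hn⟩
  · exfalso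
    have h1 : Ph hD hu 0 = .some X Y h := hP'
    rw [map_zero] at h1
    exact absurd h1.symm (Affine.Point.some_ne_zero h)
  · rw [Ph_some] at hP'
    obtain ⟨e1, e2⟩ := (Affine.Point.some.injEq ..).mp hP'
    rw [im_some, Ph_some]
    have e3 : u ^ 2 * (i₀ * x) = i₀ * X := by rw [← e1]; ring
    have h2 : ((EQ (WD D)).baseChange QB).toAffine.Nonsingular (u ^ 2 * (i₀ * x)) (D * y) :=
      Ph_nons hD hu ((isE QB).im_nons hi hn)
    have h3 : ((EQ (WD D)).baseChange QB).toAffine.Nonsingular (i₀ * X) Y := by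
      rw [e3, e2] at h2
      exact h2
    exact ⟨h3, pt_ext _ _ e3 e2⟩

lemma om3 (Q : PD D QB) : om hD hi hu (om hD hi hu (om hD hi hu Q)) = Q := by
  rw [om_apply, om_apply, om_apply, AddEquiv.symm_apply_apply, AddEquiv.symm_apply_apply, im3,
    AddEquiv.apply_symm_apply]

lemma ac_om {c : QB ≃ₐ[ℚ] QB} (hcc : c i₀ = -1 - i₀) (Q : PD D QB) :
    ac D c.toAlgHom (om hD hi hu Q) = om hD hi hu (om hD hi hu (ac D c.toAlgHom Q)) := by
  rcases Q with _ | ⟨X, Y, h⟩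
  · show ac D c.toAlgHom (om hD hi hu 0) = om hD hi hu (om hD hi hu (ac D c.toAlgHom 0))
    simp only [map_zero]
  · obtain ⟨h1, e1⟩ := om_some hD hi hu h
    rw [e1, ac_some, ac_some]
    obtain ⟨h2, e2⟩ := om_some hD hi hu
      ((Affine.baseChange_nonsingular (EQ (WD D)) c.toAlgHom.injective ..).mpr h)
    rw [e2]
    obtain ⟨h3, e3⟩ := om_some hD hi hu h2
    rw [e3]
    refine pt_ext _ _ ?_ rfl
    rw [map_mul]
    have h4 : c.toAlgHom i₀ = -1 - i₀ := hcc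
    rw [h4]
    linear_combination (-(c.toAlgHom X)) * hi

/-- `√-3` -/
noncomputable def Th : PD D QB →+ PD D QB :=
  ((Ph hD hu).toAddMonoidHom.comp (th hi)).comp (Ph hD hu).symm.toAddMonoidHom

lemma Th_apply (Q : PD D QB) : Th hD hi hu Q = Ph hD hu (th hi ((Ph hD hu).symm Q)) := rfl

lemma Th_Ph (P : Pt QB) : Th hD hi hu (Ph hD hu P) = Ph hD hu (th hi P) := by
  rw [Th_apply, AddEquiv.symm_apply_apply]

lemma Th_om (Q : PD D QB) : Th hD hi hu Q = om hD hi hu Q - om hD hi hu (om hD hi hu Q) := by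
  rw [Th_apply, om_apply, om_apply, AddEquiv.symm_apply_apply, ← map_sub]
  congr 1
  rw [th_apply, dd_apply, dd_apply, map_sub]
  abel

lemma ac_Th {c : QB ≃ₐ[ℚ] QB} (hcc : c i₀ = -1 - i₀) (Q : PD D QB) :
    ac D c.toAlgHom (Th hD hi hu Q) = -Th hD hi hu (ac D c.toAlgHom Q) := by
  rw [Th_om, Th_om, map_sub, ac_om hD hi hu hcc, ac_om hD hi hu hcc, ac_om hD hi hu hcc,
    om3]
  abel

/-- the curve `y² + D y = x³` -/
noncomputable def twE : TwF (EQ (WD D)) hi a where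
  Φ := Ph hD hu
  act := fun σ P => act_Ph hD hi hu hau σ P
  cth := fun c hcc P => by
    have h := ac_Th hD hi hu hcc (Ph hD hu P)
    rw [Th_Ph, Th_apply] at h
    exact h
  loc := fun p _ ι => by
    have hv : (ι u) ^ 3 = (D : PadicAlgCl p) := by rw [← map_pow, hu, map_intCast]
    exact ⟨Ph hD hv, fun P => (ac_Ph hD hv ι hu rfl P).symm, fun τ σ hcmp R =>
      act_Ph_loc hD hi hau ι hv hcmp R⟩

end E

section C

variable {D : ℤ} (hD : D ≠ 0) {L : Type} [Field L] [Algebra ℚ L] [CharZero L] {z : L}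
  (hz : z ^ 2 + z + 1 = 0)

include hD in
lemma EQ_delta : (EQ (WD D)).Δ ≠ 0 := by
  have h : (EQ (WD D)).Δ = -27 * (D : ℚ) ^ 4 := by
    unfold EQ WD WeierstrassCurve.Δ WeierstrassCurve.b₂ WeierstrassCurve.b₄
      WeierstrassCurve.b₆ WeierstrassCurve.b₈ WeierstrassCurve.map
    simp
    ring
  rw [h]
  exact mul_ne_zero (by norm_num) (pow_ne_zero _ (Int.cast_ne_zero.2 hD))

include hD hz in
lemma vrC : VR ((WF (D : ℚ)).map (algebraMap ℚ L)) ((EQ (WD D)).map (algebraMap ℚ L))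
    (2 * (z - z ^ 2)) 0 0 (-12 * (z - z ^ 2) * D) where
  u0 := by
    intro h
    have h1 := Pool.Agent.QL543.lam_sq hz
    have h2 : z - z ^ 2 = 0 := by
      rcases mul_eq_zero.1 h with h3 | h3
      · norm_num at h3
      · exact h3
    rw [h2] at h1
    norm_num at h1
  e1 := by simp [WF, WD]
  e2 := by simp [WF, WD]
  e3 := by
    simp [WF, WD]
    linear_combination (8 * (z - z ^ 2) * (D : L)) * Pool.Agent.QL543.lam_sq hz
  e4 := by simp [WF, WD]
  e6 := by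
    simp [WF, WD]
    linear_combination (144 * (D : L) ^ 2) * Pool.Agent.QL543.lam_sq hz

/-- the isomorphism over `ℚ(ω)` -/
noncomputable def Ps : PD D L ≃+ WP (WF (D : ℚ)) L :=
  (vrC hD hz).equiv (Pool.Agent.Y700.dL (EQ_delta hD) L)

include hD hz in
lemma Ps_nons {X Y : L} (h : ((EQ (WD D)).baseChange L).toAffine.Nonsingular X Y) :
    ((WF (D : ℚ)).baseChange L).toAffine.Nonsingular (-12 * X) (-12 * (z - z ^ 2) * (2 * Y + D)) := by
  have h1 := Pool.Agent.Y700.nonsing ((vrC hD hz).delta_ne (Pool.Agent.Y700.dL (EQ_delta hD) L))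
    ((vrC hD hz).eqn.2 h.1)
  have e1 : (2 * (z - z ^ 2)) ^ 2 * X + 0 = -12 * X := by
    linear_combination (4 * X) * Pool.Agent.QL543.lam_sq hz
  have e2 : (2 * (z - z ^ 2)) ^ 3 * Y + (2 * (z - z ^ 2)) ^ 2 * 0 * X + -12 * (z - z ^ 2) * D =
      -12 * (z - z ^ 2) * (2 * Y + D) := by
    linear_combination (8 * (z - z ^ 2) * Y) * Pool.Agent.QL543.lam_sq hz
  rwa [e1, e2] at h1

lemma Ps_some {X Y : L} (h : ((EQ (WD D)).baseChange L).toAffine.Nonsingular X Y) :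
    Ps hD hz (.some X Y h) =
      .some (-12 * X) (-12 * (z - z ^ 2) * (2 * Y + D)) (Ps_nons hD hz h) := by
  have h1 : Ps hD hz (.some X Y h) = .some ((2 * (z - z ^ 2)) ^ 2 * X + 0)
    ((2 * (z - z ^ 2)) ^ 3 * Y + (2 * (z - z ^ 2)) ^ 2 * 0 * X + -12 * (z - z ^ 2) * D)
    (Pool.Agent.Y700.nonsing ((vrC hD hz).delta_ne (Pool.Agent.Y700.dL (EQ_delta hD) L))
      ((vrC hD hz).eqn.2 h.1)) := rfl
  refine h1.trans (pt_ext _ _ ?_ ?_)
  · linear_combination (4 * X) * Pool.Agent.QL543.lam_sq hz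
  · linear_combination (8 * (z - z ^ 2) * Y) * Pool.Agent.QL543.lam_sq hz

lemma wa_some {W : WeierstrassCurve ℚ} {F M : Type} [Field F] [Algebra ℚ F] [Field M] [Algebra ℚ M]
    (φ : F →ₐ[ℚ] M) {x y : F} (h : (W.baseChange F).toAffine.Nonsingular x y) :
    wa W φ (.some x y h) =
      .some (φ x) (φ y) ((Affine.baseChange_nonsingular W φ.injective ..).mpr h) := rfl

lemma wa_Ps {F : Type} [Field F] [Algebra ℚ F] [CharZero F] (φ : F →ₐ[ℚ] L) {z' : F}
    (hz' : z' ^ 2 + z' + 1 = 0) (h : φ z' = z) (Q : PD D F) :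
    wa (WF (D : ℚ)) φ (Ps hD hz' Q) = Ps hD hz (ac D φ Q) := by
  rcases Q with _ | ⟨X, Y, hn⟩
  · show wa (WF (D : ℚ)) φ (Ps hD hz' 0) = Ps hD hz (ac D φ 0)
    simp only [map_zero]
  · rw [ac_some, Ps_some, Ps_some, wa_some]
    refine pt_ext _ _ ?_ ?_
    · rw [map_mul, map_neg, map_ofNat]
    · simp only [map_mul, map_neg, map_ofNat, map_sub, map_pow, map_add, map_intCast, h]

lemma wa_Ps_neg {F : Type} [Field F] [Algebra ℚ F] [CharZero F] (φ : F →ₐ[ℚ] L) {z' : F}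
    (hz' : z' ^ 2 + z' + 1 = 0) (h : φ z' = -1 - z) (Q : PD D F) :
    wa (WF (D : ℚ)) φ (Ps hD hz' Q) = -Ps hD hz (ac D φ Q) := by
  rcases Q with _ | ⟨X, Y, hn⟩
  · show wa (WF (D : ℚ)) φ (Ps hD hz' 0) = -Ps hD hz (ac D φ 0)
    simp only [map_zero, neg_zero]
  · rw [ac_some, Ps_some, Ps_some, wa_some, Affine.Point.neg_some]
    refine pt_ext _ _ ?_ ?_
    · rw [map_mul, map_neg, map_ofNat]
    · have h4 : ∀ x y : L, ((WF (D : ℚ)).baseChange L).toAffine.negY x y = -y := by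
        intro x y
        unfold Affine.negY
        simp [WF]
      rw [h4]
      simp only [map_mul, map_neg, map_ofNat, map_sub, map_pow, map_add, map_intCast, h]
      linear_combination (24 * (2 * φ Y + (D : L))) * hz

end C

section C2

variable {D : ℤ} (hD : D ≠ 0) {i₀ : QB} (hi : i₀ ^ 2 + i₀ + 1 = 0) {u : QB} (hu : u ^ 3 = D)
  {a : GK i₀ → ZMod 3} (hau : ∀ σ : GK i₀, σ u = i₀ ^ (-a σ).val * u)

/-- the curve `y² = x³ - 432 D²` -/
noncomputable def twC : TwF (WF (D : ℚ)) hi a where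
  Φ := (Ph hD hu).trans (Ps hD hi)
  act := fun σ P => by
    show wa (WF (D : ℚ)) (gh σ) (Ps hD hi (Ph hD hu P)) = Ps hD hi (Ph hD hu _)
    rw [wa_Ps hD hi (gh σ) hi (gk_fix σ), act_Ph hD hi hu hau]
  cth := fun c hcc P => by
    have h := ac_Th hD hi hu hcc (Ph hD hu P)
    rw [Th_Ph, Th_apply] at h
    show wa (WF (D : ℚ)) c.toAlgHom (Ps hD hi (Ph hD hu (th hi P))) =
      -Ps hD hi (Ph hD hu (th hi ((Ph hD hu).symm ((Ps hD hi).symm
        (wa (WF (D : ℚ)) c.toAlgHom (Ps hD hi (Ph hD hu P)))))))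
    rw [wa_Ps_neg hD hi c.toAlgHom hi hcc, wa_Ps_neg hD hi c.toAlgHom hi hcc, h, map_neg, map_neg,
      AddEquiv.symm_apply_apply, map_neg, map_neg, map_neg, map_neg]
  loc := fun p _ ι => by
    have hv : (ι u) ^ 3 = (D : PadicAlgCl p) := by rw [← map_pow, hu, map_intCast]
    refine ⟨(Ph hD hv).trans (Ps hD (iota_sq' hi ι)), fun P => ?_, fun τ σ hcmp R => ?_⟩
    · show Ps hD (iota_sq' hi ι) (Ph hD hv (pm ι P)) = wa (WF (D : ℚ)) ι (Ps hD hi (Ph hD hu P))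
      rw [wa_Ps hD (iota_sq' hi ι) ι hi rfl, ac_Ph hD hv ι hu rfl]
    · show wa (WF (D : ℚ)) (lh τ) (Ps hD (iota_sq' hi ι) (Ph hD hv R)) =
        Ps hD (iota_sq' hi ι) (Ph hD hv _)
      rw [wa_Ps hD (iota_sq' hi ι) (lh τ) (iota_sq' hi ι) hcmp.fix,
        act_Ph_loc hD hi hau ι hv hcmp]

end C2

end Pool.Agent.QS543
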