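import Pool.Agent.QL543.Ar2
import Pool.Agent.Y737.CT.OddEven

/-!
# Project QS (helper543): the number of the odd kernel vectors

Adapted from `Y737/CT/Lin.lean`, `Y737/CT/OddEven.lean` (helper737).
-/

set_option autoImplicit false
set_option linter.unusedSectionVars false
set_option linter.unusedVariables false

namespace Pool.Agent.QS543

open Finset
open Pool.Agent.Y405.CT (Lp sum_split Lp_sigma)
open Pool.Agent.Y737.CT (Lp_sum)
open Pool.Agent.QL543 (ker_transpose_card Spl)

section lin

variable {J : Type} [Fintype J] {m : J → J → ZMod 3} {σ : J → J} {q : J}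

/-- the number of the even kernel vectors and the number of the odd ones -/
theorem odd_count (hσ : ∀ j, σ (σ j) = j) (hq : ∀ j, σ j = j ↔ j = q)
    (hs : ∀ i j, m i j = m j i) (ha : ∀ i j, m (σ i) (σ j) = - m i j) :
    {v : J → ZMod 3 | (∀ j, Lp m v j = 0) ∧ ∀ j, v (σ j) = v j}.ncard ≤
      3 * {v : J → ZMod 3 | (∀ j, Lp m v j = 0) ∧ ∀ j, v (σ j) = -v j}.ncard := by
  classical
  obtain ⟨f, hf⟩ : ∃ f : J → ℕ, Function.Injective f :=
    ⟨fun j => (Fintype.equivFin J j : ℕ), fun a b h => (Fintype.equivFin J).injective (Fin.ext h)⟩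
  have hqq : σ q = q := (hq q).2 rfl
  have h3 : ∀ x : ZMod 3, x = -x → x = 0 := by decide
  -- the matrix
  set S := {j // f j < f (σ j)}
  let dg : S → ZMod 3 := fun p => ∑ l : S, (m p l + m p (σ l)) + m p q
  let N : Matrix S S (ZMod 3) := fun p l => m p l + m p (σ l) - (if p = l then dg p else 0)
  have hev : ∀ (x : S → ZMod 3) (X : J → ZMod 3), (∀ s : S, X s = x s) →
      (∀ j, X (σ j) = X j) → X q = 0 → ∀ p : S, Lp m X p = (N.mulVec x) p := by
    intro x X h1 h2 h4 p
    unfold Lp
    rw [sum_split σ q hσ hq f hf]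
    have e1 : (N.mulVec x) p = ∑ l : S, (m p l + m p (σ l)) * x l - dg p * x p := by
      show ∑ l : S, N p l * x l = _
      have : ∀ l : S, N p l * x l = (m p l + m p (σ l)) * x l - (if p = l then dg p * x l else 0) := by
        intro l
        show (m p l + m p (σ l) - (if p = l then dg p else 0)) * x l = _
        split_ifs <;> ring
      rw [sum_congr rfl fun l _ => this l, sum_sub_distrib, sum_ite_eq]
      simp
    rw [e1]
    have e2 : ∀ s : S, m p s * (X s - X p) + m p (σ s) * (X (σ s) - X p) =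
        (m p s + m p (σ s)) * x s - (m p s + m p (σ s)) * x p := by
      intro s
      rw [h2, h1, h1]
      ring
    rw [sum_congr rfl fun s _ => e2 s, sum_sub_distrib, ← sum_mul, h4, h1]
    show _ = _ - (∑ l : S, (m p l + m p (σ l)) + m p q) * x p
    ring
  have hod : ∀ w : J → ZMod 3, (∀ j, w (σ j) = -w j) →
      ∀ p : S, Lp m w p = (N.transpose.mulVec (fun s : S => w s)) p := by
    intro w hwo p
    unfold Lp
    rw [sum_split σ q hσ hq f hf]
    have hwq : w q = 0 := by
      apply h3
      have := hwo q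
      rwa [hqq] at this
    have e1 : (N.transpose.mulVec (fun s : S => w s)) p =
        ∑ l : S, (m l p + m l (σ p)) * w l - dg p * w p := by
      show ∑ l : S, N l p * w l = _
      have : ∀ l : S, N l p * w l = (m l p + m l (σ p)) * w l - (if p = l then dg p * w l else 0) := by
        intro l
        show (m l p + m l (σ p) - (if l = p then dg l else 0)) * w l = _
        by_cases h : l = p
        · subst h
          simp only [if_true]
          ring
        · rw [if_neg h, if_neg (fun h' => h h'.symm)]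
          ring
      rw [sum_congr rfl fun l _ => this l, sum_sub_distrib, sum_ite_eq]
      simp
    rw [e1]
    have e2 : ∀ s : S, m p s * (w s - w p) + m p (σ s) * (w (σ s) - w p) =
        (m s p + m s (σ p)) * w s - (m p s + m p (σ s)) * w p := by
      intro s
      have e3 : m s (σ p) = - m p (σ s) := by
        have := ha p (σ s)
        rw [hσ] at this
        rw [hs s (σ p), this]
      rw [hwo, e3, hs s p]
      ring
    rw [sum_congr rfl fun s _ => e2 s, sum_sub_distrib, ← sum_mul, hwq]
    show _ = _ - (∑ l : S, (m p l + m p (σ l)) + m p q) * w p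
    ring
  -- a function is known on `S`, its image and `q`
  have hcase : ∀ j, f j < f (σ j) ∨ f (σ j) < f (σ (σ j)) ∨ j = q := by
    intro j
    rw [hσ]
    rcases lt_trichotomy (f j) (f (σ j)) with h | h | h
    · exact Or.inl h
    · exact Or.inr (Or.inr ((hq j).1 (hf h.symm)))
    · exact Or.inr (Or.inl h)
  obtain ⟨EV, hEV⟩ : ∃ EV, EV = {v : J → ZMod 3 | (∀ j, Lp m v j = 0) ∧ ∀ j, v (σ j) = v j} :=
    ⟨_, rfl⟩
  obtain ⟨OV, hOV⟩ : ∃ OV, OV = {v : J → ZMod 3 | (∀ j, Lp m v j = 0) ∧ ∀ j, v (σ j) = -v j} :=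
    ⟨_, rfl⟩
  rw [← hEV, ← hOV]
  -- the even ones
  have a3 : EV.ncard ≤ 3 * {x : S → ZMod 3 | N.mulVec x = 0}.ncard := by
    have e0 : (Set.univ : Set (ZMod 3)).ncard = 3 := by
      rw [Set.ncard_univ, Nat.card_zmod]
    have e00 : 3 * {x : S → ZMod 3 | N.mulVec x = 0}.ncard =
        ((Set.univ : Set (ZMod 3)) ×ˢ {x : S → ZMod 3 | N.mulVec x = 0}).ncard := by
      rw [Set.ncard_prod, e0]
    rw [e00]
    refine Set.ncard_le_ncard_of_injOn
      (fun v : J → ZMod 3 => (v q, fun s : S => v s - v q)) ?_ ?_ (Set.toFinite _)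
    · intro v hv
      rw [hEV] at hv
      refine ⟨Set.mem_univ _, ?_⟩
      show N.mulVec (fun s : S => v s - v q) = 0
      funext p
      rw [← hev (fun s => v s - v q) (fun j => v j - v q) (fun _ => rfl)
        (fun j => by show v (σ j) - v q = v j - v q; rw [hv.2]) (sub_self _) p]
      have : Lp m (fun j => v j - v q) p = Lp m v p := by
        unfold Lp
        exact sum_congr rfl fun i _ => by ring
      rw [this, hv.1]
      rfl
    · intro v hv v' hv' h
      rw [hEV] at hv hv'
      rw [Prod.mk.injEq] at h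
      have h1 : v q = v' q := h.1
      have h2 : ∀ s : S, v s = v' s := fun s => by
        have h4 : v s - v q = v' s - v' q := congrFun h.2 s
        rw [h1] at h4
        exact sub_left_injective h4
      funext j
      rcases hcase j with h4 | h4 | h4
      · exact h2 ⟨j, h4⟩
      · have h5 : v (σ j) = v' (σ j) := h2 ⟨σ j, h4⟩
        rw [hv.2, hv'.2] at h5
        exact h5
      · rw [h4, h1]
  -- the odd ones
  have a2 : {x : S → ZMod 3 | N.transpose.mulVec x = 0}.ncard ≤ OV.ncard := by
    have hWex : ∀ y : S → ZMod 3, ∃ W : J → ZMod 3, (∀ s : S, W s = y s) ∧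
        (N.transpose.mulVec y = 0 → W ∈ OV) := by
      intro y
      let W : J → ZMod 3 := fun j => if h : f j < f (σ j) then y ⟨j, h⟩ else
        if h : f (σ j) < f (σ (σ j)) then -y ⟨σ j, h⟩ else 0
      have hW1 : ∀ s : S, W s = y s := fun s => by
        show (if h : f s < f (σ s) then y ⟨s, h⟩ else _) = _
        rw [dif_pos s.2]
      have hW2 : ∀ j, W (σ j) = -W j := by
        intro j
        show (if h : f (σ j) < f (σ (σ j)) then y ⟨σ j, h⟩ else
          if h : f (σ (σ j)) < f (σ (σ (σ j))) then -y ⟨σ (σ j), h⟩ else 0) =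
          -(if h : f j < f (σ j) then y ⟨j, h⟩ else
          if h : f (σ j) < f (σ (σ j)) then -y ⟨σ j, h⟩ else 0)
        simp only [hσ]
        by_cases h1 : f j < f (σ j)
        · have h2 : ¬ f (σ j) < f j := by omega
          simp [h1, h2]
        · by_cases h2 : f (σ j) < f j
          · simp [h1, h2]
          · simp [h1, h2]
      refine ⟨W, hW1, fun hy => ?_⟩
      have hWS : ∀ p : S, Lp m W p = 0 := fun p => by
        rw [hod W hW2 p]
        have : (fun s : S => W s) = y := funext hW1
        rw [this, hy]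
        rfl
      have hWe : ∀ j, Lp m W (σ j) = Lp m W j := fun j => by
        have h1 := Lp_sigma hσ ha W j
        have h2 : Lp m (fun i => W (σ i)) j = -Lp m W j := by
          unfold Lp
          rw [← sum_neg_distrib]
          refine sum_congr rfl fun i _ => ?_
          show m j i * (W (σ i) - W (σ j)) = _
          rw [hW2, hW2]
          ring
        rw [h2] at h1
        exact (neg_injective h1).symm
      have hW0 : ∀ j, j ≠ q → Lp m W j = 0 := by
        intro j hj
        by_cases h1 : f j < f (σ j)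
        · exact hWS ⟨j, h1⟩
        · by_cases h2 : f (σ j) < f j
          · rw [← hWe j]
            have h5 : f (σ j) < f (σ (σ j)) := by rwa [hσ]
            exact hWS ⟨σ j, h5⟩
          · exact absurd ((hq j).1 (hf (by omega))) hj
      have hWq : Lp m W q = 0 := by
        have h1 := Lp_sum hs W
        rwa [Finset.sum_eq_single q (fun j _ hj => hW0 j hj) (fun h => absurd (mem_univ q) h)] at h1
      rw [hOV]
      refine ⟨fun j => ?_, hW2⟩
      by_cases hj : j = q
      · rw [hj]
        exact hWq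
      · exact hW0 j hj
    choose F hF1 hF2 using hWex
    refine Set.ncard_le_ncard_of_injOn F (fun y hy => hF2 y hy) ?_ (Set.toFinite _)
    intro y _ y' _ h
    funext s
    rw [← hF1 y s, ← hF1 y' s, h]
  rw [ker_transpose_card] at a2
  exact a3.trans (Nat.mul_le_mul_left _ a2)

end lin

section spl

open scoped Classical
open Pool.Agent.Y703.CT
open Pool.Agent.Y692.QS (Ei w nr toC)
open Pool.Agent.Y715.T.Rec (cs)
open Pool.Agent.Y715.T.RecG (Pq)
open Pool.Agent.Y405.CT

variable {J : Type} [Fintype J] {π : J → Ei} {e : J → ZMod 3} {D : ℕ}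

/-- a splitting of `D` gives an even kernel vector -/
theorem split_vec (hD0 : D ≠ 0) (h : Dt π e)
    (hD : (D : Ei) = pD π e ∨ (D : Ei) = -pD π e) (d : ZMod 3 → ℕ) (hd : d ∈ Spl D) :
    ∃ v : J → ZMod 3, (∀ j, ∑ i, e i * cs (π j) (π i) * (v i - v j) = 0) ∧
      (∀ i j, π i = star (π j) → v i = v j) ∧
      ∀ c, d c = (∏ i ∈ univ.filter (fun i => v i = c), π i ^ (e i).val : Ei).re.natAbs := by
  obtain ⟨hdprod, hcop, hloc⟩ := hd
  have hd0 : ∀ c, d c ≠ 0 := by
    intro c h0
    apply hD0
    rw [← hdprod]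
    exact Finset.prod_eq_zero (mem_univ c) h0
  have hex : ∀ j, ∃ c, π j ∣ ((d c : ℕ) : Ei) := by
    intro j
    have h1 : π j ∣ (D : Ei) := (dvd_D_iff hD _).2 (pi_dvd_part h univ (mem_univ j))
    rw [← hdprod, Nat.cast_prod] at h1
    obtain ⟨c, -, hc⟩ := ((h.pq j).prime.dvd_finsetProd_iff _).1 h1
    exact ⟨c, hc⟩
  choose v hv using hex
  have huniq : ∀ j c, π j ∣ ((d c : ℕ) : Ei) → v j = c := by
    intro j c hc
    by_contra hne
    obtain ⟨l, hl, hdl, hn3, hz⟩ := below (h.pq j)
    have h1 : l ∣ d c := by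
      rw [nat_int, hz] at hc
      exact_mod_cast hc
    have h2 : l ∣ d (v j) := by
      have := hv j
      rw [nat_int, hz] at this
      exact_mod_cast this
    have h3 := Nat.dvd_gcd h2 h1
    rw [hcop _ _ hne] at h3
    exact hl.one_lt.ne' (Nat.dvd_one.1 h3)
  have hve : ∀ i j, π i = star (π j) → v i = v j := by
    intro i j hij
    apply huniq
    have h1 := Pool.Agent.Y715.T.RecC.star_dvd (hv j)
    rwa [star_nat, ← hij] at h1
  choose σ hσ using exists_sigma h hD
  have hσσ : ∀ j, σ (σ j) = j := fun j => pi_inj h (by rw [hσ, hσ, star_star])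
  have hes : ∀ j, e (σ j) = e j := fun j => e_sigma h hD (hσ j)
  have hvs : ∀ j, v (σ j) = v j := fun j => hve _ _ (hσ j)
  let P : ZMod 3 → Ei := fun c => ∏ i ∈ univ.filter (fun i => v i = c), π i ^ (e i).val
  have hPs : ∀ c, star (P c) = P c := by
    intro c
    have h1 : star (P c) = ∏ i ∈ univ.filter (fun i => v i = c), star (π i ^ (e i).val) := by
      have := map_prod (starRingEnd Ei) (fun i => π i ^ (e i).val)
        (univ.filter (fun i => v i = c))
      exact this
    rw [h1]
    refine Finset.prod_nbij' σ σ ?_ ?_ (fun i _ => hσσ i) (fun i _ => hσσ i) ?_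
    · intro i hi
      simp only [mem_filter, mem_univ, true_and] at hi ⊢
      rw [hvs, hi]
    · intro i hi
      simp only [mem_filter, mem_univ, true_and] at hi ⊢
      rw [hvs, hi]
    · intro i _
      rw [hes, hσ, star_pow]
  obtain ⟨n, hn⟩ : ∃ n : ZMod 3 → ℤ, ∀ c, P c = ((n c : ℤ) : Ei) :=
    ⟨fun c => (P c).re, fun c => real_of_star (hPs c)⟩
  have hprod : ∏ c, P c = pD π e := Finset.prod_fiberwise univ v (fun i => π i ^ (e i).val)
  have hprodn : (∏ c, n c) = (D : ℤ) ∨ (∏ c, n c) = -(D : ℤ) := by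
    have h1 : (((∏ c, n c : ℤ)) : Ei) = pD π e := by
      rw [← hprod]
      push_cast
      exact Finset.prod_congr rfl fun c _ => (hn c).symm
    rcases hD with h2 | h2
    · left
      rw [← h2, nat_int] at h1
      have := congrArg QuadraticAlgebra.re h1
      rwa [QuadraticAlgebra.re_intCast, QuadraticAlgebra.re_intCast] at this
    · right
      have h3 : ((∏ c, n c : ℤ) : Ei) = ((-(D : ℤ) : ℤ) : Ei) := by
        rw [h1]
        push_cast
        rw [h2, neg_neg]
      have := congrArg QuadraticAlgebra.re h3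
      rwa [QuadraticAlgebra.re_intCast, QuadraticAlgebra.re_intCast] at this
  have haprod : ∏ c, (n c).natAbs = D := by
    have h1 : ∏ c, (n c).natAbs = (∏ c, n c).natAbs := (map_prod Int.natAbsHom n univ).symm
    rw [h1]
    rcases hprodn with h2 | h2
    · rw [h2, Int.natAbs_natCast]
    · rw [h2, Int.natAbs_neg, Int.natAbs_natCast]
  have hPd : ∀ c, P c ∣ ((d c : ℕ) : Ei) := by
    intro c
    refine Finset.prod_dvd_of_isRelPrime ?_ ?_
    · intro i _ j _ hij
      refine IsRelPrime.pow ?_
      exact ((h.pq i).prime.irreducible.isRelPrime_iff_not_dvd).2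
        (h.nd j i (fun h' => hij h'.symm))
    · intro i hi
      have hvi : v i = c := (mem_filter.1 hi).2
      have h1 : π i ^ (e i).val ∣ (D : Ei) := (dvd_D_iff hD _).2 ((pow_dvd h i _).2 le_rfl)
      rw [← hdprod, Nat.cast_prod, ← Finset.mul_prod_erase univ _ (mem_univ c)] at h1
      refine (h.pq i).prime.pow_dvd_of_dvd_mul_right _ ?_ h1
      intro h2
      obtain ⟨c', hc', h3⟩ := ((h.pq i).prime.dvd_finsetProd_iff _).1 h2
      exact (Finset.mem_erase.1 hc').1 (by rw [← hvi, huniq i c' h3])
  have hdn : ∀ c, (n c).natAbs = d c := by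
    have h1 : ∀ c, (n c).natAbs ∣ d c := by
      intro c
      have h2 := hPd c
      rw [hn, nat_int] at h2
      have h3 := Pool.Agent.Y692.QS.int_dvd_int.1 h2
      exact Int.natAbs_dvd_natAbs.2 h3 |>.trans (by rw [Int.natAbs_natCast])
    intro c
    by_contra hne
    have h2 : (n c).natAbs < d c :=
      lt_of_le_of_ne (Nat.le_of_dvd (Nat.pos_of_ne_zero (hd0 c)) (h1 c)) hne
    have h3 : ∏ c, (n c).natAbs < ∏ c, d c := by
      refine Finset.prod_lt_prod (fun c' _ => ?_) (fun c' _ =>
        Nat.le_of_dvd (Nat.pos_of_ne_zero (hd0 c')) (h1 c')) ⟨c, mem_univ _, h2⟩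
      refine Nat.pos_of_ne_zero fun h0 => ?_
      have h4 := h1 c'
      rw [h0] at h4
      exact hd0 c' (Nat.eq_zero_of_zero_dvd h4)
    rw [haprod, hdprod] at h3
    exact lt_irrefl _ h3
  refine ⟨v, ?_, hve, fun c => ?_⟩
  · intro j
    set c := v j with hc
    have hprime := (h.pq j).prime
    have h9 := (h.pq j).norm
    have hc1 : v j ≠ c + 1 := by
      rw [← hc]
      exact (by decide : ∀ c : ZMod 3, c ≠ c + 1) c
    have hc2 : v j ≠ c + 2 := by
      rw [← hc]
      exact (by decide : ∀ c : ZMod 3, c ≠ c + 2) c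
    obtain ⟨a1, a2⟩ := cs_part h hc1
    obtain ⟨b1, b2⟩ := cs_part h hc2
    have b1' : ¬ π j ∣ P (c + 2) ^ 2 := fun h => b1 (hprime.dvd_of_dvd_pow h)
    have hnd12 : ¬ π j ∣ P (c + 1) * P (c + 2) ^ 2 := fun h => by
      rcases hprime.dvd_or_dvd h with h | h
      · exact a1 h
      · exact b1' h
    have h7 : cs (π j) (P (c + 1) * P (c + 2) ^ 2) = 0 := by
      rw [Pool.Agent.Y715.T.RecG.cs_zero_iff hprime h9 hnd12]
      obtain ⟨l, hl, hdl, hn3, hz⟩ := below (h.pq j)
      have hld : l ∣ d c := by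
        have := hv j
        rw [nat_int, hz] at this
        exact_mod_cast this
      obtain ⟨x, hx⟩ := hloc c l hl hld
      have e2 : ((d (c + 2) : ℕ) : ℤ) ^ 2 = n (c + 2) ^ 2 := by
        rw [← hdn]
        exact Int.natAbs_sq _
      rw [e2] at hx
      rcases Int.natAbs_eq (n (c + 1)) with h10 | h10
      · refine ⟨(x : Ei), ?_⟩
        have e1 : ((d (c + 1) : ℕ) : ℤ) = n (c + 1) := by rw [← hdn]; exact h10.symm
        rw [e1] at hx
        have h11 := (hz _).2 hx
        rw [hn, hn]
        push_cast at h11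
        exact h11
      · refine ⟨((-x : ℤ) : Ei), ?_⟩
        have e1 : ((d (c + 1) : ℕ) : ℤ) = -n (c + 1) := by
          rw [← hdn]
          omega
        rw [e1] at hx
        have h11 : (l : ℤ) ∣ n (c + 1) * n (c + 2) ^ 2 - (-x) ^ 3 := by
          have e3 : n (c + 1) * n (c + 2) ^ 2 - (-x) ^ 3 =
              -(-n (c + 1) * n (c + 2) ^ 2 - x ^ 3) := by ring
          rw [e3]
          exact hx.neg_right
        have h12 := (hz _).2 h11
        rw [hn, hn]
        push_cast at h12 ⊢
        exact h12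
    rw [Pool.Agent.Y715.T.RecG.cs_mul hprime h9 a1 b1',
      Pool.Agent.Y715.T.RecG.cs_pow hprime h9 b1] at h7
    have a2' : cs (π j) (P (c + 1)) = ∑ i, if v i = c + 1 then e i * cs (π j) (π i) else 0 := a2
    have b2' : cs (π j) (P (c + 2)) = ∑ i, if v i = c + 2 then e i * cs (π j) (π i) else 0 := b2
    rw [a2', b2', mul_sum, ← sum_add_distrib] at h7
    refine Eq.trans ?_ h7
    refine sum_congr rfl fun i _ => ?_
    generalize e i * cs (π j) (π i) = t
    have : ∀ (x c t : ZMod 3), t * (x - c) = ((if x = c + 1 then t else 0) + ((2 : ℕ) : ZMod 3) *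
        (if x = c + 2 then t else 0)) := by decide
    exact this (v i) c t
  · rw [← hdn]
    have h1 : P c = ((n c : ℤ) : Ei) := hn c
    show (n c).natAbs = (P c).re.natAbs
    rw [h1, QuadraticAlgebra.re_intCast]
    simp

/-- the number of the splittings and the number of the even kernel vectors -/
theorem spl_le_even (hD0 : D ≠ 0) (h : Dt π e)
    (hD : (D : Ei) = pD π e ∨ (D : Ei) = -pD π e) :
    (Spl D).ncard ≤ {v : J → ZMod 3 | (∀ j, ∑ i, e i * cs (π j) (π i) * (v i - v j) = 0) ∧
      ∀ i j, π i = star (π j) → v i = v j}.ncard := by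
  have key : ∀ d : ZMod 3 → ℕ, ∃ v : J → ZMod 3, d ∈ Spl D →
      ((∀ j, ∑ i, e i * cs (π j) (π i) * (v i - v j) = 0) ∧
      (∀ i j, π i = star (π j) → v i = v j)) ∧
      ∀ c, d c = (∏ i ∈ univ.filter (fun i => v i = c), π i ^ (e i).val : Ei).re.natAbs := by
    intro d
    by_cases hd : d ∈ Spl D
    · obtain ⟨v, h1, h2, h3⟩ := split_vec hD0 h hD d hd
      exact ⟨v, fun _ => ⟨⟨h1, h2⟩, h3⟩⟩
    · exact ⟨0, fun h' => absurd h' hd⟩
  choose F hF using key
  refine Set.ncard_le_ncard_of_injOn F (fun d hd => (hF d hd).1) ?_ (Set.toFinite _)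
  intro d hd d' hd' hh
  funext c
  rw [(hF d hd).2 c, (hF d' hd').2 c, hh]

/-- **the number of the splittings and the number of the odd kernel vectors** -/
theorem spl_le_odd (hC : Cls D) (h : Dt π e) (hD : (D : Ei) = pD π e ∨ (D : Ei) = -pD π e) :
    (Spl D).ncard ≤ 3 * {v : J → ZMod 3 | (∀ j, ∑ i, e i * cs (π j) (π i) * (v i - v j) = 0) ∧
      ∀ i j, π i = star (π j) → v i = -v j}.ncard := by
  have hR := Pool.Agent.Y350.CT.rec
  obtain ⟨q, hq⟩ := fixed hC h hD
  choose σ hσ using exists_sigma h hD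
  have hσσ : ∀ j, σ (σ j) = j := fun j => pi_inj h (by rw [hσ, hσ, star_star])
  have hes : ∀ j, e (σ j) = e j := fun j => e_sigma h hD (hσ j)
  have hσq : ∀ j, σ j = j ↔ j = q := by
    intro j
    rw [← hq]
    constructor
    · intro h1
      rw [← hσ, h1]
    · intro h1
      exact pi_inj h (by rw [hσ, h1])
  let m : J → J → ZMod 3 := fun i j => if i = j then 0 else e i * e j * cs (π i) (π j)
  have hL : ∀ (v : J → ZMod 3) (j : J), Lp m v j =
      e j * ∑ i, e i * cs (π j) (π i) * (v i - v j) := by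
    intro v j
    unfold Lp
    rw [mul_sum]
    refine sum_congr rfl fun i _ => ?_
    show (if j = i then 0 else e j * e i * cs (π j) (π i)) * (v i - v j) = _
    by_cases hij : j = i
    · subst hij
      rw [if_pos rfl, sub_self, mul_zero, mul_zero, mul_zero]
    · rw [if_neg hij]
      ring
  have hker : ∀ v : J → ZMod 3, (∀ j, Lp m v j = 0) ↔
      ∀ j, ∑ i, e i * cs (π j) (π i) * (v i - v j) = 0 := by
    intro v
    refine forall_congr' fun j => ?_
    rw [hL, mul_eq_zero]
    exact ⟨fun h1 => h1.resolve_left (h.e0 j), Or.inr⟩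
  have hs : ∀ i j, m i j = m j i := by
    intro i j
    show (if i = j then 0 else e i * e j * cs (π i) (π j)) =
      if j = i then 0 else e j * e i * cs (π j) (π i)
    by_cases hij : i = j
    · subst hij
      rfl
    · rw [if_neg hij, if_neg (fun h' => hij h'.symm),
        hR (π j) (π i) (h.pq j) (h.pq i) (h.nd j i (fun h' => hij h'.symm))]
      ring
  have ha : ∀ i j, m (σ i) (σ j) = - m i j := by
    intro i j
    show (if σ i = σ j then 0 else e (σ i) * e (σ j) * cs (π (σ i)) (π (σ j))) =
      - if i = j then 0 else e i * e j * cs (π i) (π j)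
    by_cases hij : i = j
    · subst hij
      simp
    · have hij' : σ i ≠ σ j := fun h' => hij (by rw [← hσσ i, h', hσσ])
      rw [if_neg hij, if_neg hij', hes, hes, hσ, hσ,
        cs_starG (h.pq i) (h.nd j i (fun h' => hij h'.symm))]
      ring
  have h1 := odd_count hσσ hσq hs ha
  have e2 : {v : J → ZMod 3 | (∀ j, Lp m v j = 0) ∧ ∀ j, v (σ j) = v j} =
      {v : J → ZMod 3 | (∀ j, ∑ i, e i * cs (π j) (π i) * (v i - v j) = 0) ∧
        ∀ i j, π i = star (π j) → v i = v j} := by
    ext v
    refine and_congr (hker v) ?_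
    constructor
    · intro h2 i j hij
      have h3 : i = σ j := pi_inj h (by rw [hij, hσ])
      rw [h3, h2]
    · intro h2 j
      exact h2 _ _ (hσ j)
  have e3 : {v : J → ZMod 3 | (∀ j, Lp m v j = 0) ∧ ∀ j, v (σ j) = -v j} =
      {v : J → ZMod 3 | (∀ j, ∑ i, e i * cs (π j) (π i) * (v i - v j) = 0) ∧
        ∀ i j, π i = star (π j) → v i = -v j} := by
    ext v
    refine and_congr (hker v) ?_
    constructor
    · intro h2 i j hij
      have h3 : i = σ j := pi_inj h (by rw [hij, hσ])
      rw [h3, h2]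
    · intro h2 j
      exact h2 _ _ (hσ j)
  rw [e2, e3] at h1
  exact (spl_le_even hC.1.1 h hD).trans h1

end spl

end Pool.Agent.QS543
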