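import Pool.Agent.QS543.Sel2
import Pool.Agent.QS543.Odd
import Pool.Agent.Y319.CT.CONVQ
import Pool.Agent.Y319.CT.FF
import Pool.Agent.Y809.CT.Shq
import Pool.Agent.Y894.CT.EXT
import Pool.Agent.Y703.CT.Kloc
import Pool.Agent.Y379.CT.Ramc
import Pool.Agent.Y379.CT.Cub
import Pool.Agent.Y674.CT.PT
import Pool.Agent.Y100.CT.CUB3

/-!
# Project QS (helper543): the lower bound for the `3`-Selmer group over `ℚ`
-/

set_option autoImplicit false
set_option linter.unusedVariables false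
set_option linter.unusedSectionVars false

open scoped Classical

namespace Pool.Agent.QS543

open WeierstrassCurve
open Pool.Agent.Y692.QS (Ei w nr toC)
open Pool.Agent.Y715.T.Rec (cs)
open Pool.Agent.Y715.T.Gi Pool.Agent.Y715.T.Nr Pool.Agent.Y715.T.Df Pool.Agent.Y715.T.Ell
open Pool.Agent.Y715.T.Sel (kc_mul kc_pow kc_exp kc_congr ex_root root_ne)
open Pool.Agent.Y703.CT
open Pool.Agent.Y155.CT (ah ah_apply dd Co ah_im ah_dd im3 dd_apply ah_nT3 nsmul_tt ah_tt dd_ker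
  ah_T3 T3 dd_T3 dd_tt a_mul a_cont)
open Pool.Agent.Y692.CT
open Pool.Agent.W262.SH (IsCoc IsCob LocTriv shaCoc cob Sha)
open Pool.Agent.Y319.CT (exists_char exp_zero norm_cube nr_nine)
open Pool.Agent.Y809.CT (local_p ac_tt real_sq Ph_tt)
open Pool.Agent.QL543 (Spl tw_neg)

/-! ### coboundaries -/

lemma wa_id {W : WeierstrassCurve ℚ} (P : WP W QB) :
    wa W (AlgEquiv.refl : QB ≃ₐ[ℚ] QB).toAlgHom P = P := by
  rcases P with _ | ⟨x, y, h⟩
  · exact map_zero _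
  · rfl

lemma lc_wa (W : WeierstrassCurve ℚ) (P : WP W QB) :
    IsLocallyConstant (fun σ : QB ≃ₐ[ℚ] QB => wa W σ.toAlgHom P) := by
  rcases P with _ | ⟨x, y, h⟩
  · have e : (fun σ : QB ≃ₐ[ℚ] QB => wa W σ.toAlgHom (0 : WP W QB)) = fun _ => 0 :=
      funext fun σ => map_zero _
    exact e ▸ IsLocallyConstant.const _
  · have e : (fun σ : QB ≃ₐ[ℚ] QB => wa W σ.toAlgHom (Affine.Point.some x y h : WP W QB)) =
        fun σ : QB ≃ₐ[ℚ] QB =>
        (fun x' y' : QB => if hn : (W.baseChange QB).toAffine.Nonsingular x' y' then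
          (Affine.Point.some x' y' hn : WP W QB) else 0) (σ x) (σ y) := by
      funext σ
      have hn : (W.baseChange QB).toAffine.Nonsingular (σ x) (σ y) :=
        (Affine.baseChange_nonsingular W σ.toAlgHom.injective ..).mpr h
      show _ = if hn : (W.baseChange QB).toAffine.Nonsingular (σ x) (σ y) then
          (Affine.Point.some (σ x) (σ y) hn : WP W QB) else 0
      rw [dif_pos hn]
      rfl
    rw [e]
    exact IsLocallyConstant.comp₂ (Pool.Agent.Y894.CT.lc_app x) (Pool.Agent.Y894.CT.lc_app y)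
      (fun x' y' : QB => if hn : (W.baseChange QB).toAffine.Nonsingular x' y' then
          (Affine.Point.some x' y' hn : WP W QB) else 0)

lemma cob_mem (W : WeierstrassCurve ℚ) (P : WP W QB) :
    (fun σ : QB ≃ₐ[ℚ] QB => wa W σ.toAlgHom P - P) ∈ shaCoc W := by
  have hl : ∀ {K : Type} [Field K] [Algebra ℚ K],
      LocTriv W K (fun σ : QB ≃ₐ[ℚ] QB => wa W σ.toAlgHom P - P) := by
    intro K _ _ ι
    refine ⟨wa W ι P, fun τ σ h => ?_⟩
    have h1 := Pool.Agent.TH841.SH.act_act W ι (τ.toAlgHom.restrictScalars ℚ) P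
    have h2 := Pool.Agent.TH841.SH.act_act W σ.toAlgHom ι P
    rw [h, ← h2] at h1
    show wa W ι (wa W σ.toAlgHom P - P) = wa W (τ.toAlgHom.restrictScalars ℚ) (wa W ι P) - wa W ι P
    rw [map_sub]
    exact congrArg (fun z => z - wa W ι P) h1.symm
  refine ⟨⟨(lc_wa W P).comp (fun Q => Q - P), fun σ τ => ?_⟩, fun p _ => hl, hl⟩
  show wa W (σ * τ).toAlgHom P - P = wa W σ.toAlgHom P - P + wa W σ.toAlgHom (wa W τ.toAlgHom P - P)
  rw [wa_mul, map_sub]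
  abel

/-! ### the cocycle attached to a character -/

/-- (from `Y809/CT/Shq.lean`) -/
theorem char_coc {D : ℤ} (hD : D ≠ 0) {i₀ : QB} (hi : i₀ ^ 2 + i₀ + 1 = 0) {u : QB}
    (hu : u ^ 3 = (D : QB)) {a : GK i₀ → ZMod 3} (ha : ∀ σ : GK i₀, σ u = i₀ ^ (-a σ).val * u)
    {h : GK i₀ → ZMod 3} {g : (QB ≃ₐ[ℚ] QB) → ZMod 3} (hg : Ext h g)
    (hloc : ∀ (p : ℕ) [Fact p.Prime] (ι : QB →ₐ[ℚ] PadicAlgCl p), ∃ R, St1 hi ι a h R) :
    (fun σ => Ph hD hu (tt QB (g σ)) : (QB ≃ₐ[ℚ] QB) → PD D QB) ∈ shaCoc (EQ (WD D)) := by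
  let f : (QB ≃ₐ[ℚ] QB) → PD D QB := fun σ => Ph hD hu (tt QB (g σ))
  have hg1 : g 1 = 0 := by
    have := hg.mul 1 1
    rw [mul_one] at this
    exact (left_eq_add.1 this)
  have hcoc : Pool.Agent.W262.SH.IsCoc (EQ (WD D)) f := by
    refine ⟨hg.cont.comp (fun c => Ph hD hu (tt QB c)), fun σ τ => ?_⟩
    show Ph hD hu (tt QB (g (σ * τ))) = Ph hD hu (tt QB (g σ)) +
      ac D σ.toAlgHom (Ph hD hu (tt QB (g τ)))
    rw [hg.mul, tt_add, map_add, ac_tt hD hu hu σ.toAlgHom]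
  have hp : ∀ (p : ℕ) [Fact p.Prime], Pool.Agent.W262.SH.LocTriv (EQ (WD D)) ℚ_[p] f := by
    intro p _ ι
    obtain ⟨R, hR⟩ := hloc p ι
    obtain ⟨P, hP⟩ := local_p hD hi hu ha hg ι R hR
    exact ⟨P, fun τ σ hτ => hP τ σ (fun x => DFunLike.congr_fun hτ x)⟩
  have hr : Pool.Agent.W262.SH.LocTriv (EQ (WD D)) ℝ f := by
    intro ι
    refine ⟨0, fun τ σ hτ => ?_⟩
    have h1 : σ * σ = 1 := by
      apply AlgEquiv.ext
      intro x
      apply ι.injective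
      have h2 : ∀ y, τ (ι y) = ι (σ y) := fun y => DFunLike.congr_fun hτ y
      show ι (σ (σ x)) = ι x
      rw [← h2, ← h2, real_sq]
    have h2 : g σ = 0 := by
      have h3 := hg.mul σ σ
      rw [h1, hg1] at h3
      revert h3
      generalize g σ = c
      revert c
      decide
    have h3 : f σ = 0 := by
      show Ph hD hu (tt QB (g σ)) = 0
      rw [h2, tt_zero, map_zero]
    rw [h3, map_zero, map_zero, sub_zero]
  exact ⟨hcoc, hp, hr⟩

/-- the third part of the point `T` -/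
lemma ex_R3 {i₀ : QB} (hi : i₀ ^ 2 + i₀ + 1 = 0) : ∃ R : Pt QB, th hi R = -T3 hi := by
  obtain ⟨R, hR⟩ := ex_R hi
  exact ⟨-R, by rw [map_neg, hR]⟩

lemma R3_three {i₀ : QB} {hi : i₀ ^ 2 + i₀ + 1 = 0} {R : Pt QB} (hR : th hi R = -T3 hi) :
    3 • R = tt QB 1 := by
  have h2 := th_th hi R
  have h3 : im (isE QB) hi (tt QB 1) = tt QB 1 := im_tt hi 1
  rw [hR, map_neg, th_im, Pool.Agent.Y155.CT.dd_T3, h3] at h2
  exact (neg_inj.1 h2).symm

lemma val_smul_three {A : Type} [AddCommGroup A] {x : A} (hx : 3 • x = 0) (c c' : ZMod 3) :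
    c.val • x - c'.val • x = (c - c').val • x := by
  have h1 : ∀ n : ℕ, (n % 3) • x = n • x := by
    intro n
    conv_rhs => rw [← Nat.mod_add_div n 3]
    rw [add_smul, mul_comm 3, mul_smul, hx, smul_zero, add_zero]
  have h2 : (c - c').val + c'.val = c.val ∨ (c - c').val + c'.val = c.val + 3 := by
    revert c c'
    decide
  rw [sub_eq_iff_eq_add, ← add_smul]
  rcases h2 with h | h
  · rw [h]
  · rw [h, add_smul, hx, add_zero]

lemma th_tt {i₀ : QB} (hi : i₀ ^ 2 + i₀ + 1 = 0) (c : ZMod 3) : th hi (tt QB c) = 0 := by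
  rw [th_im, dd_tt, map_zero]

lemma th_T3 {i₀ : QB} (hi : i₀ ^ 2 + i₀ + 1 = 0) : th hi (T3 hi) = tt QB 1 := by
  have h3 : im (isE QB) hi (tt QB 1) = tt QB 1 := im_tt hi 1
  rw [th_im, dd_T3, h3]

/-- the relation between the classes -/
lemma rel {i₀ : QB} {hi : i₀ ^ 2 + i₀ + 1 = 0} {a : GK i₀ → ZMod 3} (hane : ∃ σ, a σ ≠ 0)
    {R : Pt QB} (hR : th hi R = -T3 hi) {h h' : GK i₀ → ZMod 3} {c c' : ZMod 3} {Q : Pt QB}
    (hQ3 : 3 • Q = 0) (hQ : ∀ σ, tt QB (h σ) + c.val • (ah hi a σ R - R) -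
      (tt QB (h' σ) + c'.val • (ah hi a σ R - R)) = ah hi a σ Q - Q) :
    c = c' ∧ ∃ n : ZMod 3, ∀ σ, h σ + 2 * h' σ + n * a σ = 0 := by
  have hR3 := R3_three hR
  have h4 : ∀ σ, 3 • (ah hi a σ R - R) = 0 := by
    intro σ
    rw [smul_sub, ← map_nsmul, hR3, ah_tt, sub_self]
  have hQ2 : ∀ σ, tt QB (h σ) - tt QB (h' σ) + (c - c').val • (ah hi a σ R - R) =
      ah hi a σ Q - Q := by
    intro σ
    rw [← hQ, ← val_smul_three (h4 σ)]
    abel
  obtain ⟨n, m, hnm⟩ := three_pts hi hQ3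
  have hcc : c = c' := by
    obtain ⟨σ, hσ⟩ := hane
    have h5 := congrArg (th hi) (hQ2 σ)
    rw [map_add, map_sub, th_tt, th_tt, sub_zero, zero_add, map_nsmul, map_sub, map_sub, ← ah_th,
      ← ah_th, hR, hnm, map_add, th_tt, add_zero, map_nsmul, th_T3, nsmul_tt, ah_tt, sub_self,
      map_neg, ah_T3] at h5
    have h6 : -(T3 hi - tt QB (a σ)) - -T3 hi = tt QB (a σ) := by abel
    rw [h6, nsmul_tt, ZMod.natCast_zmod_val, ← tt_zero (L := QB)] at h5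
    haveI : Fact (Nat.Prime 3) := ⟨Nat.prime_three⟩
    rcases mul_eq_zero.1 (tt_inj h5) with h7 | h7
    · exact sub_eq_zero.1 h7
    · exact absurd h7 hσ
  refine ⟨hcc, n, fun σ => ?_⟩
  have h5 := hQ2 σ
  rw [hcc, sub_self, ZMod.val_zero, zero_smul, add_zero, hnm, map_add, ah_tt,
    add_sub_add_right_eq_sub, ah_nT3] at h5
  have h6 : tt QB (h σ) = tt QB (h' σ + -(n * a σ)) := by
    rw [tt_add, ← tt_neg, ← h5]
    abel
  have h7 := tt_inj h6
  rw [h7]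
  have h8 : ∀ x y : ZMod 3, x + -y + 2 * x + y = 0 := by decide
  exact h8 _ _

/-- two odd kernel vectors with the same class are equal -/
lemma odd_inj {D : ℕ} {J : Type} [Fintype J] {π : J → Ei} {e : J → ZMod 3}
    (hD : Dt π e) (hDp : (D : Ei) = pD π e ∨ (D : Ei) = -pD π e) {i₀ : QB}
    {hi : i₀ ^ 2 + i₀ + 1 = 0} {u : QB} {a : GK i₀ → ZMod 3} (hT : Tw hi (pD π e) u a)
    {v v' : J → ZMod 3} (hv : ∀ i j, π i = star (π j) → v i = -v j)
    (hv' : ∀ i j, π i = star (π j) → v' i = -v' j) {h h' : GK i₀ → ZMod 3}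
    (hh : Kc hi (∏ j, π j ^ (e j * v j).val) h) (hh' : Kc hi (∏ j, π j ^ (e j * v' j).val) h')
    {n : ZMod 3} (hn : ∀ σ, h σ + 2 * h' σ + n * a σ = 0) : v = v' := by
  have hB : ∏ j, π j ^ (e j * v j).val ≠ 0 := Pool.Agent.Y48.CT.SEL.pr0 hD _
  have hB' : ∏ j, π j ^ (e j * v' j).val ≠ 0 := Pool.Agent.Y48.CT.SEL.pr0 hD _
  have hne : pD π e ≠ 0 := Pool.Agent.Y48.CT.SEL.pr0 hD _
  have hb : Kc hi (pD π e) (fun σ => -a σ) :=
    kc_of hi (root_ne (hi := hi) hne hT.cube) hT.cube hT.act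
  have h1 := kc_mul hB (pow_ne_zero 2 hB') hh (kc_pow hB' hh' 2)
  have h2 := kc_mul (mul_ne_zero hB (pow_ne_zero 2 hB')) (pow_ne_zero (-n).val hne) h1
    (kc_pow hne hb (-n).val)
  have e1 : (∏ j, π j ^ (e j * v j).val) * (∏ j, π j ^ (e j * v' j).val) ^ 2 *
      (pD π e) ^ (-n).val =
      ∏ j, π j ^ ((e j * v j).val + (e j * v' j).val * 2 + (e j).val * (-n).val) := by
    unfold pD
    rw [← Finset.prod_pow, ← Finset.prod_pow, ← Finset.prod_mul_distrib,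
      ← Finset.prod_mul_distrib]
    refine Finset.prod_congr rfl fun i _ => ?_
    rw [← pow_mul, ← pow_mul, ← pow_add, ← pow_add]
  rw [e1] at h2
  have h3 : Kc hi (∏ j, π j ^ (e j * v j + e j * v' j * 2 + e j * -n).val)
      (fun σ => h σ + ((2 : ℕ) : ZMod 3) * h' σ + ((-n).val : ZMod 3) * -a σ) := by
    refine kc_exp (Pool.Agent.Y48.CT.SEL.p0 hD) (fun i => ?_) h2
    push_cast
    rw [ZMod.natCast_zmod_val, ZMod.natCast_zmod_val, ZMod.natCast_zmod_val,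
      ZMod.natCast_zmod_val, ZMod.natCast_zmod_val]
  have hconst : ∀ j, v j - v' j = n := by
    intro j
    have key : ∀ x y n : ZMod 3, x + y * 2 + -n = 0 → x - y = n := by decide
    have h4 := exp_zero hD (fun j => e j * v j + e j * v' j * 2 + e j * -n) h3 (fun σ => by
      rw [ZMod.natCast_zmod_val]
      have h5 := hn σ
      push_cast
      rw [← h5]
      ring) j
    have h5 : e j * (v j + v' j * 2 + -n) = 0 := by
      rw [← h4]
      ring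
    haveI : Fact (Nat.Prime 3) := ⟨Nat.prime_three⟩
    rcases mul_eq_zero.1 h5 with h6 | h6
    · exact absurd h6 (hD.e0 j)
    · exact key _ _ _ h6
  funext j
  obtain ⟨i, hi'⟩ := Pool.Agent.Y405.CT.exists_sigma hD hDp j
  have h6 := hv i j hi'
  have h7 := hv' i j hi'
  have h8 := hconst i
  have h9 := hconst j
  rw [h6, h7] at h8
  have key : ∀ x y n : ZMod 3, -x - -y = n → x - y = n → x = y := by decide
  exact key _ _ _ h8 h9

/-- **the lower bound** -/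
theorem low_aux {D : ℕ} (hC : Cls D) {J : Type} [Fintype J] {π : J → Ei} {e : J → ZMod 3}
    (hD : Dt π e) (hDp : (D : Ei) = pD π e ∨ (D : Ei) = -pD π e) (j₀ : J)
    (hfin : Finite (Sel3 (EQ (WD (D : ℤ))))) :
    {v : J → ZMod 3 | (∀ j, ∑ i, e i * cs (π j) (π i) * (v i - v j) = 0) ∧
      ∀ i j, π i = star (π j) → v i = -v j}.ncard * 3 ≤ Nat.card (Sel3 (EQ (WD (D : ℤ)))) := by
  obtain ⟨V, hV⟩ : ∃ V, V = {v : J → ZMod 3 |
    (∀ j, ∑ i, e i * cs (π j) (π i) * (v i - v j) = 0) ∧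
      ∀ i j, π i = star (π j) → v i = -v j} := ⟨_, rfl⟩
  rw [← hV]
  have hV' : ∀ v, v ∈ V → (∀ j, ∑ i, e i * cs (π j) (π i) * (v i - v j) = 0) ∧
      ∀ i j, π i = star (π j) → v i = -v j := by
    intro v hv
    rw [hV] at hv
    exact hv
  obtain ⟨i₀, hi⟩ : ∃ i₀ : QB, i₀ ^ 2 + i₀ + 1 = 0 := by
    obtain ⟨x, hx⟩ := IsAlgClosed.exists_root
      (Polynomial.X ^ 2 + Polynomial.X + 1 : Polynomial QB) (by
        have : (Polynomial.X ^ 2 + Polynomial.X + 1 : Polynomial QB).degree = 2 := by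
          compute_degree!
        rw [this]
        norm_num)
    refine ⟨x, ?_⟩
    have h1 := hx
    rw [Polynomial.IsRoot] at h1
    simpa using h1
  have hne : pD π e ≠ 0 := Pool.Agent.Y48.CT.SEL.pr0 hD _
  obtain ⟨u, a, hT⟩ := Pool.Agent.Y319.CT.exists_tw hi hne
  have hane : ∃ σ, a σ ≠ 0 := Pool.Agent.Y319.CT.a_ne j₀ hD hT
  -- the twist by the rational integer
  have hD0 : (D : ℤ) ≠ 0 := Int.natCast_ne_zero.2 hC.1.1
  obtain ⟨u', hT'⟩ : ∃ u' : QB, Tw hi ((D : ℤ) : Ei) u' a := by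
    rcases hDp with h | h
    · refine ⟨u, ?_⟩
      have e1 : ((D : ℤ) : Ei) = pD π e := by rw [Int.cast_natCast, h]
      rw [e1]
      exact hT
    · refine ⟨-u, ?_⟩
      have e1 : ((D : ℤ) : Ei) = -pD π e := by rw [Int.cast_natCast, h]
      rw [e1]
      refine ⟨?_, fun σ => ?_⟩
      · rw [Odd.neg_pow (by decide), hT.cube, map_neg]
      · rw [map_neg, hT.act σ]
        ring
  have hu : u' ^ 3 = ((D : ℤ) : QB) := by
    rw [hT'.cube, map_intCast]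
  have ha := hT'.act
  have hex : ∀ v : V, ∃ (h : GK i₀ → ZMod 3) (g : (QB ≃ₐ[ℚ] QB) → ZMod 3),
      Kc hi (∏ j, π j ^ (e j * v.1 j).val) h ∧ Ext h g ∧
      (fun σ => Ph hD0 hu (tt QB (g σ)) : (QB ≃ₐ[ℚ] QB) → PD D QB) ∈
        shaCoc (EQ (WD (D : ℤ))) := by
    rintro ⟨v, hv⟩
    rw [hV] at hv
    obtain ⟨hv1, hv2⟩ := hv
    have hB0 : ∏ j, π j ^ (e j * v j).val ≠ 0 := Pool.Agent.Y48.CT.SEL.pr0 hD _
    obtain ⟨h, hh⟩ := exists_char hi hB0
    obtain ⟨C, hCB⟩ := norm_cube hD hDp hv2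
    obtain ⟨g, hg⟩ := Pool.Agent.Y894.CT.t_EXT i₀ hi _ C hB0 hCB h hh
    have hloc := kloc Pool.Agent.Y319.CT.t_FF Pool.Agent.Y379.CT.t_CUB
      Pool.Agent.Y100.CT.CUB3.t_cub3 Pool.Agent.Y674.CT.t_PT Pool.Agent.Y379.CT.t_RAMC J π e hD
      (Pool.Agent.Y319.CT.nr_nine hC hDp) i₀ hi u a hT v hv1 h hh
    exact ⟨h, g, hh, hg, char_coc hD0 hi hu ha hg hloc⟩
  choose h g hh hg hm using hex
  obtain ⟨R, hR⟩ := ex_R3 hi
  have hR3 := R3_three hR
  have hk3 : ∀ σ : QB ≃ₐ[ℚ] QB, 3 • (wa (EQ (WD (D : ℤ))) σ.toAlgHom (Ph hD0 hu R) -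
      Ph hD0 hu R) = 0 := by
    intro σ
    have h1 : wa (EQ (WD (D : ℤ))) σ.toAlgHom (Ph hD0 hu (tt QB 1)) = Ph hD0 hu (tt QB 1) :=
      ac_tt hD0 hu hu σ.toAlgHom 1
    rw [smul_sub, ← map_nsmul, ← map_nsmul, hR3, h1, sub_self]
  obtain ⟨κ, hκ⟩ : ∃ κ : shaCoc (EQ (WD (D : ℤ))), ∀ σ, κ.1 σ =
      wa (EQ (WD (D : ℤ))) σ.toAlgHom (Ph hD0 hu R) - Ph hD0 hu R :=
    ⟨⟨_, cob_mem _ (Ph hD0 hu R)⟩, fun σ => rfl⟩
  let f : V × ZMod 3 → shaCoc (EQ (WD (D : ℤ))) := fun x => ⟨_, hm x.1⟩ + x.2.val • κ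
  have hf : ∀ x σ, (f x).1 σ = Ph hD0 hu (tt QB (g x.1 σ)) +
      x.2.val • (wa (EQ (WD (D : ℤ))) σ.toAlgHom (Ph hD0 hu R) - Ph hD0 hu R) := by
    intro x σ
    rw [← hκ]
    rfl
  have hfs : ∀ x, f x ∈ selZ (EQ (WD (D : ℤ))) := by
    intro x σ
    rw [hf, smul_add, ← map_nsmul, smul_comm, hk3, smul_zero, add_zero]
    have h1 : 3 • tt QB (g x.1 σ) = 0 := by
      rw [nsmul_tt]
      have : ((3 : ℕ) : ZMod 3) = 0 := by decide
      rw [this, zero_mul, tt_zero]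
    rw [h1, map_zero]
  let Θ : V × ZMod 3 → Sel3 (EQ (WD (D : ℤ))) := fun x => QuotientAddGroup.mk ⟨f x, hfs x⟩
  have hΘ : Function.Injective Θ := by
    rintro ⟨v, c⟩ ⟨v', c'⟩ hxy
    have h1 : (QuotientAddGroup.mk (⟨f (v, c), hfs (v, c)⟩ - ⟨f (v', c'), hfs (v', c')⟩ :
        selZ (EQ (WD (D : ℤ)))) : Sel3 (EQ (WD (D : ℤ)))) = 0 := by
      rw [QuotientAddGroup.mk_sub, sub_eq_zero]
      exact hxy
    rw [sel_mk_zero] at h1
    obtain ⟨P, hP3, hP⟩ := h1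
    obtain ⟨Q, rfl⟩ := (Ph hD0 hu).surjective P
    have hQ3 : 3 • Q = 0 := by
      apply (Ph hD0 hu).injective
      rw [map_nsmul, hP3, map_zero]
    have h2 : ∀ σ : GK i₀, tt QB (h v σ) + c.val • (ah hi a σ R - R) -
        (tt QB (h v' σ) + c'.val • (ah hi a σ R - R)) = ah hi a σ Q - Q := by
      intro σ
      have h3 : (f (v, c)).1 (rs σ) - (f (v', c')).1 (rs σ) =
        wa (EQ (WD (D : ℤ))) (rs σ).toAlgHom (Ph hD0 hu Q) - Ph hD0 hu Q := hP (rs σ)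
      have h4 : ∀ X : Pt QB, wa (EQ (WD (D : ℤ))) (rs σ).toAlgHom (Ph hD0 hu X) =
          Ph hD0 hu (ah hi a σ X) := fun X => act_Ph hD0 hi hu ha σ X
      have h5 : g v (rs σ) = h v σ := (hg v).res σ
      have h6 : g v' (rs σ) = h v' σ := (hg v').res σ
      rw [hf, hf, h4, h4] at h3
      simp only at h3
      rw [h5, h6] at h3
      apply (Ph hD0 hu).injective
      simp only [map_sub, map_add, map_nsmul]
      exact h3
    obtain ⟨hcc, n, hn⟩ := rel hane hR hQ3 h2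
    have hv := hV' v.1 v.2
    have hv' := hV' v'.1 v'.2
    have h7 := odd_inj hD hDp hT hv.2 hv'.2 (hh v) (hh v') hn
    rw [Prod.mk.injEq]
    exact ⟨Subtype.ext h7, hcc⟩
  have h8 := Nat.card_le_card_of_injective Θ hΘ
  rwa [Nat.card_prod, Nat.card_zmod, Nat.card_coe_set_eq] at h8

/-- **`3 ^ (s + 1) ≤ #Sel₃ ≤ 3 ^ (2 s + 1)`** -/
theorem low {D : ℕ} (hC : Cls D) {s : ℕ} (hs : (Spl D).ncard = 3 ^ (s + 1)) :
    3 ^ (s + 1) ≤ Nat.card (Sel3 (EQ (WD (D : ℤ)))) := by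
  obtain ⟨⟨hfin, -⟩, -⟩ := bound3 hC hs
  obtain ⟨n, π, e, hdt, hD⟩ := Pool.Agent.Y274.CT.t_exi D hC.1
  obtain ⟨q, -⟩ := Pool.Agent.Y405.CT.fixed hC hdt hD
  have h1 := spl_le_odd hC hdt hD
  have h2 := low_aux hC hdt hD q hfin
  rw [hs] at h1
  rw [mul_comm] at h1
  exact h1.trans h2

end Pool.Agent.QS543
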