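import Pool.Agent.QS543.Coh

/-!
# Project QS (helper543): the rank over `ℚ(ω)` and the characters of the points

Adapted from `Y696/XL/Rk.lean` (helper696).
-/

set_option autoImplicit false
set_option linter.unusedVariables false
set_option linter.unusedSectionVars false

open scoped Classical

namespace Pool.Agent.QS543

open WeierstrassCurve
open Pool.Agent.Y692.QS (Ei w nr toC)
open Pool.Agent.Y715.T.Gi Pool.Agent.Y715.T.Nr Pool.Agent.Y715.T.Df Pool.Agent.Y715.T.Ell
open Pool.Agent.Y703.CT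
open Pool.Agent.Y155.CT
open Pool.Agent.XL6 (SelH quot_map kum_pt)

variable {i₀ : QB} {hi : i₀ ^ 2 + i₀ + 1 = 0} {a : GK i₀ → ZMod 3}

/-- the Kummer character of a point -/
lemma kum_ptK (ha : ∀ σ τ, a (σ * τ) = a σ + a τ) (hc : IsLocallyConstant a) {R : Pt QB}
    (hR : Pool.Agent.Y155.CT.dd hi R ∈ AG hi a) :
    ∃ h ∈ KG hi a, ∀ σ, ah hi a σ R - R = tt QB (h σ) := by
  obtain ⟨h, -, h2⟩ := kum_pt ha hc hR
  exact ⟨h, ⟨R, fun σ => (h2 σ).symm⟩, h2⟩

/-- **The bound for the rank.** -/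
theorem rank_leK (ha : ∀ σ τ, a (σ * τ) = a σ + a τ) (hc : IsLocallyConstant a)
    (hne : ∃ σ, a σ ≠ 0) {r : ℕ} (hfin : (KG hi a).Finite)
    (hr : (KG hi a).ncard ≤ 3 ^ (r + 1)) : Module.finrank ℤ (AG hi a) ≤ 2 * r := by
  have hfg := AG_fg (hi := hi) ha hc
  -- a choice of the square roots and of the characters
  have hch : ∀ P : AG hi a, ∃ (R : Pt QB) (h : GK i₀ → ZMod 3),
      Pool.Agent.Y155.CT.dd hi R = P.1 ∧ h ∈ KG hi a ∧ ∀ σ, ah hi a σ R - R = tt QB (h σ) := by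
    intro P
    obtain ⟨R, hR⟩ := dd_surj hi P.1
    obtain ⟨h, h1, h2⟩ := kum_ptK ha hc (R := R) (by rw [hR]; exact P.2)
    exact ⟨R, h, hR, h1, h2⟩
  choose R h hR hS hh using hch
  -- the equivalence relation
  let s : Setoid (AG hi a) :=
    { r := fun P P' => ∃ c : ZMod 3, ∀ σ, h P σ = h P' σ + c * a σ
      iseqv :=
        { refl := fun P => ⟨0, fun σ => by ring⟩
          symm := fun {P P'} ⟨c, hc'⟩ => ⟨-c, fun σ => by rw [hc' σ]; ring⟩
          trans := fun {P P' P''} ⟨c, hc'⟩ ⟨c', hc''⟩ =>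
            ⟨c + c', fun σ => by rw [hc' σ, hc'' σ]; ring⟩ } }
  let Q := Quotient s
  -- the characters of a class
  have hmem : ∀ (P : AG hi a) (c : ZMod 3), (fun σ => h P σ - c * a σ) ∈ KG hi a := by
    intro P c
    obtain ⟨h', h1, h2⟩ := kum_ptK ha hc (R := R P + c.val • T3 hi) (by
      rw [map_add, map_nsmul, dd_T3, hR, nsmul_tt, mul_one, ZMod.natCast_zmod_val]
      exact add_mem P.2 (tt_mem c))
    have h3 : h' = fun σ => h P σ - c * a σ := by
      funext σ
      apply tt_inj (L := QB)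
      have h4 := ah_nT3 hi a σ c
      rw [← h2, tt_sub, ← hh]
      have h5 : ah hi a σ (R P + c.val • T3 hi) - (R P + c.val • T3 hi) =
          (ah hi a σ (R P) - R P) + (ah hi a σ (c.val • T3 hi) - c.val • T3 hi) := by
        rw [map_add]
        abel
      rw [h5, h4]
      abel
    rw [← h3]
    exact h1
  have hinj : Function.Injective (fun x : Q × ZMod 3 =>
      (⟨fun σ => h x.1.out σ - x.2 * a σ, hmem _ _⟩ : KG hi a)) := by
    rintro ⟨q, c⟩ ⟨q', c'⟩ hxy
    have h1 : ∀ σ, h q.out σ - c * a σ = h q'.out σ - c' * a σ := fun σ =>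
      congrFun (Subtype.ext_iff.1 hxy) σ
    have h2 : q = q' := by
      rw [← Quotient.out_eq q, ← Quotient.out_eq q']
      exact Quotient.sound ⟨c - c', fun σ => by linear_combination h1 σ⟩
    subst h2
    obtain ⟨σ, hσ⟩ := hne
    have h3 : (c - c') * a σ = 0 := by linear_combination -(h1 σ)
    have h4 : c = c' := sub_eq_zero.1 ((mul_eq_zero.1 h3).resolve_right hσ)
    rw [h4]
  have hfinS : Finite (KG hi a) := hfin
  have hfinQ3 : Finite (Q × ZMod 3) := Finite.of_injective _ hinj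
  have hfinQ : Finite Q := Finite.of_injective (fun q : Q => ((q, 0) : Q × ZMod 3))
    fun q q' h => (Prod.mk.inj h).1
  have hcard : Nat.card Q * 3 ≤ 3 ^ (r + 1) := by
    have h1 := Nat.card_le_card_of_injective _ hinj
    rw [Nat.card_prod, Nat.card_zmod, Nat.card_coe_set_eq] at h1
    exact h1.trans hr
  have hcQ : Nat.card Q ≤ 3 ^ r := by
    rw [pow_succ] at hcard
    omega
  -- representatives
  have hrep : ∀ P : AG hi a, ∃ (q : Q) (P' : AG hi a) (c : ZMod 3),
      P.1 = (q.out).1 + Pool.Agent.Y155.CT.dd hi P'.1 + tt QB c := by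
    intro P
    obtain ⟨c, hc'⟩ : s.r P (Quotient.out (Quotient.mk s P)) :=
      Quotient.exact (Quotient.out_eq (Quotient.mk s P)).symm
    obtain ⟨P₀, hP₀⟩ : ∃ P₀ : AG hi a, P₀ = Quotient.out (Quotient.mk s P) := ⟨_, rfl⟩
    rw [← hP₀] at hc'
    refine ⟨Quotient.mk s P, ⟨R P - R P₀ + c.val • T3 hi, fun σ => ?_⟩, -c, ?_⟩
    · have h1 := ah_nT3 hi a σ c
      have h2 : ah hi a σ (R P - R P₀ + c.val • T3 hi) =
          (ah hi a σ (R P) - R P) - (ah hi a σ (R P₀) - R P₀) +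
          (ah hi a σ (c.val • T3 hi) - c.val • T3 hi) + (R P - R P₀ + c.val • T3 hi) := by
        rw [map_add, map_sub]
        abel
      rw [h2, h1, hh, hh, hc' σ, tt_add]
      abel
    · show P.1 = (Quotient.out (Quotient.mk s P)).1 +
        Pool.Agent.Y155.CT.dd hi (R P - R P₀ + c.val • T3 hi) + tt QB (-c)
      rw [← hP₀, map_add, map_sub, map_nsmul, dd_T3, nsmul_tt, mul_one, ZMod.natCast_zmod_val,
        hR, hR, ← tt_neg]
      abel
  -- the reduction
  obtain ⟨g, hg1, hg2⟩ := quot_map (AG hi a)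
  have hg3 : ∀ x : AG hi a, g ((3 : ℤ) • x) = 0 := by
    intro x
    rw [map_zsmul]
    funext i
    show (3 : ℤ) • g x i = 0
    rw [zsmul_eq_mul]
    have : (((3 : ℤ) : ZMod 3)) = 0 := by decide
    rw [this, zero_mul]
  have htt : ∀ c : ZMod 3, g ⟨tt QB c, tt_mem c⟩ = 0 := fun c =>
    hg2 _ 3 three_ne_zero (Subtype.ext (three_tt c))
  have hsurj : Function.Surjective (fun x : Q × Q =>
      g x.1.out + g ⟨Pool.Agent.Y155.CT.dd hi x.2.out.1, dd_mem x.2.out.2⟩) := by
    intro y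
    obtain ⟨P, rfl⟩ := hg1 y
    obtain ⟨q, P', c, h1⟩ := hrep P
    obtain ⟨q', P'', c', h2⟩ := hrep P'
    refine ⟨(q, q'), ?_⟩
    have h3 : P = q.out + ⟨Pool.Agent.Y155.CT.dd hi q'.out.1, dd_mem q'.out.2⟩ +
        (-((3 : ℤ) • ⟨im (isE QB) hi P''.1, im_mem P''.2⟩)) + ⟨tt QB c, tt_mem c⟩ := by
      apply Subtype.ext
      show P.1 = q.out.1 + Pool.Agent.Y155.CT.dd hi q'.out.1 +
        (-((3 : ℤ) • im (isE QB) hi P''.1)) + tt QB c
      have h4 : Pool.Agent.Y155.CT.dd hi P'.1 = Pool.Agent.Y155.CT.dd hi q'.out.1 +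
          (-((3 : ℤ) • im (isE QB) hi P''.1)) := by
        rw [h2, map_add, map_add, dd_tt, add_zero, dd_dd, map_nsmul]
        norm_cast
      rw [h1, h4]
      abel
    show g q.out + g ⟨Pool.Agent.Y155.CT.dd hi q'.out.1, dd_mem q'.out.2⟩ = g P
    rw [h3, map_add, map_add, map_add, map_neg, hg3, htt, neg_zero, add_zero, add_zero]
  have h1 := Nat.card_le_card_of_surjective _ hsurj
  rw [Nat.card_prod, Nat.card_fun, Nat.card_zmod, Nat.card_fin] at h1
  have h2 : 3 ^ Module.finrank ℤ (AG hi a) ≤ 3 ^ (2 * r) := by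
    calc 3 ^ Module.finrank ℤ (AG hi a) ≤ Nat.card Q * Nat.card Q := h1
      _ ≤ 3 ^ r * 3 ^ r := Nat.mul_le_mul hcQ hcQ
      _ = 3 ^ (2 * r) := by rw [← pow_add]; congr 1; ring
  exact (Nat.pow_le_pow_iff_right (by norm_num)).1 h2



/-- the characters of the points are a group -/
noncomputable def KS (hi : i₀ ^ 2 + i₀ + 1 = 0) (a : GK i₀ → ZMod 3) :
    AddSubgroup (GK i₀ → ZMod 3) := (dl hi a).range.comap (tm i₀)

lemma mem_KS {h : GK i₀ → ZMod 3} : h ∈ KS hi a ↔ h ∈ KG hi a := by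
  constructor
  · rintro ⟨R, hR⟩
    exact ⟨R, fun σ => (congrFun hR σ).symm⟩
  · rintro ⟨R, hR⟩
    exact ⟨R, funext fun σ => (hR σ).symm⟩

/-- the number of the characters of the points is a power of three -/
lemma card_pow (hfin : (KG hi a).Finite) : ∃ n, (KG hi a).ncard = 3 ^ n := by
  let S : Submodule (ZMod 3) (GK i₀ → ZMod 3) := AddSubgroup.toZModSubmodule 3 (KS hi a)
  have e : (KG hi a) = (S : Set (GK i₀ → ZMod 3)) := by
    ext h
    rw [← mem_KS]
    rfl
  have hS : Finite S := by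
    rw [e] at hfin
    exact hfin
  refine ⟨Module.finrank (ZMod 3) S, ?_⟩
  rw [e]
  have h1 : ((S : Set (GK i₀ → ZMod 3))).ncard = Nat.card S := (Nat.card_coe_set_eq _).symm
  have hMF : Module.Finite (ZMod 3) S := Module.Finite.of_finite
  rw [h1, Module.natCard_eq_pow_finrank (K := ZMod 3), Nat.card_zmod]

/-- **the rank over `ℚ(ω)` and the number of the characters of the points** -/
theorem pow_le_KG (ha : ∀ σ τ, a (σ * τ) = a σ + a τ) (hc : IsLocallyConstant a)
    (hne : ∃ σ, a σ ≠ 0) {r : ℕ} (hfin : (KG hi a).Finite)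
    (hr : 2 * r ≤ Module.finrank ℤ (AG hi a)) : 3 ^ (r + 1) ≤ (KG hi a).ncard := by
  obtain ⟨n, hn⟩ := card_pow hfin
  -- the group is not trivial
  have h1 : 1 < (KG hi a).ncard := by
    rw [Set.one_lt_ncard hfin]
    refine ⟨0, ?_, fun σ => -a σ, ⟨T3 hi, fun σ => ?_⟩, ?_⟩
    · rw [← mem_KS]
      exact zero_mem _
    · show tt QB (-a σ) = _
      rw [ah_T3, ← tt_neg]
      abel
    · intro h
      obtain ⟨σ, hσ⟩ := hne
      have h2 := congrFun h σ
      apply hσ
      have h3 : (0 : ZMod 3) = -a σ := h2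
      rw [← neg_eq_zero, ← h3]
  have h2 : 1 ≤ n := by
    rcases Nat.eq_zero_or_pos n with h | h
    · rw [h, pow_zero] at hn
      omega
    · exact h
  obtain ⟨m, rfl⟩ : ∃ m, n = m + 1 := ⟨n - 1, by omega⟩
  have h3 := rank_leK ha hc hne hfin (r := m) (by rw [hn])
  rw [hn]
  exact Nat.pow_le_pow_right (by norm_num) (by omega)

end Pool.Agent.QS543
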