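import Pool.Agent.QS543.Alg

/-!
# Project QS (helper543): the `3`-power torsion of an abelian group
-/

set_option autoImplicit false

namespace Pool.Agent.QS543

/-- the elements killed by `3 ^ n` -/
def T3n (A : Type) [AddCommGroup A] (n : ℕ) : AddSubgroup A :=
  (nsmulAddMonoidHom (α := A) (3 ^ n)).ker

lemma mem_T3n {A : Type} [AddCommGroup A] {n : ℕ} {x : A} : x ∈ T3n A n ↔ 3 ^ n • x = 0 := Iff.rfl

theorem tors_pow {A : Type} [AddCommGroup A] (h : Finite (T3n A 1)) (n : ℕ) :
    Finite (T3n A n) ∧ Nat.card (T3n A n) ≤ Nat.card (T3n A 1) ^ n := by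
  induction n with
  | zero =>
    have h1 : ∀ x : T3n A 0, x = 0 := by
      rintro ⟨x, hx⟩
      rw [mem_T3n, pow_zero, one_smul] at hx
      exact Subtype.ext hx
    have h2 : Subsingleton (T3n A 0) := ⟨fun x y => (h1 x).trans (h1 y).symm⟩
    refine ⟨inferInstance, ?_⟩
    rw [pow_zero]
    exact Nat.card_eq_one_iff_unique.2 ⟨h2, ⟨0⟩⟩ |>.le
  | succ n ih =>
    obtain ⟨h1, h2⟩ := ih
    let ψ : T3n A (n + 1) →+ T3n A n :=
      { toFun := fun x => ⟨3 • x.1, by
          have h3 := x.2
          rw [mem_T3n] at h3 ⊢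
          rw [smul_smul, ← pow_succ]
          exact h3⟩
        map_zero' := Subtype.ext (smul_zero _)
        map_add' := fun x y => Subtype.ext (smul_add _ _ _) }
    have hk : Function.Injective (fun x : ψ.ker => (⟨x.1.1, by
        have h3 : ψ x.1 = 0 := x.2
        have h4 : 3 • x.1.1 = 0 := congrArg Subtype.val h3
        rw [mem_T3n, pow_one]
        exact h4⟩ : T3n A 1)) := by
      intro x y hxy
      have h3 : x.1.1 = y.1.1 := congrArg (fun z : T3n A 1 => z.1) hxy
      exact Subtype.ext (Subtype.ext h3)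
    have f1 : Finite ψ.ker := Finite.of_injective _ hk
    have f2 : Finite ψ.range := inferInstance
    refine ⟨fin_ker_range ψ f2 f1, ?_⟩
    rw [card_ker_range ψ, pow_succ]
    refine Nat.mul_le_mul ?_ (Nat.card_le_card_of_injective _ hk)
    exact (Nat.card_le_card_of_injective _ Subtype.val_injective).trans h2

/-- the order of a finite group of exponent three -/
theorem card_three {A : Type} [AddCommGroup A] [Finite A] (h : ∀ x : A, 3 • x = 0) :
    Nat.card A = 3 ^ Nat.log 3 (Nat.card A) := by
  let _ : Module (ZMod 3) A := AddCommGroup.zmodModule h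
  have hM : Module.Finite (ZMod 3) A := Module.Finite.of_finite
  have h1 : Nat.card A = 3 ^ Module.finrank (ZMod 3) A := by
    rw [Module.natCard_eq_pow_finrank (K := ZMod 3), Nat.card_zmod]
  rw [h1, Nat.log_pow (by norm_num)]

/-- the `3`-torsion is transported by isomorphisms -/
theorem card_T3n_equiv {A B : Type} [AddCommGroup A] [AddCommGroup B] (e : A ≃+ B) (n : ℕ) :
    Nonempty (T3n A n ≃ T3n B n) := by
  refine ⟨{ toFun := fun x => ⟨e x.1, ?_⟩, invFun := fun y => ⟨e.symm y.1, ?_⟩,
            left_inv := fun x => ?_, right_inv := fun y => ?_ }⟩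
  · rw [mem_T3n, ← map_nsmul, mem_T3n.1 x.2, map_zero]
  · rw [mem_T3n, ← map_nsmul, mem_T3n.1 y.2, map_zero]
  · exact Subtype.ext (e.symm_apply_apply _)
  · exact Subtype.ext (e.apply_symm_apply _)

end Pool.Agent.QS543
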