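import Pool.Agent.QS543.Form
import Pool.Agent.QS543.Rk
import Pool.Agent.QS543.Tors

/-!
# Project QS (helper543): the rank and the `3`-torsion of the Tate-Shafarevich group over `ℚ`
-/

set_option autoImplicit false
set_option linter.unusedVariables false
set_option linter.unusedSectionVars false

open scoped Classical

namespace Pool.Agent.QS543

open NumberField WeierstrassCurve
open Pool.Agent.Y692.QS (Ei nr w)
open Pool.Agent.Y715.T.Gi Pool.Agent.Y715.T.Nr Pool.Agent.Y715.T.Df Pool.Agent.Y715.T.Ell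
open Pool.Agent.Y703.CT (Dt pD a_ne Tw Cls EQ WD)
open Pool.Agent.Y696.CTK (Parts parts ED TrfData)
open Pool.Agent.Y155.CT (a_mul a_cont AG AG_fg)
open Pool.Agent.XL6 (SelK KerV SelH)
open Pool.Agent.QL543 (WF Spl h9_of ker_le tw_neg fg_K ex_conj rk_QK rk_FK)

section
variable {i₀ : QB} {hi : i₀ ^ 2 + i₀ + 1 = 0} {a : GK i₀ → ZMod 3}

/-- the characters of the points are Selmer characters -/
lemma KG_sub (ha : ∀ σ τ, a (σ * τ) = a σ + a τ) (hc : IsLocallyConstant a) :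
    KG hi a ⊆ SelH hi a := by
  rintro h ⟨R, hR⟩
  rw [selH_iff]
  have h3 := Pool.Agent.Y155.CT.co_cob (hi := hi) ha hc R
  have e : tm i₀ h = fun σ => Pool.Agent.Y155.CT.ah hi a σ R - R := funext hR
  rw [e]
  exact h3

/-- the bound for a form of `y² + D y = x³` -/
theorem bnd {W : WeierstrassCurve ℚ} (F : TwF W hi a) (ha : ∀ σ τ, a (σ * τ) = a σ + a τ)
    (hc : IsLocallyConstant a) (hne : ∃ σ, a σ ≠ 0) (hfin : (SelH hi a).Finite) {s r : ℕ}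
    (hS : (SelH hi a).ncard ≤ 3 ^ (2 * s + 1)) (hr : 2 * r ≤ Module.finrank ℤ (AG hi a)) :
    Finite (X3 W) ∧ 3 ^ r * Nat.card (X3 W) ≤ 9 ^ s := by
  have hKfin : (KG hi a).Finite := hfin.subset (KG_sub ha hc)
  have h6 := pow_le_KG ha hc hne hKfin hr
  obtain ⟨h7, h8⟩ := card_thH hi a ha hc hfin
  obtain ⟨h10, h11⟩ := card_X3 ha hc F h7
  refine ⟨h10, ?_⟩
  have h12 : Nat.card (X3 W) * 3 ^ (r + 1) ≤ 3 ^ (2 * s + 1) :=
    (Nat.mul_le_mul h11 h6).trans (h8.trans hS)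
  rw [pow_succ, pow_succ, ← mul_assoc] at h12
  have h13 := Nat.le_of_mul_le_mul_right h12 (by norm_num)
  rw [mul_comm, show (9 : ℕ) = 3 ^ 2 by norm_num, ← pow_mul]
  exact h13

end

/-- the bound, with the help of a field `K` -/
theorem bound' (K : Type) [Field K] [NumberField K] [IsCyclotomicExtension {3} ℚ K] {D : ℕ}
    (hC : Cls D) {s : ℕ} (hs : (Spl D).ncard = 3 ^ (s + 1)) :
    (Finite (X3 (EQ (WD (D : ℤ)))) ∧
      3 ^ Module.finrank ℤ (ED (D : ℚ)).toAffine.Point * Nat.card (X3 (EQ (WD (D : ℤ)))) ≤ 9 ^ s) ∧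
    (Finite (X3 (WF ((D : ℤ) : ℚ))) ∧
      3 ^ Module.finrank ℤ (WF (D : ℚ)).toAffine.Point * Nat.card (X3 (WF ((D : ℤ) : ℚ))) ≤
        9 ^ s) := by
  obtain ⟨n, π, e, hdt, hD⟩ := Pool.Agent.Y274.CT.t_exi D hC.1
  obtain ⟨q, -⟩ := Pool.Agent.Y405.CT.fixed hC hdt hD
  have hne : Nonempty (Fin n) := ⟨q⟩
  have h9 := h9_of hC hD
  have hf : (Spl D).Finite := Set.finite_of_ncard_ne_zero (by rw [hs]; positivity)
  have h1 : 3 * (KerV π e).ncard ≤ (Spl D).ncard ^ 2 := ker_le hC hdt hD hf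
  have h2 : (KerV π e).ncard ≤ 3 ^ (2 * s + 1) := by
    rw [hs, ← pow_mul] at h1
    have e1 : (s + 1) * 2 = 2 * s + 1 + 1 := by ring
    rw [e1, pow_succ (3 : ℕ) (2 * s + 1), mul_comm] at h1
    exact Nat.le_of_mul_le_mul_right h1 (by norm_num)
  obtain ⟨⟨j, hj⟩, -⟩ := Pool.Agent.Y455.CTK.jex K
  have hne0 : pD π e ≠ 0 := Pool.Agent.Y153.CTRAM.ne_zero_of hdt
  have hDne : (D : Ei) ≠ 0 := by
    rcases hD with h | h
    · rw [h]
      exact hne0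
    · rw [h]
      exact neg_ne_zero.2 hne0
  obtain ⟨e', i₀, hi, u, a, Ψ, g, hdata⟩ := parts.trf K j _ hDne
  have hT := hdata.1
  obtain ⟨u', hT'⟩ : ∃ u', Tw hi (pD π e) u' a := by
    rcases hD with h | h
    · exact ⟨u, by rw [← h]; exact hT⟩
    · exact ⟨-u, tw_neg (by rw [← h]; exact hT)⟩
  have h3 : (SelH hi a).ncard = (KerV π e).ncard := Pool.Agent.XL6.sel_card hdt h9 hT'
  have hpos : (KerV π e).ncard ≠ 0 := by
    have h0 : (0 : Fin n → ZMod 3) ∈ KerV π e := fun j => by simp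
    exact Set.ncard_ne_zero_of_mem h0 (Set.toFinite _)
  have hfin : (SelH hi a).Finite := Set.finite_of_ncard_ne_zero (by rw [h3]; exact hpos)
  have ha := a_mul hDne hT
  have hc := a_cont hDne hT
  have han : ∃ σ, a σ ≠ 0 := a_ne hdt hT'
  -- the rank
  have hfg := fg_K hDne hdata
  have hcast : ((j (D : Ei) : 𝓞 K) : K) = (D : K) := by
    rw [map_natCast]
    rfl
  have hmap : algebraMap ℚ K (D : ℚ) = ((j (D : Ei) : 𝓞 K) : K) := by
    rw [hcast, map_natCast]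
  have hD0 : ((j (D : Ei) : 𝓞 K) : K) ≠ 0 := by
    rw [hcast]
    exact Nat.cast_ne_zero.2 hC.1.1
  obtain ⟨σ, hσ⟩ := ex_conj j
  have hww : (w : Ei) ^ 2 + w + 1 = 0 := by decide
  have hz : ((j w : 𝓞 K) : K) ^ 2 + ((j w : 𝓞 K) : K) + 1 = 0 := by
    have h3 := congrArg (fun z => ((j z : 𝓞 K) : K)) hww
    simp only [map_add, map_pow, map_one, map_zero] at h3
    exact h3
  have h4 := rk_QK hD0 hmap hz σ hσ
  have h5 := h4.trans (Pool.Agent.XL6.rk_le hDne hdata)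
  have h4' := rk_FK hD0 hmap hz σ hσ
  have h5' := h4'.trans (Pool.Agent.XL6.rk_le hDne hdata)
  have hu : u ^ 3 = ((D : ℤ) : QB) := by
    rw [hT.cube, map_natCast, Int.cast_natCast]
  have hS : (SelH hi a).ncard ≤ 3 ^ (2 * s + 1) := by
    rw [h3]
    exact h2
  have hD1 : (D : ℤ) ≠ 0 := Int.natCast_ne_zero.2 hC.1.1
  exact ⟨bnd (twE hD1 hi hu hT.act) ha hc han hfin hS h5,
    bnd (twC hD1 hi hu hT.act) ha hc han hfin hS h5'⟩

/-- **`3 ^ rank * #Ш[3] ≤ 9 ^ s`** -/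
theorem bound {D : ℕ} (hC : Cls D) {s : ℕ} (hs : (Spl D).ncard = 3 ^ (s + 1)) :
    (Finite (X3 (EQ (WD (D : ℤ)))) ∧
      3 ^ Module.finrank ℤ (ED (D : ℚ)).toAffine.Point * Nat.card (X3 (EQ (WD (D : ℤ)))) ≤ 9 ^ s) ∧
    (Finite (X3 (WF (D : ℚ))) ∧
      3 ^ Module.finrank ℤ (WF (D : ℚ)).toAffine.Point * Nat.card (X3 (WF (D : ℚ))) ≤ 9 ^ s) := by
  have h1 : NeZero ((3 : ℕ) : ℚ) := ⟨by norm_num⟩
  have h2 : IsCyclotomicExtension {3} ℚ (CyclotomicField 3 ℚ) :=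
    CyclotomicField.isCyclotomicExtension 3 ℚ
  have h3 := bound' (CyclotomicField 3 ℚ) hC hs
  have e : (((D : ℤ) : ℚ)) = (D : ℚ) := Int.cast_natCast D
  rw [e] at h3
  exact h3

/-! ### all powers of three -/

/-- the powers of three, from `3` -/
theorem all_n {W : WeierstrassCurve ℚ} {r s : ℕ} (hf : Finite (X3 W))
    (h : 3 ^ r * Nat.card (X3 W) ≤ 9 ^ s) :
    (∀ n : ℕ, Finite (T3n (Pool.Agent.TH841.SH.D.Sha W) n) ∧
      (3 ^ r) ^ n * Nat.card (T3n (Pool.Agent.TH841.SH.D.Sha W) n) ≤ (9 ^ s) ^ n) ∧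
    Nat.card (T3n (Pool.Agent.TH841.SH.D.Sha W) 1) =
      3 ^ Nat.log 3 (Nat.card (T3n (Pool.Agent.TH841.SH.D.Sha W) 1)) ∧
    r + Nat.log 3 (Nat.card (T3n (Pool.Agent.TH841.SH.D.Sha W) 1)) ≤ 2 * s := by
  obtain ⟨e⟩ := card_T3n_equiv (Pool.Agent.TH841.SH.D.eSha W) 1
  have hX : T3n (Pool.Agent.W262.SH.Sha W) 1 = X3 W := by
    ext x
    rw [mem_T3n, mem_X3, pow_one]
  rw [hX] at e
  have hf1 : Finite (T3n (Pool.Agent.TH841.SH.D.Sha W) 1) := Finite.of_equiv _ e.symm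
  have hc1 : Nat.card (T3n (Pool.Agent.TH841.SH.D.Sha W) 1) = Nat.card (X3 W) := Nat.card_congr e
  rw [← hc1] at h
  have h3 : Nat.card (T3n (Pool.Agent.TH841.SH.D.Sha W) 1) =
      3 ^ Nat.log 3 (Nat.card (T3n (Pool.Agent.TH841.SH.D.Sha W) 1)) := by
    refine card_three fun x => ?_
    apply Subtype.ext
    have h4 := x.2
    rw [mem_T3n, pow_one] at h4
    exact h4
  refine ⟨fun n => ?_, h3, ?_⟩
  · obtain ⟨k1, k2⟩ := tors_pow hf1 n
    refine ⟨k1, ?_⟩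
    calc (3 ^ r) ^ n * Nat.card (T3n (Pool.Agent.TH841.SH.D.Sha W) n) ≤
        (3 ^ r) ^ n * Nat.card (T3n (Pool.Agent.TH841.SH.D.Sha W) 1) ^ n :=
          Nat.mul_le_mul_left _ k2
      _ = (3 ^ r * Nat.card (T3n (Pool.Agent.TH841.SH.D.Sha W) 1)) ^ n := (mul_pow _ _ _).symm
      _ ≤ (9 ^ s) ^ n := Nat.pow_le_pow_left h n
  · obtain ⟨m, hm⟩ : ∃ m, m = Nat.log 3 (Nat.card (T3n (Pool.Agent.TH841.SH.D.Sha W) 1)) :=
      ⟨_, rfl⟩
    rw [← hm] at h3 ⊢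
    rw [h3, ← pow_add, show (9 : ℕ) = 3 ^ 2 by norm_num, ← pow_mul] at h
    exact (Nat.pow_le_pow_iff_right (by norm_num)).1 h

end Pool.Agent.QS543
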