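import Pool.Agent.QS543.Low

/-!
# Project QS (helper543): the Selmer group of the `3`-isogeny
-/

set_option autoImplicit false
set_option linter.unusedVariables false
set_option linter.unusedSectionVars false

open scoped Classical

namespace Pool.Agent.QS543

open WeierstrassCurve
open Pool.Agent.Y692.QS (Ei w nr toC)
open Pool.Agent.Y715.T.Rec (cs)
open Pool.Agent.Y715.T.Gi Pool.Agent.Y715.T.Nr Pool.Agent.Y715.T.Df Pool.Agent.Y715.T.Ell
open Pool.Agent.Y715.T.Sel (kc_mul kc_pow kc_exp kc_congr ex_root root_ne kc_uniq)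
open Pool.Agent.Y703.CT
open Pool.Agent.Y155.CT (ah ah_apply dd Co ah_im ah_dd im3 dd_apply ah_nT3 nsmul_tt ah_tt dd_ker
  ah_T3 T3 dd_T3 dd_tt a_mul a_cont)
open Pool.Agent.Y692.CT
open Pool.Agent.W262.SH (IsCoc IsCob LocTriv shaCoc cob Sha)
open Pool.Agent.Y319.CT (exists_char exp_zero norm_cube)
open Pool.Agent.Y809.CT (local_p ac_tt real_sq Ph_tt)
open Pool.Agent.QL543 (Spl tw_neg)
open Pool.Agent.XL6 (SelH sel_ker ker_uniq)
open Pool.Agent.Y894.CT (ev_star ip_neg)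

/-- the points with `x = 0` and the origin: the kernel of the `3`-isogeny `E_D → C_D` -/
def InKer {W : WeierstrassCurve ℚ} (P : WP W QB) : Prop :=
  P = 0 ∨ ∃ (y : QB) (h : (W.baseChange QB).toAffine.Nonsingular 0 y), P = .some 0 y h

/-- the Selmer group of the isogeny: locally trivial cocycles with values in the kernel -/
def SelPhi (W : WeierstrassCurve ℚ) : Type := {f : shaCoc W // ∀ σ, InKer (f.1 σ)}

lemma inker_iff {D : ℤ} (hD : D ≠ 0) {u : QB} (hu : u ^ 3 = D) {i₀ : QB}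
    (hi : i₀ ^ 2 + i₀ + 1 = 0) (P : PD D QB) :
    InKer (W := EQ (WD D)) P ↔ ∃ c : ZMod 3, P = Ph hD hu (tt QB c) := by
  constructor
  · intro h
    obtain ⟨Q, rfl⟩ := (Ph hD hu).surjective P
    have h1 : dd hi Q = 0 := by
      rcases h with h | ⟨y, hn, h⟩
      · have h2 : Q = 0 := (Ph hD hu).map_eq_zero_iff.1 h
        rw [h2, map_zero]
      · rcases Q with _ | ⟨X, Y, hQ⟩
        · exact map_zero _
        · rw [Ph_some] at h
          obtain ⟨e1, e2⟩ := (Affine.Point.some.injEq ..).mp h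
          have hu0 : u ≠ 0 := by
            rintro rfl
            rw [zero_pow three_ne_zero] at hu
            exact (Int.cast_ne_zero.2 hD) hu.symm
          have hX : X = 0 := by
            rcases mul_eq_zero.1 e1 with h3 | h3
            · exact absurd h3 (pow_ne_zero 2 hu0)
            · exact h3
          subst hX
          rw [dd_apply, im_some, sub_eq_zero]
          exact pt_ext _ _ (mul_zero _).symm rfl
    obtain ⟨c, hc⟩ := dd_ker hi h1
    exact ⟨c, by rw [hc]⟩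
  · rintro ⟨c, rfl⟩
    have hT : InKer (W := EQ (WD D)) (Ph hD hu (T0 (isE QB))) := by
      right
      unfold T0
      rw [Ph_some]
      have h1 : u ^ 2 * 0 = (0 : QB) := mul_zero _
      refine ⟨(D : QB) * 0, ?_, ?_⟩
      · have h2 := Ph_nons hD hu (T0_nons (isE QB))
        rw [h1] at h2
        exact h2
      · exact pt_ext _ _ h1 rfl
    rcases z3 c with rfl | rfl | rfl
    · left
      rw [tt_zero, map_zero]
    · rw [tt_one]
      exact hT
    · rw [tt_neg_one, map_neg]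
      rcases hT with h | ⟨y, hn, h⟩
      · left
        rw [h, neg_zero]
      · right
        rw [h]
        rw [Affine.Point.neg_some]
        exact ⟨_, _, rfl⟩

/-- the vector attached to an invariant character is odd -/
lemma odd_of_inv {D : ℕ} {J : Type} [Fintype J] {π : J → Ei} {e : J → ZMod 3}
    (hD : Dt π e) (hDp : (D : Ei) = pD π e ∨ (D : Ei) = -pD π e) {i₀ : QB}
    {hi : i₀ ^ 2 + i₀ + 1 = 0} {v : J → ZMod 3} {h : GK i₀ → ZMod 3}
    (hh : Kc hi (∏ j, π j ^ (e j * v j).val) h) {c : QB ≃ₐ[ℚ] QB} (hc : c i₀ = -1 - i₀)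
    (hinv : ∀ σ τ : GK i₀, c * rs τ = rs σ * c → h τ = h σ) :
    ∀ i j, π i = star (π j) → v i = -v j := by
  choose σ hσ using Pool.Agent.Y405.CT.exists_sigma hD hDp
  have hσσ : ∀ j, σ (σ j) = j := fun j =>
    Pool.Agent.Y405.CT.pi_inj hD (by rw [hσ, hσ, star_star])
  have hes : ∀ j, e (σ j) = e j := fun j => Pool.Agent.Y405.CT.e_sigma hD hDp (hσ j)
  obtain ⟨B, hBe⟩ : ∃ B, B = ∏ j, π j ^ (e j * v j).val := ⟨_, rfl⟩
  have hB : B ≠ 0 := by rw [hBe]; exact Pool.Agent.Y48.CT.SEL.pr0 hD _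
  rw [← hBe] at hh
  have hsB : star B = ∏ j, π j ^ (e j * v (σ j)).val := by
    have h2 : star (∏ j, π j ^ (e j * v j).val) = ∏ j, star (π j ^ (e j * v j).val) := by
      have := map_prod (starRingEnd Ei) (fun i => π i ^ (e i * v i).val) Finset.univ
      exact this
    rw [hBe, h2]
    refine Finset.prod_nbij' σ σ (fun _ _ => Finset.mem_univ _) (fun _ _ => Finset.mem_univ _)
      (fun i _ => hσσ i) (fun i _ => hσσ i) ?_
    intro i _
    rw [hes, hσσ, hσ, star_pow]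
  have hsB0 : star B ≠ 0 := by rw [hsB]; exact Pool.Agent.Y48.CT.SEL.pr0 hD _
  obtain ⟨β, hβ⟩ := ex_root (ev i₀ hi B)
  have hβ0 : β ≠ 0 := root_ne (hi := hi) hB hβ
  have hi' : (-1 - i₀) ^ 2 + (-1 - i₀) + 1 = 0 := by linear_combination hi
  have hγ3 : (c β) ^ 3 = ev i₀ hi (star B) := by
    rw [← map_pow, hβ, ← ev_star hi hi']
    exact map_ev c.toRingEquiv.toRingHom hi hi' hc B
  have hact : ∀ s : GK i₀, s (c β) = i₀ ^ (-h s).val * c β := by
    intro s
    obtain ⟨τ, hτ⟩ : ∃ τ : GK i₀, rs τ = c⁻¹ * (rs s * c) := by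
      apply rs_ex
      rw [AlgEquiv.mul_apply, AlgEquiv.mul_apply, hc, rs_apply, map_sub, map_neg, map_one,
        gk_fix]
      apply c.injective
      have h3 : c (c⁻¹ (-1 - i₀)) = -1 - i₀ := c.apply_symm_apply _
      rw [h3, hc]
    have h1 : c * rs τ = rs s * c := by rw [hτ, mul_inv_cancel_left]
    have h2 : s (c β) = c (τ β) := by
      have h3 := DFunLike.congr_fun h1 β
      rw [AlgEquiv.mul_apply, AlgEquiv.mul_apply, rs_apply, rs_apply] at h3
      exact h3.symm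
    rw [h2, hh β hβ τ, map_mul, map_pow, hc, ip_neg hi, hinv s τ h1]
  have hk2 : Kc hi (star B) (fun s => -h s) :=
    kc_of hi ((map_ne_zero c).2 hβ0) hγ3 hact
  have h3 := kc_mul hB hsB0 hh hk2
  have e1 : B * star B = ∏ j, π j ^ ((e j * v j).val + (e j * v (σ j)).val) := by
    rw [hsB, hBe, ← Finset.prod_mul_distrib]
    exact Finset.prod_congr rfl fun i _ => (pow_add _ _ _).symm
  rw [e1] at h3
  have h4 : Kc hi (∏ j, π j ^ (e j * v j + e j * v (σ j)).val) (fun s => h s + -h s) := by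
    refine kc_exp (Pool.Agent.Y48.CT.SEL.p0 hD) (fun i => ?_) h3
    push_cast
    rw [ZMod.natCast_zmod_val, ZMod.natCast_zmod_val, ZMod.natCast_zmod_val]
  intro i j hij
  have h5 := exp_zero hD (fun j => e j * v j + e j * v (σ j)) h4 (fun s => add_neg_cancel _) j
  have h6 : e j * (v j + v (σ j)) = 0 := by
    rw [mul_add]
    exact h5
  have h7 : i = σ j := Pool.Agent.Y405.CT.pi_inj hD (by rw [hij, hσ])
  haveI : Fact (Nat.Prime 3) := ⟨Nat.prime_three⟩
  rcases mul_eq_zero.1 h6 with h8 | h8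
  · exact absurd h8 (hD.e0 j)
  · rw [h7]
    rw [add_comm] at h8
    exact eq_neg_of_add_eq_zero_left h8

/-- **the Selmer group of the isogeny and the odd kernel vectors** -/
theorem phi_card {D : ℕ} (hC : Cls D) {J : Type} [Fintype J] {π : J → Ei} {e : J → ZMod 3}
    (hD : Dt π e) (hDp : (D : Ei) = pD π e ∨ (D : Ei) = -pD π e) (j₀ : J) :
    Finite (SelPhi (EQ (WD (D : ℤ)))) ∧ Nat.card (SelPhi (EQ (WD (D : ℤ)))) =
    {v : J → ZMod 3 | (∀ j, ∑ i, e i * cs (π j) (π i) * (v i - v j) = 0) ∧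
      ∀ i j, π i = star (π j) → v i = -v j}.ncard := by
  obtain ⟨V, hV⟩ : ∃ V, V = {v : J → ZMod 3 |
    (∀ j, ∑ i, e i * cs (π j) (π i) * (v i - v j) = 0) ∧
      ∀ i j, π i = star (π j) → v i = -v j} := ⟨_, rfl⟩
  rw [← hV]
  have hV' : ∀ v, v ∈ V ↔ (∀ j, ∑ i, e i * cs (π j) (π i) * (v i - v j) = 0) ∧
      ∀ i j, π i = star (π j) → v i = -v j := by
    intro v
    rw [hV]
    rfl
  obtain ⟨i₀, hi⟩ : ∃ i₀ : QB, i₀ ^ 2 + i₀ + 1 = 0 := by
    obtain ⟨x, hx⟩ := IsAlgClosed.exists_root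
      (Polynomial.X ^ 2 + Polynomial.X + 1 : Polynomial QB) (by
        have : (Polynomial.X ^ 2 + Polynomial.X + 1 : Polynomial QB).degree = 2 := by
          compute_degree!
        rw [this]
        norm_num)
    refine ⟨x, ?_⟩
    have h1 := hx
    rw [Polynomial.IsRoot] at h1
    simpa using h1
  have hne : pD π e ≠ 0 := Pool.Agent.Y48.CT.SEL.pr0 hD _
  obtain ⟨u, a, hT⟩ := Pool.Agent.Y319.CT.exists_tw hi hne
  have h9 : ¬ (9 : ℤ) ∣ nr (pD π e) - 1 := Pool.Agent.Y319.CT.nr_nine hC hDp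
  -- the twist by the rational integer
  have hD0 : (D : ℤ) ≠ 0 := Int.natCast_ne_zero.2 hC.1.1
  obtain ⟨u', hT'⟩ : ∃ u' : QB, Tw hi ((D : ℤ) : Ei) u' a := by
    rcases hDp with h | h
    · refine ⟨u, ?_⟩
      have e1 : ((D : ℤ) : Ei) = pD π e := by rw [Int.cast_natCast, h]
      rw [e1]
      exact hT
    · refine ⟨-u, ?_⟩
      have e1 : ((D : ℤ) : Ei) = -pD π e := by rw [Int.cast_natCast, h]
      rw [e1]
      refine ⟨?_, fun σ => ?_⟩
      · rw [Odd.neg_pow (by decide), hT.cube, map_neg]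
      · rw [map_neg, hT.act σ]
        ring
  have hu : u' ^ 3 = ((D : ℤ) : QB) := by
    rw [hT'.cube, map_intCast]
  have ha := hT'.act
  -- from the vectors to the classes
  have hex : ∀ v : V, ∃ (h : GK i₀ → ZMod 3) (g : (QB ≃ₐ[ℚ] QB) → ZMod 3),
      Kc hi (∏ j, π j ^ (e j * v.1 j).val) h ∧ Ext h g ∧
      (fun σ => Ph hD0 hu (tt QB (g σ)) : (QB ≃ₐ[ℚ] QB) → PD D QB) ∈
        shaCoc (EQ (WD (D : ℤ))) := by
    rintro ⟨v, hv⟩
    obtain ⟨hv1, hv2⟩ := (hV' v).1 hv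
    have hB0 : ∏ j, π j ^ (e j * v j).val ≠ 0 := Pool.Agent.Y48.CT.SEL.pr0 hD _
    obtain ⟨h, hh⟩ := exists_char hi hB0
    obtain ⟨C, hCB⟩ := norm_cube hD hDp hv2
    obtain ⟨g, hg⟩ := Pool.Agent.Y894.CT.t_EXT i₀ hi _ C hB0 hCB h hh
    have hloc := kloc Pool.Agent.Y319.CT.t_FF Pool.Agent.Y379.CT.t_CUB
      Pool.Agent.Y100.CT.CUB3.t_cub3 Pool.Agent.Y674.CT.t_PT Pool.Agent.Y379.CT.t_RAMC J π e hD
      h9 i₀ hi u a hT v hv1 h hh
    exact ⟨h, g, hh, hg, char_coc hD0 hi hu ha hg hloc⟩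
  choose h g hh hg hm using hex
  let Θ : V → SelPhi (EQ (WD (D : ℤ))) := fun v =>
    ⟨⟨_, hm v⟩, fun σ => (inker_iff hD0 hu hi _).2 ⟨g v σ, rfl⟩⟩
  have hΘ : Function.Injective Θ := by
    intro v v' hvv
    have h1 : ∀ σ, Ph hD0 hu (tt QB (g v σ)) = Ph hD0 hu (tt QB (g v' σ)) := fun σ =>
      congrFun (congrArg (fun z : SelPhi (EQ (WD (D : ℤ))) => z.1.1) hvv) σ
    have h2 : ∀ σ, h v σ = h v' σ := by
      intro σ
      rw [← (hg v).res σ, ← (hg v').res σ]
      exact tt_inj ((Ph hD0 hu).injective (h1 _))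
    have h3 : Kc hi (∏ j, π j ^ (e j * v.1 j).val) (h v') := by
      have := hh v
      exact kc_congr this fun σ => (h2 σ).symm
    exact Subtype.ext (ker_uniq (hi := hi) hD h3 (hh v'))
  -- from the classes to the vectors
  obtain ⟨c, hcj⟩ := exists_conj hi
  have hex2 : ∀ f : SelPhi (EQ (WD (D : ℤ))), ∃ v : V, ∃ g : (QB ≃ₐ[ℚ] QB) → ZMod 3,
      (∀ σ, f.1.1 σ = Ph hD0 hu (tt QB (g σ))) ∧ (∀ σ τ, g (σ * τ) = g σ + g τ) ∧
      Kc hi (∏ j, π j ^ (e j * v.1 j).val) (fun σ => g (rs σ)) := by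
    rintro ⟨f, hf⟩
    have h1 : ∀ σ, ∃ c : ZMod 3, f.1 σ = Ph hD0 hu (tt QB c) := fun σ =>
      (inker_iff hD0 hu hi _).1 (hf σ)
    choose g hg using h1
    obtain ⟨⟨-, hm⟩, -, -⟩ := f.2
    have hm' : ∀ σ τ, f.1 (σ * τ) = f.1 σ + wa (EQ (WD (D : ℤ))) σ.toAlgHom (f.1 τ) := hm
    have hgm : ∀ σ τ, g (σ * τ) = g σ + g τ := by
      intro σ τ
      apply tt_inj (L := QB)
      apply (Ph hD0 hu).injective
      have h2 : wa (EQ (WD (D : ℤ))) σ.toAlgHom (Ph hD0 hu (tt QB (g τ))) =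
          Ph hD0 hu (tt QB (g τ)) := ac_tt hD0 hu hu σ.toAlgHom (g τ)
      rw [← hg, hm', hg σ, hg τ, h2, tt_add, map_add]
    have hsel : (fun σ : GK i₀ => g (rs σ)) ∈ SelH hi a := by
      rw [selH_iff]
      have h2 := res_coG (twE hD0 hi hu ha) f
      have e : (fun σ : GK i₀ => (twE hD0 hi hu ha).Φ.symm (f.1 (rs σ))) =
          tm i₀ (fun σ : GK i₀ => g (rs σ)) := by
        funext σ
        rw [hg]
        exact (Ph hD0 hu).symm_apply_apply _
      rw [e] at h2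
      exact h2
    obtain ⟨v, hv, hk⟩ := sel_ker Pool.Agent.Y180.CT.t_loc3 Pool.Agent.Y153.CTRAM.t_RAM
      Pool.Agent.Y153.CTRAM.t_UNR hD h9 hT hsel
    refine ⟨⟨v, (hV' v).2 ⟨hv, ?_⟩⟩, g, hg, hgm, hk⟩
    refine odd_of_inv hD hDp hk hcj fun σ τ hστ => ?_
    have h3 : g (c * rs τ) = g (rs σ * c) := by rw [hστ]
    rw [hgm, hgm, add_comm] at h3
    exact add_right_cancel h3
  choose V2 g2 k1 k2 k3 using hex2
  have hV2 : Function.Injective V2 := by
    intro f f' hff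
    have h1 : ∀ σ : GK i₀, g2 f (rs σ) = g2 f' (rs σ) := by
      intro σ
      have h2 := k3 f
      rw [hff] at h2
      exact kc_uniq (Pool.Agent.Y48.CT.SEL.pr0 hD _) h2 (k3 f') σ
    -- the values on the whole group
    have h2 : ∀ σ : QB ≃ₐ[ℚ] QB, g2 f σ = g2 f' σ := by
      intro σ
      have h3 : ∀ f : SelPhi (EQ (WD (D : ℤ))), g2 f (σ * σ) = 2 * g2 f σ := by
        intro f
        rw [k2, two_mul]
      have h4 : (σ * σ) i₀ = i₀ := by
        have h1 : (σ i₀) ^ 2 + σ i₀ + 1 = 0 := by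
          rw [← map_pow, ← map_add, ← map_one σ, ← map_add, hi, map_zero]
        have h2 : (σ i₀ - i₀) * (σ i₀ - (-1 - i₀)) = 0 := by linear_combination h1 - hi
        rcases mul_eq_zero.1 h2 with h3 | h3
        · rw [AlgEquiv.mul_apply, sub_eq_zero.1 h3, sub_eq_zero.1 h3]
        · rw [AlgEquiv.mul_apply, sub_eq_zero.1 h3, map_sub, map_neg, map_one, sub_eq_zero.1 h3]
          ring
      obtain ⟨τ, hτ⟩ := rs_ex h4
      have h5 := h1 τ
      rw [hτ, h3, h3] at h5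
      have key : ∀ x y : ZMod 3, 2 * x = 2 * y → x = y := by decide
      exact key _ _ h5
    apply Subtype.ext
    apply Subtype.ext
    funext σ
    rw [k1, k1, h2]
  have hfin : Finite (SelPhi (EQ (WD (D : ℤ)))) := Finite.of_injective V2 hV2
  refine ⟨hfin, le_antisymm ?_ ?_⟩
  · rw [← Nat.card_coe_set_eq]
    exact Nat.card_le_card_of_injective V2 hV2
  · rw [← Nat.card_coe_set_eq]
    exact Nat.card_le_card_of_injective Θ hΘ

end Pool.Agent.QS543
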