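import Pool.Agent.QS543.Phi

/-!
# Project QS (helper543): the orders of the two Selmer groups
-/

set_option autoImplicit false
set_option linter.unusedVariables false
set_option linter.unusedSectionVars false

open scoped Classical

namespace Pool.Agent.QS543

open WeierstrassCurve
open Pool.Agent.Y692.QS (Ei w nr toC)
open Pool.Agent.Y715.T.Rec (cs)
open Pool.Agent.Y703.CT (Dt pD Cls EQ WD)
open Pool.Agent.QL543 (Spl)

/-- the number of the odd kernel vectors -/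
theorem odd_card {D : ℕ} (hC : Cls D) {n : ℕ} {π : Fin n → Ei} {e : Fin n → ZMod 3}
    (hdt : Dt π e) (hD : (D : Ei) = pD π e ∨ (D : Ei) = -pD π e) {s : ℕ}
    (hs : (Spl D).ncard = 3 ^ (s + 1)) :
    {v : Fin n → ZMod 3 | (∀ j, ∑ i, e i * cs (π j) (π i) * (v i - v j) = 0) ∧
      ∀ i j, π i = star (π j) → v i = -v j}.ncard = 3 ^ s := by
  obtain ⟨V, hV⟩ : ∃ V, V = {v : Fin n → ZMod 3 |
    (∀ j, ∑ i, e i * cs (π j) (π i) * (v i - v j) = 0) ∧
      ∀ i j, π i = star (π j) → v i = -v j} := ⟨_, rfl⟩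
  obtain ⟨U, hU⟩ : ∃ U, U = {v : Fin n → ZMod 3 |
    (∀ j, ∑ i, e i * cs (π j) (π i) * (v i - v j) = 0) ∧
      ∀ i j, π i = star (π j) → v i = v j} := ⟨_, rfl⟩
  obtain ⟨K, hK⟩ : ∃ K, K = {v : Fin n → ZMod 3 |
    ∀ j, ∑ i, e i * cs (π j) (π i) * (v i - v j) = 0} := ⟨_, rfl⟩
  have hf : (Spl D).Finite := Set.finite_of_ncard_ne_zero (by rw [hs]; positivity)
  have h1 := spl_le_odd hC hdt hD
  have h2 := spl_le_even hC.1.1 hdt hD
  have h3 := Pool.Agent.QL543.ker_le hC hdt hD hf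
  rw [← hV, hs] at h1
  rw [← hU, hs] at h2
  rw [← hK, hs] at h3
  rw [← hV]
  choose σ hσ using Pool.Agent.Y405.CT.exists_sigma hdt hD
  have hF : (V ×ˢ U).ncard ≤ K.ncard := by
    refine Set.ncard_le_ncard_of_injOn (fun x => x.1 + x.2) ?_ ?_ (Set.toFinite _)
    · rintro ⟨x, y⟩ ⟨hx, hy⟩
      have hx' : x ∈ V := hx
      have hy' : y ∈ U := hy
      rw [hV] at hx'
      rw [hU] at hy'
      rw [hK]
      intro j
      have h4 := hx'.1 j
      have h5 := hy'.1 j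
      have h6 : ∑ i, e i * cs (π j) (π i) * ((x + y) i - (x + y) j) =
          ∑ i, e i * cs (π j) (π i) * (x i - x j) + ∑ i, e i * cs (π j) (π i) * (y i - y j) := by
        rw [← Finset.sum_add_distrib]
        refine Finset.sum_congr rfl fun i _ => ?_
        rw [Pi.add_apply, Pi.add_apply]
        ring
      show ∑ i, e i * cs (π j) (π i) * ((x + y) i - (x + y) j) = 0
      rw [h6, h4, h5, add_zero]
    · rintro ⟨x, y⟩ ⟨hx, hy⟩ ⟨x', y'⟩ ⟨hx', hy'⟩ hxy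
      have a1 : x ∈ V := hx
      have a2 : y ∈ U := hy
      have a3 : x' ∈ V := hx'
      have a4 : y' ∈ U := hy'
      rw [hV] at a1 a3
      rw [hU] at a2 a4
      have h4 : ∀ j, x j + y j = x' j + y' j := fun j => congrFun hxy j
      have key : ∀ p q r t : ZMod 3, p + q = r + t → -p + q = -r + t → p = r ∧ q = t := by
        decide
      have h5 : ∀ j, x j = x' j ∧ y j = y' j := by
        intro j
        have h6 := h4 (σ j)
        rw [a1.2 (σ j) j (hσ j), a3.2 (σ j) j (hσ j), a2.2 (σ j) j (hσ j),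
          a4.2 (σ j) j (hσ j)] at h6
        exact key _ _ _ _ (h4 j) h6
      rw [Prod.mk.injEq]
      exact ⟨funext fun j => (h5 j).1, funext fun j => (h5 j).2⟩
  rw [Set.ncard_prod] at hF
  apply le_antisymm
  · have h4 : 3 * (V.ncard * 3 ^ (s + 1)) ≤ 3 * (3 ^ s * 3 ^ (s + 1)) := by
      calc 3 * (V.ncard * 3 ^ (s + 1)) ≤ 3 * (V.ncard * U.ncard) := by gcongr
        _ ≤ 3 * K.ncard := by gcongr
        _ ≤ (3 ^ (s + 1)) ^ 2 := h3
        _ = 3 * (3 ^ s * 3 ^ (s + 1)) := by ring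
    have h5 := Nat.le_of_mul_le_mul_left h4 (by norm_num)
    exact Nat.le_of_mul_le_mul_right h5 (by positivity)
  · rw [pow_succ, mul_comm] at h1
    exact Nat.le_of_mul_le_mul_left h1 (by norm_num)

/-- **the orders of the Selmer groups** -/
theorem main3 {D : ℕ} (hC : Cls D) {s : ℕ} (hs : (Spl D).ncard = 3 ^ (s + 1)) :
    (Finite (SelPhi (EQ (WD (D : ℤ)))) ∧ Nat.card (SelPhi (EQ (WD (D : ℤ)))) = 3 ^ s) ∧
    (Finite (Sel3 (EQ (WD (D : ℤ)))) ∧ 3 ^ (s + 1) ≤ Nat.card (Sel3 (EQ (WD (D : ℤ)))) ∧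
      Nat.card (Sel3 (EQ (WD (D : ℤ)))) ≤ 3 ^ (2 * s + 1)) := by
  obtain ⟨⟨h1, h2⟩, -⟩ := bound3 hC hs
  obtain ⟨n, π, e, hdt, hD⟩ := Pool.Agent.Y274.CT.t_exi D hC.1
  obtain ⟨q, -⟩ := Pool.Agent.Y405.CT.fixed hC hdt hD
  obtain ⟨h3, h4⟩ := phi_card hC hdt hD q
  rw [odd_card hC hdt hD hs] at h4
  exact ⟨⟨h3, h4⟩, h1, low hC hs, h2⟩

end Pool.Agent.QS543
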