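import Pool.Agent.QS543.Coh
import Pool.Agent.Y692.CT.Desq

/-!
# Project QS (helper543): the restriction of the Tate-Shafarevich group from `ℚ` to `ℚ(ω)`, for the
curves over `ℚ` which become isomorphic to `y² + D y = x³` over `ℚ(ω)`
-/

set_option autoImplicit false
set_option linter.unusedVariables false
set_option linter.unusedSectionVars false

open scoped Classical

namespace Pool.Agent.QS543

open WeierstrassCurve
open Pool.Agent.Y692.QS (Ei w nr toC)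
open Pool.Agent.Y715.T.Gi Pool.Agent.Y715.T.Nr Pool.Agent.Y715.T.Df Pool.Agent.Y715.T.Ell
open Pool.Agent.Y703.CT
open Pool.Agent.Y155.CT (ah ah_apply dd Co ah_im ah_dd im3 dd_apply)
open Pool.Agent.Y692.CT (rs rs_apply rs_mul rs_ex rs_cont)
open Pool.Agent.W262.SH (IsCoc IsCob LocTriv shaCoc cob Sha)

/-- the points of `W` -/
abbrev WP (W : WeierstrassCurve ℚ) (L : Type) [Field L] [Algebra ℚ L] : Type :=
  Pool.Agent.W262.SH.Pt W L

/-- the action on the points of `W` -/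
noncomputable abbrev wa (W : WeierstrassCurve ℚ) {F L : Type} [Field F] [Field L] [Algebra ℚ F]
    [Algebra ℚ L] (φ : F →ₐ[ℚ] L) : WP W F →+ WP W L := Pool.Agent.W262.SH.act W φ

/-- the data which make `W` a form of `y² + y = x³` -/
structure TwF (W : WeierstrassCurve ℚ) {i₀ : QB} (hi : i₀ ^ 2 + i₀ + 1 = 0)
    (a : GK i₀ → ZMod 3) where
  /-- the isomorphism over `QB` -/
  Φ : Pt QB ≃+ WP W QB
  act : ∀ (σ : GK i₀) (P : Pt QB), wa W (gh σ) (Φ P) = Φ (Pool.Agent.Y703.CT.act hi a σ P)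
  cth : ∀ c : QB ≃ₐ[ℚ] QB, c i₀ = -1 - i₀ → ∀ P : Pt QB,
    wa W c.toAlgHom (Φ (th hi P)) = -Φ (th hi (Φ.symm (wa W c.toAlgHom (Φ P))))
  loc : ∀ (p : ℕ) [Fact p.Prime] (ι : QB →ₐ[ℚ] PadicAlgCl p),
    ∃ Φp : Pt (PadicAlgCl p) ≃+ WP W (PadicAlgCl p), (∀ P, Φp (pm ι P) = wa W ι (Φ P)) ∧
      ∀ (τ : Au p) (σ : GK i₀), Cmp ι τ σ → ∀ R : Pt (PadicAlgCl p),
        wa W (lh τ) (Φp R) = Φp (jj (iota_sq' hi ι) (a σ) (pm (lh τ) R))

variable {W : WeierstrassCurve ℚ} {i₀ : QB} {hi : i₀ ^ 2 + i₀ + 1 = 0}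
  {a : GK i₀ → ZMod 3} (F : TwF W hi a)
  (ha : ∀ σ τ, a (σ * τ) = a σ + a τ) (hc : IsLocallyConstant a)

lemma wa_mul (σ τ : QB ≃ₐ[ℚ] QB) (P : WP W QB) :
    wa W (σ * τ).toAlgHom P = wa W σ.toAlgHom (wa W τ.toAlgHom P) :=
  (Pool.Agent.TH841.SH.act_act W τ.toAlgHom σ.toAlgHom P).symm

include hi in
/-- a cocycle whose restriction to `ℚ(ω)` is a coboundary (from `Y692/CT/Desq.lean`) -/
theorem quadG (g : (QB ≃ₐ[ℚ] QB) → WP W QB)
    (hg : ∀ σ τ, g (σ * τ) = g σ + wa W σ.toAlgHom (g τ)) (h0 : ∀ σ, σ i₀ = i₀ → g σ = 0) :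
    ∃ Q : WP W QB, ∀ σ, 2 • g σ = wa W σ.toAlgHom Q - Q := by
  obtain ⟨c, hc⟩ := exists_conj hi
  have hne : ∀ σ : QB ≃ₐ[ℚ] QB, σ i₀ = i₀ ∨ σ i₀ = -1 - i₀ := by
    intro σ
    have h1 : (σ i₀) ^ 2 + σ i₀ + 1 = 0 := by
      rw [← map_pow, ← map_add, ← map_one σ, ← map_add, hi, map_zero]
    have h2 : (σ i₀ - i₀) * (σ i₀ - (-1 - i₀)) = 0 := by linear_combination h1 - hi
    rcases mul_eq_zero.1 h2 with h3 | h3
    · exact Or.inl (sub_eq_zero.1 h3)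
    · exact Or.inr (sub_eq_zero.1 h3)
  have hconj : ∀ σ : QB ≃ₐ[ℚ] QB, σ i₀ = -1 - i₀ → ∀ τ : QB ≃ₐ[ℚ] QB, τ i₀ = -1 - i₀ →
      (σ * τ) i₀ = i₀ := by
    intro σ hσ τ hτ
    rw [AlgEquiv.mul_apply, hτ, map_sub, map_neg, map_one, hσ]
    ring
  -- the value on the complement
  have hval : ∀ σ : QB ≃ₐ[ℚ] QB, σ i₀ = -1 - i₀ → g σ = g c := by
    intro σ hσ
    have h1 : g (c * (c⁻¹ * σ)) = g c + wa W c.toAlgHom (g (c⁻¹ * σ)) := hg _ _
    have h2 : (c⁻¹ * σ) i₀ = i₀ := by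
      apply c.injective
      rw [AlgEquiv.mul_apply]
      have h3 : c (c⁻¹ (σ i₀)) = σ i₀ := c.apply_symm_apply _
      rw [h3, hσ, hc]
    rw [mul_inv_cancel_left, h0 _ h2, map_zero, add_zero] at h1
    exact h1
  have hcc : g c + wa W c.toAlgHom (g c) = 0 := by
    rw [← hg, h0 _ (hconj c hc c hc)]
  refine ⟨-g c, fun σ => ?_⟩
  rcases hne σ with h1 | h1
  · -- `σ` fixes `ω`
    have h2 : g (σ * c) = wa W σ.toAlgHom (g c) := by rw [hg, h0 σ h1, zero_add]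
    have h3 : g (σ * c) = g c := by
      apply hval
      rw [AlgEquiv.mul_apply, hc, map_sub, map_neg, map_one, h1]
    rw [h0 σ h1, smul_zero, map_neg, ← h2, h3]
    abel
  · have h2 : g σ + wa W σ.toAlgHom (g σ) = 0 := by
      rw [← hg, h0 _ (hconj σ h1 σ h1)]
    rw [hval σ h1] at h2 ⊢
    rw [map_neg]
    have h3 : wa W σ.toAlgHom (g c) = -g c := by
      rw [eq_neg_iff_add_eq_zero, add_comm]
      exact h2
    rw [h3]
    abel

/-- `√-3` -/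
noncomputable def ThG : WP W QB →+ WP W QB :=
  (F.Φ.toAddMonoidHom.comp (th hi)).comp F.Φ.symm.toAddMonoidHom

lemma ThG_apply (Q : WP W QB) : ThG F Q = F.Φ (th hi (F.Φ.symm Q)) := rfl

lemma ThG_Ph (P : Pt QB) : ThG F (F.Φ P) = F.Φ (th hi P) := by
  rw [ThG_apply, AddEquiv.symm_apply_apply]

lemma wa_Th {c : QB ≃ₐ[ℚ] QB} (hcc : c i₀ = -1 - i₀) (Q : WP W QB) :
    wa W c.toAlgHom (ThG F Q) = -ThG F (wa W c.toAlgHom Q) := by
  obtain ⟨P, rfl⟩ := F.Φ.surjective Q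
  rw [ThG_Ph, F.cth c hcc, ThG_apply]

lemma wa_Th' (σ : GK i₀) (Q : WP W QB) :
    wa W (rs σ).toAlgHom (ThG F Q) = ThG F (wa W (rs σ).toAlgHom Q) := by
  obtain ⟨P, rfl⟩ := F.Φ.surjective Q
  rw [ThG_Ph]
  have h1 := F.act σ (th hi P)
  have h2 := F.act σ P
  have h3 : (rs σ).toAlgHom = gh σ := rfl
  rw [h3, h1, h2, ThG_Ph]
  congr 1
  exact ah_th hi a σ P

/-! ### restriction -/

lemma res_coG (f : shaCoc W) : Co hi a (fun σ => F.Φ.symm (f.1 (rs σ))) := by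
  obtain ⟨⟨hcc, hm⟩, hl, -⟩ := f.2
  let f' : GK i₀ → Pt QB := fun σ => F.Φ.symm (f.1 (rs σ))
  have hf' : ∀ σ, F.Φ (f' σ) = f.1 (rs σ) := fun σ => F.Φ.apply_symm_apply _
  have h1 : IsLocallyConstant f' := (hcc.comp_continuous rs_cont).comp _
  have h2 : ∀ σ τ, f' (σ * τ) = f' σ + act hi a σ (f' τ) := by
    intro σ τ
    apply F.Φ.injective
    rw [map_add, hf', hf', ← F.act, hf', rs_mul, hm]
    rfl
  have h3 : ∀ (p : ℕ) [Fact p.Prime] (ι : QB →ₐ[ℚ] PadicAlgCl p), ∃ R : Pt (PadicAlgCl p),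
      ∀ (τ : Au p) (σ : GK i₀), Cmp ι τ σ →
        pm ι (f' σ) = jj (iota_sq' hi ι) (a σ) (pm (lh τ) R) - R := by
    intro p _ ι
    obtain ⟨P0, hP0⟩ : ∃ P0 : WP W (PadicAlgCl p), ∀ (τ : Au p) (σ : QB ≃ₐ[ℚ] QB),
        (lh τ).comp ι = ι.comp σ.toAlgHom → wa W ι (f.1 σ) = wa W (lh τ) P0 - P0 := hl p ι
    obtain ⟨Φp, k1, k2⟩ := F.loc p ι
    refine ⟨Φp.symm P0, fun τ σ hcmp => ?_⟩
    apply Φp.injective
    rw [k1, hf', map_sub, ← k2 τ σ hcmp, AddEquiv.apply_symm_apply]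
    exact hP0 τ (rs σ) (AlgHom.ext fun x => hcmp x)
  exact ⟨h1, h2, h3⟩

/-- restriction of the cocycles -/
noncomputable def r0 : shaCoc W →+ ZG hi a ha hc where
  toFun f := ⟨fun σ => F.Φ.symm (f.1 (rs σ)), res_coG F f⟩
  map_zero' := by
    apply Subtype.ext
    funext σ
    exact map_zero F.Φ.symm
  map_add' := fun f g => by
    apply Subtype.ext
    funext σ
    exact map_add F.Φ.symm _ _

/-- restriction of the classes -/
noncomputable def r1 : Sha W →+ HG hi a ha hc :=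
  QuotientAddGroup.map _ _ (r0 F ha hc) (by
    intro f hf
    obtain ⟨P, hP⟩ := hf
    have hP' : ∀ σ, f.1 σ = wa W σ.toAlgHom P - P := hP
    refine ⟨F.Φ.symm P, ?_⟩
    funext σ
    show act hi a σ (F.Φ.symm P) - F.Φ.symm P = F.Φ.symm (f.1 (rs σ))
    apply F.Φ.injective
    rw [map_sub, ← F.act, AddEquiv.apply_symm_apply, AddEquiv.apply_symm_apply, hP']
    rfl)

lemma r1_mk (f : shaCoc W) :
    r1 F ha hc (QuotientAddGroup.mk f) = QuotientAddGroup.mk (r0 F ha hc f) := rfl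

include hi in
/-- a class killed by three whose restriction is zero is zero (from `Y692/CT/Desq.lean`) -/
lemma inj_res (f : shaCoc W) {P : WP W QB}
    (hP' : ∀ σ, 3 • f.1 σ = wa W σ.toAlgHom P - P) {P' : WP W QB}
    (h5 : ∀ σ : GK i₀, f.1 (rs σ) = wa W (rs σ).toAlgHom P' - P') :
    (QuotientAddGroup.mk f : Sha W) = 0 := by
  obtain ⟨⟨hcc, hm⟩, hl, -⟩ := f.2
  obtain ⟨Q, hQ⟩ := quadG (hi := hi) (fun σ => f.1 σ - (wa W σ.toAlgHom P' - P')) (by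
    intro σ τ
    show f.1 (σ * τ) - _ = f.1 σ - _ + wa W σ.toAlgHom (f.1 τ - _)
    have h6 : f.1 (σ * τ) = f.1 σ + wa W σ.toAlgHom (f.1 τ) := hm σ τ
    rw [h6, wa_mul, map_sub, map_sub]
    abel) (by
    intro σ hσ
    obtain ⟨τ, rfl⟩ := rs_ex hσ
    show f.1 (rs τ) - _ = 0
    rw [h5, sub_self])
  rw [QuotientAddGroup.eq_zero_iff, AddSubgroup.mem_addSubgroupOf]
  refine ⟨P - (2 • P' + Q), fun σ => ?_⟩
  have h7 : 2 • (f.1 σ - (wa W σ.toAlgHom P' - P')) = wa W σ.toAlgHom Q - Q := hQ σ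
  have h8 := hP' σ
  show f.1 σ = wa W σ.toAlgHom (P - (2 • P' + Q)) - (P - (2 • P' + Q))
  rw [map_sub, map_add, map_nsmul]
  have h9 : 3 • f.1 σ = 2 • f.1 σ + f.1 σ := succ_nsmul _ 2
  have h10 : 2 • f.1 σ = wa W σ.toAlgHom Q - Q + 2 • (wa W σ.toAlgHom P' - P') := by
    rw [← h7, smul_sub]
    abel
  rw [h9, h10] at h8
  have h11 : f.1 σ = wa W σ.toAlgHom P - P -
      (wa W σ.toAlgHom Q - Q + 2 • (wa W σ.toAlgHom P' - P')) := by
    rw [← h8]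
    abel
  rw [h11]
  simp only [smul_sub]
  abel

/-- the `3`-torsion of the Tate-Shafarevich group -/
noncomputable def X3 (W : WeierstrassCurve ℚ) : AddSubgroup (Sha W) :=
  (nsmulAddMonoidHom (α := Sha W) 3).ker

lemma mem_X3 {x : Sha W} : x ∈ X3 W ↔ 3 • x = 0 := Iff.rfl

/-- the restriction of the `3`-torsion -/
noncomputable def r3 : X3 W →+ HG hi a ha hc := (r1 F ha hc).comp (X3 W).subtype

/-- the two parts are disjoint -/
theorem disj (x y : X3 W)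
    (h : r3 F ha hc x = thH hi a ha hc (r3 F ha hc y)) : x = 0 := by
  obtain ⟨x, hx⟩ := x
  obtain ⟨y, hy⟩ := y
  obtain ⟨f, rfl⟩ := QuotientAddGroup.mk_surjective x
  obtain ⟨g, rfl⟩ := QuotientAddGroup.mk_surjective y
  apply Subtype.ext
  have h' : (QuotientAddGroup.mk (r0 F ha hc f) : HG hi a ha hc) =
      QuotientAddGroup.mk (thZ hi a ha hc (r0 F ha hc g)) := h
  rw [← sub_eq_zero, ← QuotientAddGroup.mk_sub, mk_eq_zero] at h'
  obtain ⟨P0, hP0⟩ := h'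
  rw [mem_X3, ← QuotientAddGroup.mk_nsmul, QuotientAddGroup.eq_zero_iff,
    AddSubgroup.mem_addSubgroupOf] at hx
  obtain ⟨P3, hP3⟩ := hx
  have hP3' : ∀ σ, 3 • f.1 σ = wa W σ.toAlgHom P3 - P3 := hP3
  obtain ⟨P, hPe⟩ : ∃ P, P = F.Φ P0 := ⟨_, rfl⟩
  have k1 : ∀ σ : GK i₀, f.1 (rs σ) = ThG F (g.1 (rs σ)) +
      (wa W (rs σ).toAlgHom P - P) := by
    intro σ
    have h1 : F.Φ.symm (f.1 (rs σ)) - th hi (F.Φ.symm (g.1 (rs σ))) =
      act hi a σ P0 - P0 := hP0 σ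
    have h2 := congrArg F.Φ h1
    rw [map_sub, map_sub, AddEquiv.apply_symm_apply, ← ThG_apply, ← F.act, ← hPe] at h2
    have h3 : (rs σ).toAlgHom = gh σ := rfl
    rw [h3, ← h2]
    abel
  obtain ⟨⟨-, hm⟩, -, -⟩ := f.2
  obtain ⟨⟨-, hn⟩, -, -⟩ := g.2
  have hm' : ∀ σ τ, f.1 (σ * τ) = f.1 σ + wa W σ.toAlgHom (f.1 τ) := hm
  have hn' : ∀ σ τ, g.1 (σ * τ) = g.1 σ + wa W σ.toAlgHom (g.1 τ) := hn
  obtain ⟨c, hcj⟩ := exists_conj hi
  have k2 : ∀ σ : GK i₀, 2 • f.1 (rs σ) = wa W (rs σ).toAlgHom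
      (wa W c.toAlgHom P - f.1 c - ThG F (g.1 c) + P) -
      (wa W c.toAlgHom P - f.1 c - ThG F (g.1 c) + P) := by
    intro σ
    obtain ⟨τ, hτ⟩ : ∃ τ : GK i₀, rs τ = c⁻¹ * (rs σ * c) := by
      apply rs_ex
      rw [AlgEquiv.mul_apply, AlgEquiv.mul_apply, hcj, rs_apply, map_sub, map_neg, map_one,
        gk_fix]
      apply c.injective
      have h3 : c (c⁻¹ (-1 - i₀)) = -1 - i₀ := c.apply_symm_apply _
      rw [h3, hcj]
    have h1 : c * rs τ = rs σ * c := by rw [hτ, mul_inv_cancel_left]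
    have e1 : wa W c.toAlgHom (f.1 (rs τ)) = f.1 (rs σ) + wa W (rs σ).toAlgHom (f.1 c) - f.1 c := by
      rw [← hm', ← h1, hm']
      abel
    have e2 : wa W c.toAlgHom (g.1 (rs τ)) = g.1 (rs σ) + wa W (rs σ).toAlgHom (g.1 c) - g.1 c := by
      rw [← hn', ← h1, hn']
      abel
    have e3 : wa W c.toAlgHom (wa W (rs τ).toAlgHom P) =
        wa W (rs σ).toAlgHom (wa W c.toAlgHom P) := by
      rw [← wa_mul, ← wa_mul, h1]
    have e4 := congrArg (wa W c.toAlgHom) (k1 τ)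
    rw [map_add, map_sub, e1, e3, wa_Th F hcj, e2, map_sub, map_add, ← wa_Th' F] at e4
    have e5 := k1 σ
    rw [map_add, map_sub, map_sub, two_nsmul]
    have e6 : f.1 (rs σ) = -(ThG F (g.1 (rs σ)) +
        wa W (rs σ).toAlgHom (ThG F (g.1 c)) - ThG F (g.1 c)) +
        (wa W (rs σ).toAlgHom (wa W c.toAlgHom P) - wa W c.toAlgHom P) -
        wa W (rs σ).toAlgHom (f.1 c) + f.1 c := by
      rw [← e4]
      abel
    nth_rewrite 1 [e6]
    rw [e5]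
    abel
  refine inj_res (hi := hi) f hP3' (P' := P3 - (wa W c.toAlgHom P - f.1 c - ThG F (g.1 c) + P))
    fun σ => ?_
  have h3 := hP3' (rs σ)
  have h2 := k2 σ
  have h4 : f.1 (rs σ) = 3 • f.1 (rs σ) - 2 • f.1 (rs σ) := by
    rw [succ_nsmul _ 2]
    abel
  rw [h4, h3, h2, map_sub]
  abel

/-- **the `3`-torsion of the Tate-Shafarevich group over `ℚ` and the classes over `ℚ(ω)` killed by
`√-3`** -/
theorem card_X3 (F : TwF W hi a) (hfin : Finite (thH hi a ha hc).ker) :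
    Finite (X3 W) ∧ Nat.card (X3 W) ≤ Nat.card (thH hi a ha hc).ker := by
  refine card_le_ker (thH hi a ha hc) (r3 F ha hc) (thH_thH hi a ha hc) (fun x => ?_)
    (disj F ha hc) hfin
  apply Subtype.ext
  exact mem_X3.1 x.2

end Pool.Agent.QS543
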