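import Pool.Agent.QS543.RatG

/-!
# Project QS (helper543): the `3`-Selmer group over `ℚ` and the Selmer characters over `ℚ(ω)`
-/

set_option autoImplicit false
set_option linter.unusedVariables false
set_option linter.unusedSectionVars false

open scoped Classical

namespace Pool.Agent.QS543

open WeierstrassCurve
open Pool.Agent.Y692.QS (Ei w nr toC)
open Pool.Agent.Y715.T.Gi Pool.Agent.Y715.T.Nr Pool.Agent.Y715.T.Df Pool.Agent.Y715.T.Ell
open Pool.Agent.Y703.CT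
open Pool.Agent.Y155.CT
open Pool.Agent.Y692.CT (rs rs_apply rs_mul rs_ex rs_cont)
open Pool.Agent.W262.SH (IsCoc IsCob LocTriv shaCoc cob Sha)
open Pool.Agent.XL6 (SelH)

/-! ### over `ℚ(ω)` -/

section K

variable {i₀ : QB} (hi : i₀ ^ 2 + i₀ + 1 = 0) (a : GK i₀ → ZMod 3)
  (ha : ∀ σ τ, a (σ * τ) = a σ + a τ) (hc : IsLocallyConstant a)

/-- the locally trivial cocycles killed by three -/
noncomputable def Z3 : AddSubgroup (GK i₀ → Pt QB) where
  carrier := {f | Co hi a f ∧ ∀ σ, 3 • f σ = 0}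
  zero_mem' := ⟨(ZG hi a ha hc).zero_mem, fun σ => smul_zero _⟩
  add_mem' := fun {f g} hf hg => ⟨(ZG hi a ha hc).add_mem hf.1 hg.1, fun σ => by
    show 3 • (f σ + g σ) = 0
    rw [smul_add, hf.2, hg.2, add_zero]⟩
  neg_mem' := fun {f} hf => ⟨(ZG hi a ha hc).neg_mem hf.1, fun σ => by
    show 3 • (-f σ) = 0
    rw [smul_neg, hf.2, neg_zero]⟩

/-- the coboundaries of the points killed by three -/
noncomputable def B3 : AddSubgroup (GK i₀ → Pt QB) where
  carrier := {f | ∃ P : Pt QB, 3 • P = 0 ∧ ∀ σ, f σ = ah hi a σ P - P}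
  zero_mem' := ⟨0, smul_zero _, fun σ => by
    show (0 : Pt QB) = _
    rw [map_zero, sub_zero]⟩
  add_mem' := by
    rintro f g ⟨P, hP, h1⟩ ⟨Q, hQ, h2⟩
    refine ⟨P + Q, by rw [smul_add, hP, hQ, add_zero], fun σ => ?_⟩
    show f σ + g σ = _
    rw [h1, h2, map_add]
    abel
  neg_mem' := by
    rintro f ⟨P, hP, h1⟩
    refine ⟨-P, by rw [smul_neg, hP, neg_zero], fun σ => ?_⟩
    show -f σ = _
    rw [h1, map_neg]
    abel

/-- the `3`-Selmer group over `ℚ(ω)` -/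
abbrev H3 : Type := Z3 hi a ha hc ⧸ (B3 hi a).addSubgroupOf (Z3 hi a ha hc)

lemma mk3_eq_zero {f : Z3 hi a ha hc} :
    (QuotientAddGroup.mk f : H3 hi a ha hc) = 0 ↔
      ∃ P : Pt QB, 3 • P = 0 ∧ ∀ σ, f.1 σ = ah hi a σ P - P := by
  rw [QuotientAddGroup.eq_zero_iff, AddSubgroup.mem_addSubgroupOf]
  rfl

/-- `√-3` on the cocycles -/
noncomputable def thZ3 : Z3 hi a ha hc →+ Z3 hi a ha hc where
  toFun f := ⟨fun σ => th hi (f.1 σ), co_th f.2.1, fun σ => by
    rw [← map_nsmul, f.2.2, map_zero]⟩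
  map_zero' := by
    apply Subtype.ext
    funext σ
    exact map_zero (th hi)
  map_add' := fun f g => by
    apply Subtype.ext
    funext σ
    exact map_add (th hi) _ _

/-- `√-3` on the classes -/
noncomputable def thH3 : H3 hi a ha hc →+ H3 hi a ha hc :=
  QuotientAddGroup.map _ _ (thZ3 hi a ha hc) (by
    intro f hf
    rw [AddSubgroup.mem_addSubgroupOf] at hf
    obtain ⟨P, hP3, hP⟩ := hf
    rw [AddSubgroup.mem_comap, AddSubgroup.mem_addSubgroupOf]
    refine ⟨th hi P, by rw [← map_nsmul, hP3, map_zero], fun σ => ?_⟩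
    show th hi (f.1 σ) = _
    rw [hP, map_sub, ah_th])

lemma thH3_mk (f : Z3 hi a ha hc) :
    thH3 hi a ha hc (QuotientAddGroup.mk f) = QuotientAddGroup.mk (thZ3 hi a ha hc f) := rfl

lemma thH3_thH3 (x : H3 hi a ha hc) : thH3 hi a ha hc (thH3 hi a ha hc x) = -(3 • x) := by
  obtain ⟨f, rfl⟩ := QuotientAddGroup.mk_surjective x
  rw [thH3_mk, thH3_mk, ← QuotientAddGroup.mk_nsmul, ← QuotientAddGroup.mk_neg]
  congr 1
  apply Subtype.ext
  funext σ
  show th hi (th hi (f.1 σ)) = _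
  rw [th_th]
  rfl

/-- the points killed by three -/
lemma three_pts {Q : Pt QB} (hQ : 3 • Q = 0) :
    ∃ n m : ZMod 3, Q = n.val • T3 hi + tt QB m := by
  have h1 : dd hi (dd hi Q) = 0 := by rw [dd_dd, hQ, map_zero, neg_zero]
  obtain ⟨n, hn⟩ := dd_ker hi h1
  have h2 : dd hi (Q - n.val • T3 hi) = 0 := by
    rw [map_sub, map_nsmul, dd_T3, nsmul_tt, mul_one, ZMod.natCast_zmod_val, hn, sub_self]
  obtain ⟨m, hm⟩ := dd_ker hi h2
  exact ⟨n, m, by rw [← hm]; abel⟩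

lemma three_T3 : 3 • T3 hi = 0 := by
  have h1 := dd_dd hi (T3 hi)
  rw [dd_T3, dd_tt] at h1
  have h2 : im (isE QB) hi (3 • T3 hi) = 0 := by
    rw [← neg_eq_zero]
    exact h1.symm
  have h3 := im3 hi (3 • T3 hi)
  rw [h2, map_zero, map_zero] at h3
  exact h3.symm

lemma three_tm (h : GK i₀ → ZMod 3) (σ : GK i₀) : 3 • tm i₀ h σ = 0 := by
  show 3 • tt QB (h σ) = 0
  rw [nsmul_tt]
  have : ((3 : ℕ) : ZMod 3) = 0 := by decide
  rw [this, zero_mul, tt_zero]

/-- the classes killed by `√-3` -/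
noncomputable def Ph3 (R : Pt QB) (hR : th hi R = T3 hi) :
    SG hi a ha hc × ZMod 3 →+ H3 hi a ha hc :=
  AddMonoidHom.mk' (fun x => QuotientAddGroup.mk ⟨fun σ => tt QB (x.1.1 σ) +
      x.2.val • (ah hi a σ R - R), by
    refine ⟨(ZG hi a ha hc).add_mem (x.1.2) ((co_cob ha hc R).nsmul x.2.val), fun σ => ?_⟩
    have h1 : 3 • R = -im (isE QB) hi (im (isE QB) hi (im (isE QB) hi (tt QB 1))) := by
      have h2 := th_th hi R
      rw [hR, th_im, dd_T3] at h2
      rw [im3]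
      have h3 : im (isE QB) hi (tt QB 1) = tt QB 1 := im_tt hi 1
      rw [h3] at h2
      rw [h2, neg_neg]
    have h4 : 3 • (ah hi a σ R - R) = 0 := by
      rw [smul_sub, ← map_nsmul, h1, im3, map_neg, ah_tt, sub_self]
    have h5 : 3 • tt QB (x.1.1 σ) = 0 := three_tm x.1.1 σ
    rw [smul_add, h5, smul_comm, h4, smul_zero, add_zero]⟩) (by
    rintro ⟨h, n⟩ ⟨h', n'⟩
    rw [← QuotientAddGroup.mk_add]
    congr 1
    apply Subtype.ext
    funext σ
    show tt QB (h.1 σ + h'.1 σ) + (n + n').val • (ah hi a σ R - R) =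
      (tt QB (h.1 σ) + n.val • (ah hi a σ R - R)) +
        (tt QB (h'.1 σ) + n'.val • (ah hi a σ R - R))
    have h1 : 3 • R = -tt QB 1 := by
      have h2 := th_th hi R
      rw [hR, th_im, dd_T3] at h2
      have h3 : im (isE QB) hi (tt QB 1) = tt QB 1 := im_tt hi 1
      rw [h3] at h2
      rw [h2, neg_neg]
    have h4 : 3 • (ah hi a σ R - R) = 0 := by
      rw [smul_sub, ← map_nsmul, h1, map_neg, ah_tt, sub_self]
    have h5 : (n + n').val • (ah hi a σ R - R) =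
        n.val • (ah hi a σ R - R) + n'.val • (ah hi a σ R - R) := by
      rw [← add_smul, ZMod.val_add]
      conv_rhs => rw [← Nat.mod_add_div (n.val + n'.val) 3]
      rw [add_smul, mul_comm 3, mul_smul, h4, smul_zero, add_zero]
    rw [h5, tt_add]
    abel)


lemma ex_R : ∃ R : Pt QB, th hi R = T3 hi := by
  obtain ⟨R, hR⟩ := dd_surj hi (im (isE QB) hi (im (isE QB) hi (T3 hi)))
  exact ⟨R, by rw [th_im, hR, im3]⟩

lemma dd_of_th {P : Pt QB} (h : th hi P = 0) : dd hi P = 0 := by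
  rw [th_im] at h
  have h3 := im3 hi (dd hi P)
  rw [h, map_zero, map_zero] at h3
  exact h3.symm

lemma Ph3_mk {R : Pt QB} (hR : th hi R = T3 hi) (h : SG hi a ha hc) (n : ZMod 3)
    (f : Z3 hi a ha hc) (hf : ∀ σ, f.1 σ = tt QB (h.1 σ) + n.val • (ah hi a σ R - R)) :
    Ph3 hi a ha hc R hR (h, n) = QuotientAddGroup.mk f := by
  show QuotientAddGroup.mk _ = QuotientAddGroup.mk f
  congr 1
  apply Subtype.ext
  funext σ
  exact (hf σ).symm

/-- the classes killed by `√-3` come from the Selmer characters -/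
lemma ker_le_range3 {R : Pt QB} (hR : th hi R = T3 hi) :
    (thH3 hi a ha hc).ker ≤ (Ph3 hi a ha hc R hR).range := by
  intro x hx
  obtain ⟨f, rfl⟩ := QuotientAddGroup.mk_surjective x
  have h1 : thH3 hi a ha hc (QuotientAddGroup.mk f) = 0 := hx
  rw [thH3_mk, mk3_eq_zero] at h1
  obtain ⟨Q, hQ3, hQ⟩ := h1
  have hQ' : ∀ σ, th hi (f.1 σ) = ah hi a σ Q - Q := hQ
  obtain ⟨n, m, hnm⟩ := three_pts hi hQ3
  have h5 : ∀ σ, dd hi (f.1 σ - n.val • (ah hi a σ R - R)) = 0 := by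
    intro σ
    apply dd_of_th
    rw [map_sub, hQ', hnm, map_nsmul, map_sub, ← ah_th, hR, map_add, ah_tt, map_nsmul, smul_sub]
    abel
  have hex : ∀ σ, ∃ c : ZMod 3, f.1 σ - n.val • (ah hi a σ R - R) = tt QB c := fun σ =>
    dd_ker hi (h5 σ)
  choose h hh using hex
  have hmem : tm i₀ h ∈ ZG hi a ha hc := by
    have e : tm i₀ h = f.1 - n.val • (dl hi a R) := by
      funext σ
      show tt QB (h σ) = f.1 σ - n.val • (ah hi a σ R - R)
      rw [hh]
    rw [e]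
    exact (ZG hi a ha hc).sub_mem f.2.1 ((ZG hi a ha hc).nsmul_mem (co_dl hi a ha hc R) _)
  refine ⟨(⟨h, hmem⟩, n), ?_⟩
  apply Ph3_mk
  intro σ
  show f.1 σ = tt QB (h σ) + _
  rw [← hh σ]
  abel

lemma a_SG (c : ZMod 3) : (fun σ => c * a σ) ∈ SG hi a ha hc := by
  show tm i₀ (fun σ => c * a σ) ∈ ZG hi a ha hc
  have e : tm i₀ (fun σ => c * a σ) = dl hi a (-(c.val • T3 hi)) := by
    funext σ
    show tt QB (c * a σ) = ah hi a σ (-(c.val • T3 hi)) - -(c.val • T3 hi)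
    rw [map_neg, sub_neg_eq_add, neg_add_eq_sub, ← neg_sub, ah_nT3, neg_neg]
  rw [e]
  exact co_dl hi a ha hc _

lemma card_ker3 {R : Pt QB} (hR : th hi R = T3 hi) (hne : ∃ σ, a σ ≠ 0)
    (hfin : Finite (Ph3 hi a ha hc R hR).ker) : 3 ≤ Nat.card (Ph3 hi a ha hc R hR).ker := by
  have h1 : ∀ c : ZMod 3, ((⟨fun σ => c * a σ, a_SG hi a ha hc c⟩, 0) : SG hi a ha hc × ZMod 3) ∈
      (Ph3 hi a ha hc R hR).ker := by
    intro c
    have hz : (fun σ => tt QB (c * a σ) : GK i₀ → Pt QB) ∈ Z3 hi a ha hc :=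
      ⟨a_SG hi a ha hc c, fun σ => three_tm (fun σ => c * a σ) σ⟩
    have h2 : Ph3 hi a ha hc R hR (⟨fun σ => c * a σ, a_SG hi a ha hc c⟩, 0) =
        QuotientAddGroup.mk ⟨_, hz⟩ := by
      apply Ph3_mk
      intro σ
      show tt QB (c * a σ) = tt QB (c * a σ) + (0 : ZMod 3).val • (ah hi a σ R - R)
      rw [ZMod.val_zero, zero_smul, add_zero]
    show Ph3 hi a ha hc R hR _ = 0
    rw [h2, mk3_eq_zero]
    refine ⟨-(c.val • T3 hi), ?_, fun σ => ?_⟩
    · rw [smul_neg, smul_comm, three_T3, smul_zero, neg_zero]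
    · show tt QB (c * a σ) = _
      rw [map_neg, sub_neg_eq_add, neg_add_eq_sub, ← neg_sub, ah_nT3, neg_neg]
  have h3 : Function.Injective (fun c : ZMod 3 => (⟨_, h1 c⟩ : (Ph3 hi a ha hc R hR).ker)) := by
    intro c c' h
    obtain ⟨σ, hσ⟩ := hne
    have h4 : c * a σ = c' * a σ :=
      congrFun (congrArg (fun z : (Ph3 hi a ha hc R hR).ker => z.1.1.1) h) σ
    haveI : Fact (Nat.Prime 3) := ⟨Nat.prime_three⟩
    exact mul_right_cancel₀ hσ h4
  have h5 := Nat.card_le_card_of_injective _ h3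
  rwa [Nat.card_zmod] at h5

/-- **the Selmer classes killed by `√-3`** -/
theorem card_thH3 (hne : ∃ σ, a σ ≠ 0) (hfin : (SelH hi a).Finite) :
    Finite (thH3 hi a ha hc).ker ∧ Nat.card (thH3 hi a ha hc).ker ≤ (SelH hi a).ncard := by
  obtain ⟨R, hR⟩ := ex_R hi
  have hne' : (SelH hi a).ncard ≠ 0 := by
    apply (Set.ncard_pos hfin).2 ?_ |>.ne'
    refine ⟨0, ?_⟩
    rw [selH_iff, map_zero]
    exact (ZG hi a ha hc).zero_mem
  have hS : Finite (SG hi a ha hc) := by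
    apply Nat.finite_of_card_ne_zero
    rw [card_SG]
    exact hne'
  have hR' : Finite (Ph3 hi a ha hc R hR).range :=
    Finite.of_surjective (Ph3 hi a ha hc R hR).rangeRestrict
      (AddMonoidHom.rangeRestrict_surjective _)
  have hinj := AddSubgroup.inclusion_injective (ker_le_range3 hi a ha hc hR)
  refine ⟨Finite.of_injective _ hinj, ?_⟩
  have h1 := card_ker_range (Ph3 hi a ha hc R hR)
  rw [Nat.card_prod, Nat.card_zmod, card_SG] at h1
  have h2 := card_ker3 hi a ha hc hR hne inferInstance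
  have h3 : Nat.card (Ph3 hi a ha hc R hR).range * 3 ≤ (SelH hi a).ncard * 3 := by
    rw [h1]
    exact Nat.mul_le_mul_left _ h2
  exact (Nat.card_le_card_of_injective _ hinj).trans (Nat.le_of_mul_le_mul_right h3 (by norm_num))

end K

end Pool.Agent.QS543
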