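import Pool.Agent.QS543.Sel
import Pool.Agent.QS543.Main

/-!
# Project QS (helper543): the `3`-Selmer group over `ℚ`
-/

set_option autoImplicit false
set_option linter.unusedVariables false
set_option linter.unusedSectionVars false

open scoped Classical

namespace Pool.Agent.QS543

open WeierstrassCurve
open Pool.Agent.Y692.QS (Ei w nr toC)
open Pool.Agent.Y715.T.Gi Pool.Agent.Y715.T.Nr Pool.Agent.Y715.T.Df Pool.Agent.Y715.T.Ell
open Pool.Agent.Y703.CT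
open Pool.Agent.Y155.CT (ah ah_apply dd Co ah_im ah_dd im3 dd_apply)
open Pool.Agent.Y692.CT (rs rs_apply rs_mul rs_ex rs_cont)
open Pool.Agent.W262.SH (IsCoc IsCob LocTriv shaCoc cob Sha)
open Pool.Agent.XL6 (SelH)

/-- the locally trivial cocycles with values in the points killed by three -/
noncomputable def selZ (W : WeierstrassCurve ℚ) : AddSubgroup (shaCoc W) where
  carrier := {f | ∀ σ, 3 • f.1 σ = 0}
  zero_mem' := fun σ => smul_zero _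
  add_mem' := fun {f g} hf hg σ => by
    show 3 • (f.1 σ + g.1 σ) = 0
    rw [smul_add, hf, hg, add_zero]
  neg_mem' := fun {f} hf σ => by
    show 3 • (-f.1 σ) = 0
    rw [smul_neg, hf, neg_zero]

/-- the coboundaries of the points killed by three -/
noncomputable def selB (W : WeierstrassCurve ℚ) : AddSubgroup (selZ W) where
  carrier := {f | ∃ P : WP W QB, 3 • P = 0 ∧ ∀ σ, f.1.1 σ = wa W σ.toAlgHom P - P}
  zero_mem' := ⟨0, smul_zero _, fun σ => by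
    show (0 : WP W QB) = _
    rw [map_zero, sub_zero]⟩
  add_mem' := by
    rintro f g ⟨P, hP, h1⟩ ⟨Q, hQ, h2⟩
    refine ⟨P + Q, by rw [smul_add, hP, hQ, add_zero], fun σ => ?_⟩
    show f.1.1 σ + g.1.1 σ = _
    rw [h1, h2, map_add]
    abel
  neg_mem' := by
    rintro f ⟨P, hP, h1⟩
    refine ⟨-P, by rw [smul_neg, hP, neg_zero], fun σ => ?_⟩
    show -f.1.1 σ = _
    rw [h1, map_neg]
    abel

/-- the `3`-Selmer group over `ℚ` -/
abbrev Sel3 (W : WeierstrassCurve ℚ) : Type := selZ W ⧸ selB W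

lemma sel_mk_zero {W : WeierstrassCurve ℚ} {f : selZ W} :
    (QuotientAddGroup.mk f : Sel3 W) = 0 ↔
      ∃ P : WP W QB, 3 • P = 0 ∧ ∀ σ, f.1.1 σ = wa W σ.toAlgHom P - P := by
  rw [QuotientAddGroup.eq_zero_iff]
  rfl

lemma sel_three {W : WeierstrassCurve ℚ} (x : Sel3 W) : 3 • x = 0 := by
  obtain ⟨f, rfl⟩ := QuotientAddGroup.mk_surjective x
  rw [← QuotientAddGroup.mk_nsmul]
  have h : (3 • f : selZ W) = 0 := by
    apply Subtype.ext
    apply Subtype.ext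
    funext σ
    exact f.2 σ
  rw [h]
  rfl

variable {W : WeierstrassCurve ℚ} {i₀ : QB} {hi : i₀ ^ 2 + i₀ + 1 = 0}
  {a : GK i₀ → ZMod 3} (F : TwF W hi a)
  (ha : ∀ σ τ, a (σ * τ) = a σ + a τ) (hc : IsLocallyConstant a)

include hi in
/-- a cocycle killed by three whose restriction to `ℚ(ω)` is trivial -/
theorem quadG3 (g : (QB ≃ₐ[ℚ] QB) → WP W QB) (h3 : ∀ σ, 3 • g σ = 0)
    (hg : ∀ σ τ, g (σ * τ) = g σ + wa W σ.toAlgHom (g τ)) (h0 : ∀ σ, σ i₀ = i₀ → g σ = 0) :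
    ∃ Q : WP W QB, 3 • Q = 0 ∧ ∀ σ, 2 • g σ = wa W σ.toAlgHom Q - Q := by
  obtain ⟨c, hc⟩ := exists_conj hi
  have hne : ∀ σ : QB ≃ₐ[ℚ] QB, σ i₀ = i₀ ∨ σ i₀ = -1 - i₀ := by
    intro σ
    have h1 : (σ i₀) ^ 2 + σ i₀ + 1 = 0 := by
      rw [← map_pow, ← map_add, ← map_one σ, ← map_add, hi, map_zero]
    have h2 : (σ i₀ - i₀) * (σ i₀ - (-1 - i₀)) = 0 := by linear_combination h1 - hi
    rcases mul_eq_zero.1 h2 with h3 | h3
    · exact Or.inl (sub_eq_zero.1 h3)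
    · exact Or.inr (sub_eq_zero.1 h3)
  have hconj : ∀ σ : QB ≃ₐ[ℚ] QB, σ i₀ = -1 - i₀ → ∀ τ : QB ≃ₐ[ℚ] QB, τ i₀ = -1 - i₀ →
      (σ * τ) i₀ = i₀ := by
    intro σ hσ τ hτ
    rw [AlgEquiv.mul_apply, hτ, map_sub, map_neg, map_one, hσ]
    ring
  have hval : ∀ σ : QB ≃ₐ[ℚ] QB, σ i₀ = -1 - i₀ → g σ = g c := by
    intro σ hσ
    have h1 : g (c * (c⁻¹ * σ)) = g c + wa W c.toAlgHom (g (c⁻¹ * σ)) := hg _ _
    have h2 : (c⁻¹ * σ) i₀ = i₀ := by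
      apply c.injective
      rw [AlgEquiv.mul_apply]
      have h3 : c (c⁻¹ (σ i₀)) = σ i₀ := c.apply_symm_apply _
      rw [h3, hσ, hc]
    rw [mul_inv_cancel_left, h0 _ h2, map_zero, add_zero] at h1
    exact h1
  refine ⟨-g c, by rw [smul_neg, h3, neg_zero], fun σ => ?_⟩
  rcases hne σ with h1 | h1
  · have h2 : g (σ * c) = wa W σ.toAlgHom (g c) := by rw [hg, h0 σ h1, zero_add]
    have h3 : g (σ * c) = g c := by
      apply hval
      rw [AlgEquiv.mul_apply, hc, map_sub, map_neg, map_one, h1]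
    rw [h0 σ h1, smul_zero, map_neg, ← h2, h3]
    abel
  · have h2 : g σ + wa W σ.toAlgHom (g σ) = 0 := by
      rw [← hg, h0 _ (hconj σ h1 σ h1)]
    rw [hval σ h1] at h2 ⊢
    rw [map_neg]
    have h3 : wa W σ.toAlgHom (g c) = -g c := by
      rw [eq_neg_iff_add_eq_zero, add_comm]
      exact h2
    rw [h3]
    abel

include hi in
/-- a class whose restriction is zero is zero -/
lemma inj_res3 (f : selZ W) {P' : WP W QB} (hP3 : 3 • P' = 0)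
    (h5 : ∀ σ : GK i₀, f.1.1 (rs σ) = wa W (rs σ).toAlgHom P' - P') :
    (QuotientAddGroup.mk f : Sel3 W) = 0 := by
  obtain ⟨⟨hcc, hm⟩, hl, -⟩ := f.1.2
  have h30 : ∀ σ, 3 • f.1.1 σ = 0 := f.2
  obtain ⟨Q, hQ3, hQ⟩ := quadG3 (hi := hi) (fun σ => f.1.1 σ - (wa W σ.toAlgHom P' - P')) (by
    intro σ
    show 3 • (f.1.1 σ - (wa W σ.toAlgHom P' - P')) = 0
    rw [smul_sub, h30, smul_sub, ← map_nsmul, hP3, map_zero, sub_zero, sub_zero]) (by
    intro σ τ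
    show f.1.1 (σ * τ) - _ = f.1.1 σ - _ + wa W σ.toAlgHom (f.1.1 τ - _)
    have h6 : f.1.1 (σ * τ) = f.1.1 σ + wa W σ.toAlgHom (f.1.1 τ) := hm σ τ
    rw [h6, wa_mul, map_sub, map_sub]
    abel) (by
    intro σ hσ
    obtain ⟨τ, rfl⟩ := rs_ex hσ
    show f.1.1 (rs τ) - _ = 0
    rw [h5, sub_self])
  rw [sel_mk_zero]
  refine ⟨-(2 • P' + Q), by rw [smul_neg, smul_add, smul_comm, hP3, hQ3, smul_zero, add_zero, neg_zero],
    fun σ => ?_⟩
  have h7 : 2 • (f.1.1 σ - (wa W σ.toAlgHom P' - P')) = wa W σ.toAlgHom Q - Q := hQ σ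
  rw [map_neg, map_add, map_nsmul]
  have h9 : 3 • f.1.1 σ = 2 • f.1.1 σ + f.1.1 σ := succ_nsmul _ 2
  have h10 : 2 • f.1.1 σ = wa W σ.toAlgHom Q - Q + 2 • (wa W σ.toAlgHom P' - P') := by
    rw [← h7, smul_sub]
    abel
  rw [h30 σ, h10] at h9
  have h11 : f.1.1 σ = -(wa W σ.toAlgHom Q - Q + 2 • (wa W σ.toAlgHom P' - P')) := by
    rw [eq_neg_iff_add_eq_zero, add_comm]
    exact h9.symm
  rw [h11, smul_sub]
  abel

/-- restriction -/
noncomputable def s0 : selZ W →+ Z3 hi a ha hc where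
  toFun f := ⟨fun σ => F.Φ.symm (f.1.1 (rs σ)), res_coG F f.1, fun σ => by
    have h : 3 • f.1.1 (rs σ) = 0 := f.2 _
    rw [← map_nsmul, h, map_zero]⟩
  map_zero' := by
    apply Subtype.ext
    funext σ
    exact map_zero F.Φ.symm
  map_add' := fun f g => by
    apply Subtype.ext
    funext σ
    exact map_add F.Φ.symm _ _

/-- restriction of the classes -/
noncomputable def s1 : Sel3 W →+ H3 hi a ha hc :=
  QuotientAddGroup.map _ _ (s0 F ha hc) (by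
    intro f hf
    obtain ⟨P, hP3, hP'⟩ := hf
    rw [AddSubgroup.mem_comap, AddSubgroup.mem_addSubgroupOf]
    refine ⟨F.Φ.symm P, by rw [← map_nsmul, hP3, map_zero], fun σ => ?_⟩
    show F.Φ.symm (f.1.1 (rs σ)) = act hi a σ (F.Φ.symm P) - F.Φ.symm P
    apply F.Φ.injective
    rw [map_sub, ← F.act, AddEquiv.apply_symm_apply, AddEquiv.apply_symm_apply, hP']
    rfl)

/-- the two parts are disjoint -/
theorem disj3 (x y : Sel3 W)
    (h : s1 F ha hc x = thH3 hi a ha hc (s1 F ha hc y)) : x = 0 := by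
  obtain ⟨f, rfl⟩ := QuotientAddGroup.mk_surjective x
  obtain ⟨g, rfl⟩ := QuotientAddGroup.mk_surjective y
  have h' : (QuotientAddGroup.mk (s0 F ha hc f) : H3 hi a ha hc) =
      QuotientAddGroup.mk (thZ3 hi a ha hc (s0 F ha hc g)) := h
  rw [← sub_eq_zero, ← QuotientAddGroup.mk_sub, mk3_eq_zero] at h'
  obtain ⟨P0, hP03, hP0⟩ := h'
  obtain ⟨P, hPe⟩ : ∃ P, P = F.Φ P0 := ⟨_, rfl⟩
  have hP3 : 3 • P = 0 := by rw [hPe, ← map_nsmul, hP03, map_zero]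
  have k1 : ∀ σ : GK i₀, f.1.1 (rs σ) = ThG F (g.1.1 (rs σ)) +
      (wa W (rs σ).toAlgHom P - P) := by
    intro σ
    have h1 : F.Φ.symm (f.1.1 (rs σ)) - th hi (F.Φ.symm (g.1.1 (rs σ))) =
      act hi a σ P0 - P0 := hP0 σ
    have h2 := congrArg F.Φ h1
    rw [map_sub, map_sub, AddEquiv.apply_symm_apply, ← ThG_apply, ← F.act, ← hPe] at h2
    have h3 : (rs σ).toAlgHom = gh σ := rfl
    rw [h3, ← h2]
    abel
  obtain ⟨⟨-, hm⟩, -, -⟩ := f.1.2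
  obtain ⟨⟨-, hn⟩, -, -⟩ := g.1.2
  have f3 : ∀ σ, 3 • f.1.1 σ = 0 := f.2
  have g3 : ∀ σ, 3 • g.1.1 σ = 0 := g.2
  have hm' : ∀ σ τ, f.1.1 (σ * τ) = f.1.1 σ + wa W σ.toAlgHom (f.1.1 τ) := hm
  have hn' : ∀ σ τ, g.1.1 (σ * τ) = g.1.1 σ + wa W σ.toAlgHom (g.1.1 τ) := hn
  obtain ⟨c, hcj⟩ := exists_conj hi
  have k2 : ∀ σ : GK i₀, 2 • f.1.1 (rs σ) = wa W (rs σ).toAlgHom
      (wa W c.toAlgHom P - f.1.1 c - ThG F (g.1.1 c) + P) -
      (wa W c.toAlgHom P - f.1.1 c - ThG F (g.1.1 c) + P) := by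
    intro σ
    obtain ⟨τ, hτ⟩ : ∃ τ : GK i₀, rs τ = c⁻¹ * (rs σ * c) := by
      apply rs_ex
      rw [AlgEquiv.mul_apply, AlgEquiv.mul_apply, hcj, rs_apply, map_sub, map_neg, map_one,
        gk_fix]
      apply c.injective
      have h3 : c (c⁻¹ (-1 - i₀)) = -1 - i₀ := c.apply_symm_apply _
      rw [h3, hcj]
    have h1 : c * rs τ = rs σ * c := by rw [hτ, mul_inv_cancel_left]
    have e1 : wa W c.toAlgHom (f.1.1 (rs τ)) =
        f.1.1 (rs σ) + wa W (rs σ).toAlgHom (f.1.1 c) - f.1.1 c := by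
      rw [← hm', ← h1, hm']
      abel
    have e2 : wa W c.toAlgHom (g.1.1 (rs τ)) =
        g.1.1 (rs σ) + wa W (rs σ).toAlgHom (g.1.1 c) - g.1.1 c := by
      rw [← hn', ← h1, hn']
      abel
    have e3 : wa W c.toAlgHom (wa W (rs τ).toAlgHom P) =
        wa W (rs σ).toAlgHom (wa W c.toAlgHom P) := by
      rw [← wa_mul, ← wa_mul, h1]
    have e4 := congrArg (wa W c.toAlgHom) (k1 τ)
    rw [map_add, map_sub, e1, e3, wa_Th F hcj, e2, map_sub, map_add, ← wa_Th' F] at e4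
    have e5 := k1 σ
    rw [map_add, map_sub, map_sub, two_nsmul]
    have e6 : f.1.1 (rs σ) = -(ThG F (g.1.1 (rs σ)) +
        wa W (rs σ).toAlgHom (ThG F (g.1.1 c)) - ThG F (g.1.1 c)) +
        (wa W (rs σ).toAlgHom (wa W c.toAlgHom P) - wa W c.toAlgHom P) -
        wa W (rs σ).toAlgHom (f.1.1 c) + f.1.1 c := by
      rw [← e4]
      abel
    nth_rewrite 1 [e6]
    rw [e5]
    abel
  obtain ⟨V, hV⟩ : ∃ V, V = wa W c.toAlgHom P - f.1.1 c - ThG F (g.1.1 c) + P := ⟨_, rfl⟩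
  rw [← hV] at k2
  have hV3 : 3 • V = 0 := by
    rw [hV, smul_add, smul_sub, smul_sub, ← map_nsmul, hP3, f3, ← map_nsmul, g3, map_zero,
      map_zero, sub_zero, sub_zero, add_zero]
  refine inj_res3 (hi := hi) f (P' := -V) (by rw [smul_neg, hV3, neg_zero]) fun σ => ?_
  have h2 := k2 σ
  have h4 : f.1.1 (rs σ) = 3 • f.1.1 (rs σ) - 2 • f.1.1 (rs σ) := by
    rw [succ_nsmul _ 2]
    abel
  rw [h4, f3, h2, map_neg]
  abel

/-- **the `3`-Selmer group over `ℚ` and the characters over `ℚ(ω)`** -/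
theorem card_Sel3 (F : TwF W hi a) (hfin : Finite (thH3 hi a ha hc).ker) :
    Finite (Sel3 W) ∧ Nat.card (Sel3 W) ≤ Nat.card (thH3 hi a ha hc).ker :=
  card_le_ker (thH3 hi a ha hc) (s1 F ha hc) (thH3_thH3 hi a ha hc) sel_three
    (disj3 F ha hc) hfin

include ha hc in
theorem bnd3 (F : TwF W hi a) (hne : ∃ σ, a σ ≠ 0) (hfin : (SelH hi a).Finite) :
    Finite (Sel3 W) ∧ Nat.card (Sel3 W) ≤ (SelH hi a).ncard := by
  obtain ⟨h1, h2⟩ := card_thH3 hi a ha hc hne hfin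
  obtain ⟨h3, h4⟩ := card_Sel3 ha hc F h1
  exact ⟨h3, h4.trans h2⟩

open NumberField
open Pool.Agent.Y703.CT (Dt pD a_ne Tw Cls EQ WD)
open Pool.Agent.Y696.CTK (Parts parts ED TrfData)
open Pool.Agent.Y155.CT (a_mul a_cont AG AG_fg)
open Pool.Agent.XL6 (SelK KerV)
open Pool.Agent.QL543 (WF Spl h9_of ker_le tw_neg fg_K ex_conj rk_QK rk_FK)

theorem bound3' (K : Type) [Field K] [NumberField K] [IsCyclotomicExtension {3} ℚ K] {D : ℕ}
    (hC : Cls D) {s : ℕ} (hs : (Spl D).ncard = 3 ^ (s + 1)) :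
    (Finite (Sel3 (EQ (WD (D : ℤ)))) ∧ Nat.card (Sel3 (EQ (WD (D : ℤ)))) ≤ 3 ^ (2 * s + 1)) ∧
    (Finite (Sel3 (WF ((D : ℤ) : ℚ))) ∧
      Nat.card (Sel3 (WF ((D : ℤ) : ℚ))) ≤ 3 ^ (2 * s + 1)) := by
  obtain ⟨n, π, e, hdt, hD⟩ := Pool.Agent.Y274.CT.t_exi D hC.1
  obtain ⟨q, -⟩ := Pool.Agent.Y405.CT.fixed hC hdt hD
  have hne : Nonempty (Fin n) := ⟨q⟩
  have h9 := h9_of hC hD
  have hf : (Spl D).Finite := Set.finite_of_ncard_ne_zero (by rw [hs]; positivity)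
  have h1 : 3 * (Pool.Agent.XL6.KerV π e).ncard ≤ (Spl D).ncard ^ 2 := ker_le hC hdt hD hf
  have h2 : (Pool.Agent.XL6.KerV π e).ncard ≤ 3 ^ (2 * s + 1) := by
    rw [hs, ← pow_mul] at h1
    have e1 : (s + 1) * 2 = 2 * s + 1 + 1 := by ring
    rw [e1, pow_succ (3 : ℕ) (2 * s + 1), mul_comm] at h1
    exact Nat.le_of_mul_le_mul_right h1 (by norm_num)
  obtain ⟨⟨j, hj⟩, -⟩ := Pool.Agent.Y455.CTK.jex K
  have hne0 : pD π e ≠ 0 := Pool.Agent.Y153.CTRAM.ne_zero_of hdt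
  have hDne : (D : Ei) ≠ 0 := by
    rcases hD with h | h
    · rw [h]
      exact hne0
    · rw [h]
      exact neg_ne_zero.2 hne0
  obtain ⟨e', i₀, hi, u, a, Ψ, g, hdata⟩ := parts.trf K j _ hDne
  have hT := hdata.1
  obtain ⟨u', hT'⟩ : ∃ u', Tw hi (pD π e) u' a := by
    rcases hD with h | h
    · exact ⟨u, by rw [← h]; exact hT⟩
    · exact ⟨-u, tw_neg (by rw [← h]; exact hT)⟩
  have h3 : (SelH hi a).ncard = (Pool.Agent.XL6.KerV π e).ncard := Pool.Agent.XL6.sel_card hdt h9 hT'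
  have hpos : (Pool.Agent.XL6.KerV π e).ncard ≠ 0 := by
    have h0 : (0 : Fin n → ZMod 3) ∈ Pool.Agent.XL6.KerV π e := fun j => by simp
    exact Set.ncard_ne_zero_of_mem h0 (Set.toFinite _)
  have hfin : (SelH hi a).Finite := Set.finite_of_ncard_ne_zero (by rw [h3]; exact hpos)
  have ha := a_mul hDne hT
  have hc := a_cont hDne hT
  have han : ∃ σ, a σ ≠ 0 := a_ne hdt hT'
  have hu : u ^ 3 = ((D : ℤ) : QB) := by
    rw [hT.cube, map_natCast, Int.cast_natCast]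
  have hS : (SelH hi a).ncard ≤ 3 ^ (2 * s + 1) := by
    rw [h3]
    exact h2
  have hD1 : (D : ℤ) ≠ 0 := Int.natCast_ne_zero.2 hC.1.1
  obtain ⟨k1, k2⟩ := bnd3 ha hc (twE hD1 hi hu hT.act) han hfin
  obtain ⟨k3, k4⟩ := bnd3 ha hc (twC hD1 hi hu hT.act) han hfin
  exact ⟨⟨k1, k2.trans hS⟩, ⟨k3, k4.trans hS⟩⟩

/-- **`#Sel₃ ≤ 3 ^ (2 s + 1)`** -/
theorem bound3 {D : ℕ} (hC : Cls D) {s : ℕ} (hs : (Spl D).ncard = 3 ^ (s + 1)) :
    (Finite (Sel3 (EQ (WD (D : ℤ)))) ∧ Nat.card (Sel3 (EQ (WD (D : ℤ)))) ≤ 3 ^ (2 * s + 1)) ∧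
    (Finite (Sel3 (WF (D : ℚ))) ∧ Nat.card (Sel3 (WF (D : ℚ))) ≤ 3 ^ (2 * s + 1)) := by
  have h1 : NeZero ((3 : ℕ) : ℚ) := ⟨by norm_num⟩
  have h2 : IsCyclotomicExtension {3} ℚ (CyclotomicField 3 ℚ) :=
    CyclotomicField.isCyclotomicExtension 3 ℚ
  have h3 := bound3' (CyclotomicField 3 ℚ) hC hs
  have e : (((D : ℤ) : ℚ)) = (D : ℚ) := Int.cast_natCast D
  rw [e] at h3
  exact h3

end Pool.Agent.QS543
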